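import Pool.Agent.helper52.T1.SpecF

set_option autoImplicit false

/-!
# T1, row FLQ: the leaf inequality for sets of labels
-/

open scoped MatrixGroups ContDiff Topology UpperHalfPlane ComplexConjugate
open UpperHalfPlane MeasureTheory Filter Set

namespace Pool.Agent.T1

open Pool.Agent.RS Pool.Agent.MS Pool.Agent.HV
open Pool.Agent.EN (XG MG mkX mkM fl pr)

noncomputable section

/-! ## Unions -/

lemma FLQ_cont (a : ℕ → ℂ) (J : Finset ℕ) : Continuous fun v : ℝ => ‖∑ j ∈ J, a j * e1 (j * v)‖ ^ 2 := by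
  unfold e1
  fun_prop

lemma FLQ_int (a : ℕ → ℂ) (J : Finset ℕ) (Y : Set ℝ) (hY : Y ⊆ Icc 0 1) :
    IntegrableOn (fun v : ℝ => ‖∑ j ∈ J, a j * e1 (j * v)‖ ^ 2) Y :=
  ((FLQ_cont a J).integrableOn_Icc).mono_set hY

lemma FLQ_cs {ι : Type} (I : Finset ι) (z : ι → ℂ) : ‖∑ i ∈ I, z i‖ ^ 2 ≤ I.card * ∑ i ∈ I, ‖z i‖ ^ 2 := by
  refine (pow_le_pow_left₀ (norm_nonneg _) (norm_sum_le _ _) 2).trans ?_
  exact sq_sum_le_card_mul_sum_sq

/-- the union of sets of frequencies -/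
lemma FLQ_cup {ι : Type} (I : Finset ι) (Js : ι → Finset ℕ) (Y : Set ℝ) (hY : Y ⊆ Icc 0 1) (J : Finset ℕ) (Q : ℝ)
    (h : ∀ i ∈ I, LQ Y (Js i) Q) (hJ : ∀ j ∈ J, ∃ i ∈ I, j ∈ Js i) : LQ Y J (I.card * Q) := by
  classical
  intro a
  rcases J.eq_empty_or_nonempty with rfl | ⟨j₀, hj₀⟩
  · simp
  obtain ⟨i₀, -, -⟩ := hJ j₀ hj₀
  haveI : Nonempty ι := ⟨i₀⟩
  choose! φ hφI hφ using hJ
  set b : ι → ℕ → ℂ := fun i j => if j ∈ J ∧ φ j = i then a j else 0 with hb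
  have hfil : ∀ i, (Js i).filter (fun j => j ∈ J ∧ φ j = i) = J.filter (fun j => φ j = i) := by
    intro i
    ext j
    simp only [Finset.mem_filter]
    constructor
    · rintro ⟨-, h1, h2⟩
      exact ⟨h1, h2⟩
    · rintro ⟨h1, h2⟩
      exact ⟨by rw [← h2]; exact hφ j h1, h1, h2⟩
  have k1 : ∀ v : ℝ, ∑ j ∈ J, a j * e1 (j * v) = ∑ i ∈ I, ∑ j ∈ Js i, b i j * e1 (j * v) := by
    intro v
    rw [← Finset.sum_fiberwise_of_maps_to (g := φ) (t := I) (fun j hj => hφI j hj)]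
    refine Finset.sum_congr rfl (fun i _ => ?_)
    rw [← hfil i, Finset.sum_filter]
    refine Finset.sum_congr rfl (fun j _ => ?_)
    simp only [hb]
    split_ifs <;> simp
  have k2 : ∑ j ∈ J, ‖a j‖ ^ 2 = ∑ i ∈ I, ∑ j ∈ Js i, ‖b i j‖ ^ 2 := by
    rw [← Finset.sum_fiberwise_of_maps_to (g := φ) (t := I) (fun j hj => hφI j hj)]
    refine Finset.sum_congr rfl (fun i _ => ?_)
    rw [← hfil i, Finset.sum_filter]
    refine Finset.sum_congr rfl (fun j _ => ?_)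
    simp only [hb]
    split_ifs <;> simp
  have k3 : ∀ i ∈ I, IntegrableOn (fun v : ℝ => ‖∑ j ∈ Js i, b i j * e1 (j * v)‖ ^ 2) Y := fun i _ => FLQ_int _ _ _ hY
  calc ∫ v in Y, ‖∑ j ∈ J, a j * e1 (j * v)‖ ^ 2
      ≤ ∫ v in Y, (I.card : ℝ) * ∑ i ∈ I, ‖∑ j ∈ Js i, b i j * e1 (j * v)‖ ^ 2 := by
        refine integral_mono (FLQ_int _ _ _ hY) ((integrable_finsetSum _ k3).const_mul _) (fun v => ?_)
        show ‖∑ j ∈ J, a j * e1 (j * v)‖ ^ 2 ≤ _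
        rw [k1 v]
        exact FLQ_cs I _
    _ = (I.card : ℝ) * ∑ i ∈ I, ∫ v in Y, ‖∑ j ∈ Js i, b i j * e1 (j * v)‖ ^ 2 := by
        rw [integral_const_mul, integral_finsetSum _ k3]
    _ ≤ (I.card : ℝ) * ∑ i ∈ I, Q * ∑ j ∈ Js i, ‖b i j‖ ^ 2 := by
        refine mul_le_mul_of_nonneg_left (Finset.sum_le_sum (fun i hi => h i hi (b i))) (by positivity)
    _ = I.card * Q * ∑ j ∈ J, ‖a j‖ ^ 2 := by
        rw [k2, ← Finset.mul_sum]
        ring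

/-- the union of sets of points -/
lemma FLQ_uni (h2 : MON_stmt) {ι : Type} (S : Finset ι) (Z : ι → Set ℝ) (J : Finset ℕ) (Q : ℝ)
    (hZ : ∀ i ∈ S, MeasurableSet (Z i) ∧ Z i ⊆ Icc 0 1 ∧ LQ (Z i) J Q) :
    MeasurableSet (⋃ i ∈ S, Z i) ∧ (⋃ i ∈ S, Z i) ⊆ Icc 0 1 ∧ LQ (⋃ i ∈ S, Z i) J (S.card * Q) := by
  classical
  induction S using Finset.induction_on with
  | empty =>
    refine ⟨by simp, by simp, ?_⟩
    intro a
    simp
  | insert i S hi ih =>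
    obtain ⟨m1, m2, m3⟩ := ih (fun k hk => hZ k (Finset.mem_insert_of_mem hk))
    obtain ⟨n1, n2, n3⟩ := hZ i (Finset.mem_insert_self i S)
    rw [Finset.set_biUnion_insert]
    refine ⟨n1.union m1, union_subset n2 m2, ?_⟩
    have h := h2.2.1 _ _ J Q (S.card * Q) n1 m1 n2 m2 n3 m3
    have e : ((insert i S).card : ℝ) * Q = Q + S.card * Q := by
      rw [Finset.card_insert_of_notMem hi]
      push_cast
      ring
    rw [e]
    exact h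

/-! ## The change of variables -/

lemma FLQ_e1 (x y : ℝ) : e1 (x + y) = e1 x * e1 y := by
  unfold e1
  rw [← Complex.exp_add]
  congr 1
  push_cast
  ring

lemma FLQ_e1n (x : ℝ) : ‖e1 x‖ = 1 := by
  unfold e1
  exact Complex.norm_exp_ofReal_mul_I _

lemma FLQ_var (Z : Set ℝ) (hZ : MeasurableSet Z) (hZ1 : Z ⊆ Icc 0 1) (J : Finset ℤ) (c : ℤ → ℂ) (s : ℕ)
    (hs : ∀ j ∈ J, 0 ≤ j + (s : ℤ)) (Q : ℝ) (hL : LQ Z (J.image fun j => (j + (s : ℤ)).toNat) Q) (Y : Set ℝ)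
    (hY : ∀ v ∈ Y, v / 4 ∈ Z) :
    ∫ v in Y, ‖∑ j ∈ J, c j * Complex.exp (((Real.pi * j * v / 2 : ℝ) : ℂ) * Complex.I)‖ ^ 2 ≤
      4 * Q * ∑ j ∈ J, ‖c j‖ ^ 2 := by
  classical
  set a : ℕ → ℂ := fun m => c ((m : ℤ) - s) with ha
  set J' : Finset ℕ := J.image fun j => (j + (s : ℤ)).toNat with hJ'
  set G : ℝ → ℝ := fun u => ‖∑ m ∈ J', a m * e1 (m * u)‖ ^ 2 with hG
  have hinj : Set.InjOn (fun j : ℤ => (j + (s : ℤ)).toNat) (J : Set ℤ) := by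
    intro x hx y hy hxy
    have h1 := hs x hx
    have h2 := hs y hy
    simp only at hxy
    omega
  have ha' : ∀ j ∈ J, a ((j + (s : ℤ)).toNat) = c j := by
    intro j hj
    have h1 := hs j hj
    simp only [ha]
    congr 1
    omega
  have hsum : ∑ m ∈ J', ‖a m‖ ^ 2 = ∑ j ∈ J, ‖c j‖ ^ 2 := by
    rw [hJ', Finset.sum_image (fun x hx y hy => hinj hx hy)]
    exact Finset.sum_congr rfl (fun j hj => by rw [ha' j hj])
  have hf : ∀ v : ℝ, ‖∑ j ∈ J, c j * Complex.exp (((Real.pi * j * v / 2 : ℝ) : ℂ) * Complex.I)‖ ^ 2 = G (v / 4) := by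
    intro v
    simp only [hG]
    have e2 : ∑ m ∈ J', a m * e1 (m * (v / 4)) = e1 (s * (v / 4)) *
        ∑ j ∈ J, c j * Complex.exp (((Real.pi * j * v / 2 : ℝ) : ℂ) * Complex.I) := by
      rw [hJ', Finset.sum_image (fun x hx y hy => hinj hx hy), Finset.mul_sum]
      refine Finset.sum_congr rfl (fun j hj => ?_)
      rw [ha' j hj]
      have h1 : (((j + (s : ℤ)).toNat : ℕ) : ℝ) = (j : ℝ) + s := by
        have h2 : (((j + (s : ℤ)).toNat : ℕ) : ℤ) = j + s := Int.toNat_of_nonneg (hs j hj)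
        have h3 : ((((j + (s : ℤ)).toNat : ℕ) : ℤ) : ℝ) = ((j + s : ℤ) : ℝ) := by rw [h2]
        push_cast at h3
        exact h3
      rw [h1, show ((j : ℝ) + s) * (v / 4) = s * (v / 4) + j * (v / 4) by ring, FLQ_e1]
      have h4 : e1 ((j : ℝ) * (v / 4)) = Complex.exp (((Real.pi * j * v / 2 : ℝ) : ℂ) * Complex.I) := by
        unfold e1
        congr 3
        ring
      rw [h4]
      ring
    rw [e2, norm_mul, FLQ_e1n, one_mul]
  have hGc : Continuous G := FLQ_cont a J'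
  have hG0 : ∀ u, 0 ≤ G u := fun u => by simp only [hG]; positivity
  set T : Set ℝ := {v | v / 4 ∈ Z} with hT
  have hTm : MeasurableSet T := (measurable_id.div_const 4) hZ
  have hT4 : T ⊆ Icc 0 4 := by
    intro v hv
    have h1 := hZ1 hv
    constructor
    · have := h1.1
      linarith
    · have := h1.2
      linarith
  have hGint : IntegrableOn (fun v => G (v / 4)) T :=
    ((hGc.comp (continuous_id.div_const 4)).integrableOn_Icc (a := 0) (b := 4)).mono_set hT4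
  calc ∫ v in Y, ‖∑ j ∈ J, c j * Complex.exp (((Real.pi * j * v / 2 : ℝ) : ℂ) * Complex.I)‖ ^ 2
      = ∫ v in Y, G (v / 4) := by
        congr 1
        funext v
        exact hf v
    _ ≤ ∫ v in T, G (v / 4) := by
        refine setIntegral_mono_set hGint (Eventually.of_forall fun v => hG0 _) ?_
        exact (Eventually.of_forall fun v hv => hY v hv)
    _ = ∫ v, Z.indicator G (v / 4) := by
        rw [← integral_indicator hTm]
        congr 1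
    _ = 4 * ∫ u in Z, G u := by
        rw [Measure.integral_comp_div (Z.indicator G) 4, integral_indicator hZ, abs_of_pos (by norm_num : (0 : ℝ) < 4),
          smul_eq_mul]
    _ ≤ 4 * (Q * ∑ m ∈ J', ‖a m‖ ^ 2) := mul_le_mul_of_nonneg_left (hL a) (by norm_num)
    _ = 4 * Q * ∑ j ∈ J, ‖c j‖ ^ 2 := by rw [hsum]; ring

/-! ## Labels -/

lemma FLQ_ex {M : ℕ} (p : Fin M → Bool) (i : ℕ) (h : ex p i = true) : ∃ hi : i < M, p ⟨i, hi⟩ = true := by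
  unfold ex at h
  split_ifs at h with hi
  · exact ⟨hi, h⟩

lemma FLQ_K1 {M : ℕ} (p : Fin M → Bool) : Kc (ex p) 0 (M + 1) = Kc (ex p) 0 M := by
  unfold Kc
  congr 1
  ext i
  simp only [Finset.mem_filter, Finset.mem_Ico]
  constructor
  · rintro ⟨⟨h1, -⟩, h3⟩
    exact ⟨⟨h1, (FLQ_ex p i h3).1⟩, h3⟩
  · rintro ⟨⟨h1, h2⟩, h3⟩
    exact ⟨⟨h1, by omega⟩, h3⟩

lemma FLQ_K2 (q : ℕ → Bool) (M : ℕ) : Kc (pre q) 0 (M + 1) = Kc q 0 M := by
  classical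
  unfold Kc
  rw [← Finset.card_image_of_injective (Finset.filter _ (Finset.Ico 0 M)) (fun a b (h : a + 1 = b + 1) => by omega :
    Function.Injective (fun i : ℕ => i + 1))]
  congr 1
  ext i
  simp only [Finset.mem_filter, Finset.mem_Ico, Finset.mem_image]
  constructor
  · rintro ⟨⟨h1, h2⟩, h3⟩
    unfold pre at h3
    split_ifs at h3 with h4
    exact ⟨i - 1, ⟨⟨by omega, by omega⟩, h3⟩, by omega⟩
  · rintro ⟨k, ⟨⟨h1, h2⟩, h3⟩, rfl⟩
    refine ⟨⟨by omega, by omega⟩, ?_⟩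
    unfold pre
    rw [if_neg (by omega)]
    simpa using h3

/-- a point with positive probability has good labels -/
lemma FLQ_Ps (κ : SL(2, ℝ) → ℝ) (N0 M : ℕ) (S : Finset (Fin M → Bool)) (g : SL(2, ℝ)) (h : Ps κ N0 M S g ≠ 0) :
    ∃ p ∈ S, ∀ i < M, ex p i = true → κ (g * aM (i * Real.log N0)) ≠ 0 := by
  unfold Ps at h
  obtain ⟨p, hp, hp0⟩ := Finset.exists_ne_zero_of_sum_ne_zero h
  refine ⟨p, hp, fun i hi hpi => ?_⟩
  obtain ⟨hi', hpi'⟩ := FLQ_ex p i hpi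
  have h1 := Finset.prod_ne_zero_iff.1 hp0 ⟨i, hi'⟩ (Finset.mem_univ _)
  rw [if_pos hpi'] at h1
  exact h1

/-- the cell of a good point -/
lemma FLQ_cell (W : Set SL(2, ℝ)) (N0 M : ℕ) (hN : 1 ≤ N0) (p : Fin M → Bool) (g : SL(2, ℝ)) (v : ℝ) (hv : v ∈ Icc (0 : ℝ) 1)
    (h : ∀ i < M, ex p i = true → g * lM v * aM (i * Real.log N0) ∈ W) :
    v / 4 ∈ cel (N0 ^ (M + 1)) (YC W N0 (M + 1) (ex p) g) := by
  classical
  have hNR : (1 : ℝ) ≤ N0 := by exact_mod_cast hN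
  have hN0 : (0 : ℝ) < (N0 : ℝ) ^ (M + 1) := by positivity
  have hv0 : 0 ≤ v / 4 * (N0 : ℝ) ^ (M + 1) := by
    have := hv.1
    positivity
  refine ⟨⌊v / 4 * (N0 : ℝ) ^ (M + 1)⌋₊, ?_, ?_, ?_⟩
  · unfold YC
    rw [Finset.mem_filter, Finset.mem_range]
    constructor
    · rw [Nat.floor_lt hv0]
      push_cast
      have h1 : v / 4 < 1 := by have := hv.2; linarith
      nlinarith
    · intro i hi hpi
      obtain ⟨hiM, -⟩ := FLQ_ex p i hpi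
      refine ⟨v / 4, ?_, ?_, ?_⟩
      · have h2 : v / 4 * (N0 : ℝ) ^ (M + 1) = v / 4 * (N0 : ℝ) ^ (i + 1) * ((N0 ^ (M + 1 - 1 - i) : ℕ) : ℝ) := by
          push_cast
          rw [mul_assoc, ← pow_add]
          congr 2
          omega
        have h3 : ⌊v / 4 * (N0 : ℝ) ^ (M + 1)⌋₊ / N0 ^ (M + 1 - 1 - i) = ⌊v / 4 * (N0 : ℝ) ^ (i + 1)⌋₊ := by
          rw [← Nat.floor_div_natCast, h2, mul_div_cancel_right₀]
          have : (0 : ℝ) < ((N0 ^ (M + 1 - 1 - i) : ℕ) : ℝ) := by positivity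
          exact this.ne'
        rw [h3]
        exact Nat.floor_le (by have := hv.1; positivity)
      · have h2 : v / 4 * (N0 : ℝ) ^ (M + 1) = v / 4 * (N0 : ℝ) ^ (i + 1) * ((N0 ^ (M + 1 - 1 - i) : ℕ) : ℝ) := by
          push_cast
          rw [mul_assoc, ← pow_add]
          congr 2
          omega
        have h3 : ⌊v / 4 * (N0 : ℝ) ^ (M + 1)⌋₊ / N0 ^ (M + 1 - 1 - i) = ⌊v / 4 * (N0 : ℝ) ^ (i + 1)⌋₊ := by
          rw [← Nat.floor_div_natCast, h2, mul_div_cancel_right₀]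
          have : (0 : ℝ) < ((N0 ^ (M + 1 - 1 - i) : ℕ) : ℝ) := by positivity
          exact this.ne'
        rw [h3]
        exact Nat.lt_floor_add_one _
      · rw [show 4 * (v / 4) = v by ring]
        exact h i hiM hpi
  · rw [div_le_iff₀ (by exact_mod_cast hN0)]
    push_cast
    exact Nat.floor_le hv0
  · rw [lt_div_iff₀ (by exact_mod_cast hN0)]
    push_cast
    exact Nat.lt_floor_add_one _

/-! ## Constants -/

lemma FLQ_big (a ε C : ℝ) (hε : 0 < ε) (n0 : ℕ) : ∃ n1 : ℕ, ∀ N0 : ℕ, n1 ≤ N0 →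
    n0 ≤ N0 ∧ 1 / a ≤ (N0 : ℝ) ∧ C ≤ (N0 : ℝ) ^ (min ε 1 / 2000) ∧ 4 ≤ (N0 : ℝ) ^ (ε / 2) ∧ (68 : ℝ) ≤ N0 := by
  have he0 : 0 < min ε 1 := lt_min hε one_pos
  have t : Tendsto (fun n : ℕ => (n : ℝ)) atTop atTop := tendsto_natCast_atTop_atTop
  have h1 : ∀ᶠ n : ℕ in atTop, C ≤ (n : ℝ) ^ (min ε 1 / 2000) :=
    ((tendsto_rpow_atTop (by positivity)).comp t).eventually_ge_atTop C
  have h2 : ∀ᶠ n : ℕ in atTop, 4 ≤ (n : ℝ) ^ (ε / 2) :=
    ((tendsto_rpow_atTop (by positivity)).comp t).eventually_ge_atTop 4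
  have h3 : ∀ᶠ n : ℕ in atTop, 1 / a ≤ (n : ℝ) := t.eventually_ge_atTop _
  have h4 : ∀ᶠ n : ℕ in atTop, (68 : ℝ) ≤ n := t.eventually_ge_atTop _
  have h5 : ∀ᶠ n : ℕ in atTop, n0 ≤ n := eventually_ge_atTop n0
  obtain ⟨n1, hn1⟩ := eventually_atTop.1 (h5.and (h3.and (h1.and (h2.and h4))))
  exact ⟨n1, fun N0 h => hn1 N0 h⟩

lemma FLQ_mono (Y : Set ℝ) (J : Finset ℕ) (Q Q' : ℝ) (h : LQ Y J Q) (hQ : Q ≤ Q') : LQ Y J Q' := fun a =>
  (h a).trans (mul_le_mul_of_nonneg_right hQ (by positivity))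

lemma FLQ_fin (N0 M s s' : ℕ) (ε E : ℝ) (h4 : 4 ≤ (N0 : ℝ) ^ (ε / 2)) (h68 : (68 : ℝ) ≤ N0) (hs : s ≤ 2 ^ M) (hs' : s' ≤ 2 ^ M) :
    4 * ((s : ℝ) * (((17 * s' : ℕ) : ℝ) * (N0 : ℝ) ^ E)) ≤ (N0 : ℝ) ^ (E + ε / 2 * M + 1) := by
  have hN : (0 : ℝ) < N0 := by linarith
  have k1 : (s : ℝ) ≤ 2 ^ M := by exact_mod_cast hs
  have k2 : (s' : ℝ) ≤ 2 ^ M := by exact_mod_cast hs'
  have k3 : (4 : ℝ) ^ M ≤ (N0 : ℝ) ^ (ε / 2 * M) := by
    rw [Real.rpow_mul hN.le, Real.rpow_natCast]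
    exact pow_le_pow_left₀ (by norm_num) h4 M
  have hE : 0 < (N0 : ℝ) ^ E := Real.rpow_pos_of_pos hN _
  rw [Real.rpow_add hN, Real.rpow_add hN, Real.rpow_one]
  have k4 : (s : ℝ) * s' ≤ 4 ^ M := by
    calc (s : ℝ) * s' ≤ 2 ^ M * 2 ^ M := mul_le_mul k1 k2 (by positivity) (by positivity)
      _ = 4 ^ M := by rw [← mul_pow]; norm_num
  push_cast
  calc 4 * ((s : ℝ) * ((17 * (s' : ℝ)) * (N0 : ℝ) ^ E)) = 68 * ((s : ℝ) * s') * (N0 : ℝ) ^ E := by ring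
    _ ≤ N0 * (N0 : ℝ) ^ (ε / 2 * M) * (N0 : ℝ) ^ E := by
        refine mul_le_mul_of_nonneg_right ?_ hE.le
        exact mul_le_mul h68 (k4.trans k3) (by positivity) hN.le
    _ = (N0 : ℝ) ^ E * (N0 : ℝ) ^ (ε / 2 * M) * N0 := by ring

/-! ## The theorem -/

theorem FLQ_proof (h1 : LTH_stmt) (h2 : MON_stmt) (h3 : FLA_stmt) (h4 : PSL_stmt) : FLQ_stmt := by
  classical
  clear h4
  intro Γ hΓ a ε ha ha8 hε
  have he0 : 0 < min ε 1 := lt_min hε one_pos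
  have heε : min ε 1 ≤ ε := min_le_left _ _
  have he1 : min ε 1 ≤ 1 := min_le_right _ _
  obtain ⟨C, hC1, hFLA⟩ := h3 a ha ha8
  obtain ⟨n0, hLTH⟩ := h1 Γ hΓ (40 * a) (min ε 1 / 4) (by positivity) (by linarith) (by positivity)
  obtain ⟨n1, hn1⟩ := FLQ_big a ε C hε n0
  refine ⟨n1, ?_⟩
  intro N0 ρ A κ hN hρ0 hρ1 hA hκ M S S' x l0 hM hx0 hx2 hl0 hl0' hcut
  obtain ⟨k0, k1, k2, k3, k4⟩ := hn1 N0 hN
  obtain ⟨A', hA'C, hsub, hfl⟩ := hFLA Γ N0 A k1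
  have hNR : (0 : ℝ) < N0 := by linarith
  have hN1 : 1 ≤ N0 := by
    have : (1 : ℝ) ≤ N0 := by linarith
    exact_mod_cast this
  have hA' : (A'.card : ℝ) ≤ (N0 : ℝ) ^ (ρ + min ε 1 / 2000) := by
    rw [add_comm, Real.rpow_add hNR]
    refine hA'C.trans (mul_le_mul k2 hA (by positivity) (by positivity))
  set W : Set SL(2, ℝ) := FW Γ A' (40 * a) (1 / N0) with hW
  set E : ℝ := (1 / 2 - x + ε / 2 + 500 * ρ) * M + 2 with hE
  have hPQ : ∀ p ∈ S, ∀ q ∈ S', PQ W N0 (M + 1) (ex p) (pre (ex q)) ((N0 : ℝ) ^ E) := by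
    intro p hp q hq h g
    obtain ⟨L, hL1, hL2⟩ := hcut p hp q hq
    have k5 := hLTH N0 (ρ + min ε 1 / 2000) A' W k0 (by positivity) (by linarith) hA' (le_refl _) (ex p) (pre (ex q))
      (M + 1) L (Cut.blk 0 M L hL1) h g
    refine FLQ_mono _ _ _ _ k5 ?_
    refine Real.rpow_le_rpow_of_exponent_le (by exact_mod_cast hN1) ?_
    rw [FLQ_K1, FLQ_K2, hE]
    have hM0 : (0 : ℝ) ≤ M := by positivity
    have k6 : min ε 1 * M ≤ ε * M := mul_le_mul_of_nonneg_right heε hM0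
    push_cast
    nlinarith
  intro l g g' J c hl hl' hJ
  have hY : ∀ p : Fin M → Bool, MeasurableSet (cel (N0 ^ (M + 1)) (YC W N0 (M + 1) (ex p) g')) ∧
      cel (N0 ^ (M + 1)) (YC W N0 (M + 1) (ex p) g') ⊆ Icc 0 1 := fun p => by
    have h := h2.2.2.2.2 (N0 ^ (M + 1)) (YC W N0 (M + 1) (ex p) g') (YC W N0 (M + 1) (ex p) g')
      (Nat.one_le_pow _ _ (by omega)) (fun c hc => by
        unfold YC at hc
        exact Finset.mem_range.1 (Finset.mem_filter.1 hc).1) (le_refl _)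
    exact ⟨h.1, h.2.1⟩
  set s0 : ℕ := N0 ^ (M + 1) / 2 with hs0
  set g2 : SL(2, ℝ) := g * nM (-((s0 : ℝ) / (N0 : ℝ) ^ (M + 1))) with hg2
  set Js : ℕ × (Fin M → Bool) → Finset ℕ := fun i => (JN W N0 (M + 1) (pre (ex i.2)) g2).image fun m => m + i.1 with hJs
  -- the frequencies
  have hfreq : ∀ j ∈ J, 0 ≤ j + ((s0 + 8 : ℕ) : ℤ) ∧ ∃ i ∈ Finset.range 17 ×ˢ S', (j + ((s0 + 8 : ℕ) : ℤ)).toNat ∈ Js i := by
    intro j hj
    obtain ⟨hj1, u, hu, x', τ, o, e, he, hx', hτ, ho, hmem⟩ := hJ j hj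
    obtain ⟨q, hq, hq'⟩ := FLQ_Ps κ N0 M S' _ hmem
    obtain ⟨j', hj', hjj⟩ := hfl M (ex q) g j l l0 hM hl hl' hl0'
      ⟨hj1, u, hu, x', τ, o, e, he, hx', hτ, ho, fun i hi hqi => hκ _ (hq' i hi hqi)⟩
    rw [← hs0, ← hg2] at hj'
    rw [← hs0, abs_le] at hjj
    refine ⟨by omega, ((j + ((s0 + 8 : ℕ) : ℤ) - j').toNat, q), ?_, ?_⟩
    · rw [Finset.mem_product, Finset.mem_range]
      exact ⟨by show (j + ((s0 + 8 : ℕ) : ℤ) - j').toNat < 17; omega, hq⟩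
    · simp only [hJs, Finset.mem_image]
      exact ⟨j', hj', by omega⟩
  have hLp : ∀ p ∈ S, LQ (cel (N0 ^ (M + 1)) (YC W N0 (M + 1) (ex p) g')) (J.image fun j => (j + ((s0 + 8 : ℕ) : ℤ)).toNat)
      ((Finset.range 17 ×ˢ S').card * (N0 : ℝ) ^ E) := by
    intro p hp
    refine FLQ_cup _ Js _ (hY p).2 _ _ (fun i hi => ?_) (fun m hm => ?_)
    · have hi2 := (Finset.mem_product.1 hi).2
      exact h2.2.2.2.1 _ _ i.1 _ (hY p).1 (hY p).2 (hPQ p hp i.2 hi2 g' g2)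
    · obtain ⟨j, hj, rfl⟩ := Finset.mem_image.1 hm
      exact (hfreq j hj).2
  obtain ⟨u1, u2, u3⟩ := FLQ_uni h2 S (fun p => cel (N0 ^ (M + 1)) (YC W N0 (M + 1) (ex p) g')) _ _
    (fun p hp => ⟨(hY p).1, (hY p).2, hLp p hp⟩)
  have hfinal := FLQ_var _ u1 u2 J c (s0 + 8) (fun j hj => (hfreq j hj).1) _ u3
    (Icc (0 : ℝ) 1 ∩ {v | Ps κ N0 M S (g' * lM v) ≠ 0}) (fun v hv => by
      obtain ⟨p, hp, hp'⟩ := FLQ_Ps κ N0 M S _ hv.2
      refine mem_iUnion₂.2 ⟨p, hp, ?_⟩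
      exact FLQ_cell W N0 M hN1 p g' v hv.1 (fun i hi hpi => hsub (hκ _ (hp' i hi hpi))))
  refine hfinal.trans (mul_le_mul_of_nonneg_right ?_ (by positivity))
  have hcS : ∀ T : Finset (Fin M → Bool), T.card ≤ 2 ^ M := fun T => by
    have h := Finset.card_le_univ T
    simpa using h
  have h5 := FLQ_fin N0 M S.card S'.card ε E k3 k4 (hcS S) (hcS S')
  rw [Finset.card_product, Finset.card_range]
  refine h5.trans (le_of_eq ?_)
  congr 1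
  rw [hE]
  ring

end

end Pool.Agent.T1
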