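import Pool.Agent.helper65.T1.SpecN

set_option autoImplicit false

/-! Row NLP of project T1 (MP_07c750_an). -/

open MeasureTheory

namespace Pool.Agent.T1

noncomputable section

theorem NLP_norm (x : ℝ) : ‖Nex x‖ = 1 := by
  unfold Nex
  exact Complex.norm_exp_ofReal_mul_I _

theorem NLP_lip (x y : ℝ) : ‖Nex x - Nex y‖ ≤ 2 * Real.pi * |x - y| := by
  have h1 : Nex x - Nex y = Nex y * (Complex.exp (Complex.I * ((2 * Real.pi * (x - y) : ℝ) : ℂ)) - 1) := by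
    unfold Nex
    rw [mul_sub, ← Complex.exp_add, mul_one]
    congr 2
    push_cast
    ring
  rw [h1, norm_mul, NLP_norm, one_mul]
  refine (Real.norm_exp_I_mul_ofReal_sub_one_le).trans ?_
  rw [Real.norm_eq_abs, abs_mul, abs_of_pos (by positivity : (0 : ℝ) < 2 * Real.pi)]

theorem NLP_u {N : ℕ} {k : ℤ} (hN : 1 ≤ N) (hk : |k| ≤ 2 * N) : |(k : ℝ) / N| ≤ 2 := by
  have hN0 : (0 : ℝ) < N := by exact_mod_cast hN
  rw [abs_div, abs_of_pos hN0, div_le_iff₀ hN0]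
  have h1 : ((|k| : ℤ) : ℝ) ≤ ((2 * N : ℤ) : ℝ) := by exact_mod_cast hk
  rw [Int.cast_abs] at h1
  push_cast at h1
  exact h1

theorem NLP_Xu {u X : ℝ} (hu : |u| ≤ 2) (hX : |X| ≤ 1 / 4) : |X * u| ≤ 1 / 2 := by
  rw [abs_mul]
  nlinarith [abs_nonneg X, abs_nonneg u]

theorem NLP_s {u X : ℝ} (hu : |u| ≤ 2) (hX : |X| ≤ 1 / 4) : |u / (1 - X * u)| ≤ 4 := by
  obtain ⟨h1, h2⟩ := abs_le.1 (NLP_Xu hu hX)
  have h3 : 0 < 1 - X * u := by linarith
  rw [abs_div, abs_of_pos h3, div_le_iff₀ h3]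
  linarith

theorem NLP_ds {u X X' : ℝ} (hu : |u| ≤ 2) (hX : |X| ≤ 1 / 4) (hX' : |X'| ≤ 1 / 4) :
    |u / (1 - X * u) - u / (1 - X' * u)| ≤ 16 * |X - X'| := by
  obtain ⟨h1, h2⟩ := abs_le.1 (NLP_Xu hu hX)
  obtain ⟨h1', h2'⟩ := abs_le.1 (NLP_Xu hu hX')
  have h3 : 1 / 2 ≤ 1 - X * u := by linarith
  have h3' : 1 / 2 ≤ 1 - X' * u := by linarith
  have h4 : 0 < (1 - X * u) * (1 - X' * u) := by positivity
  have h5 : u / (1 - X * u) - u / (1 - X' * u) = u ^ 2 * (X - X') / ((1 - X * u) * (1 - X' * u)) := by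
    have h6 : 1 - X * u ≠ 0 := by linarith
    have h6' : 1 - X' * u ≠ 0 := by linarith
    rw [div_sub_div _ _ h6 h6']
    congr 1
    ring
  rw [h5, abs_div, abs_of_pos h4, div_le_iff₀ h4, abs_mul, abs_of_nonneg (sq_nonneg u)]
  have h7 : u ^ 2 ≤ 4 := by
    rw [← sq_abs]
    nlinarith [abs_nonneg u]
  have h8 : 1 / 4 ≤ (1 - X * u) * (1 - X' * u) := by nlinarith
  have h9 := abs_nonneg (X - X')
  nlinarith [mul_le_mul_of_nonneg_right h7 h9, mul_le_mul_of_nonneg_left h8 h9]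

theorem NLP_alg {u a b ξ : ℝ} (ha : a ≠ 0) (hb : b ≠ 0) (h : b = a - ξ * u) :
    u / b - (u / a + ξ * (u / a) ^ 2) = ξ ^ 2 * ((u / a) ^ 3 * (a / b)) := by
  have h1 : u / b = (u / a) * (a / b) := by field_simp
  have h2 : a / b = 1 + ξ * (u / a) * (a / b) := by
    have h3 : ξ * (u / a) * (a / b) = ξ * u / b := by field_simp
    have h4 : (1 : ℝ) = b / b := (div_self hb).symm
    rw [h3, h4, ← add_div]
    congr 1
    linarith
  rw [h1]
  generalize u / a = s at *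
  generalize a / b = r at *
  linear_combination (s + ξ * s ^ 2) * h2

theorem NLP_tay {u X X' : ℝ} (hu : |u| ≤ 2) (hX : |X| ≤ 1 / 4) (hX' : |X'| ≤ 1 / 4) :
    |u / (1 - X' * u) - (u / (1 - X * u) + (X' - X) * (u / (1 - X * u)) ^ 2)| ≤ 192 * (X' - X) ^ 2 := by
  obtain ⟨h1, h2⟩ := abs_le.1 (NLP_Xu hu hX)
  obtain ⟨h1', h2'⟩ := abs_le.1 (NLP_Xu hu hX')
  have h3 : 1 - X * u ≠ 0 := by linarith
  have h3' : 1 - X' * u ≠ 0 := by linarith
  have h4 : u / (1 - X' * u) - (u / (1 - X * u) + (X' - X) * (u / (1 - X * u)) ^ 2) =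
      (X' - X) ^ 2 * ((u / (1 - X * u)) ^ 3 * ((1 - X * u) / (1 - X' * u))) :=
    NLP_alg h3 h3' (by ring)
  have h5 : |(1 - X * u) / (1 - X' * u)| ≤ 3 := by
    rw [abs_div, abs_of_pos (by linarith : 0 < 1 - X * u), abs_of_pos (by linarith : 0 < 1 - X' * u),
      div_le_iff₀ (by linarith)]
    linarith
  have h6 : |(u / (1 - X * u)) ^ 3| ≤ 64 := by
    rw [abs_pow]
    have h7 := NLP_s hu hX
    have h8 := pow_le_pow_left₀ (abs_nonneg _) h7 3
    norm_num at h8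
    exact h8
  rw [h4, abs_mul, abs_of_nonneg (sq_nonneg _), abs_mul]
  have h7 : |(u / (1 - X * u)) ^ 3| * |(1 - X * u) / (1 - X' * u)| ≤ 64 * 3 :=
    mul_le_mul h6 h5 (abs_nonneg _) (by norm_num)
  nlinarith [mul_le_mul_of_nonneg_left h7 (sq_nonneg (X' - X))]

theorem NLP_proof : NLP_stmt := by
  intro N U X X' hN hU hX hX'
  refine ⟨fun t t' => ?_, fun t => ?_, fun t => ?_⟩
  · unfold NE
    rw [← Finset.sum_sub_distrib]
    refine (norm_sum_le _ _).trans ?_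
    rw [← nsmul_eq_mul]
    refine Finset.sum_le_card_nsmul _ _ _ fun k hk => ?_
    refine (NLP_lip _ _).trans ?_
    have hu := NLP_u hN (hU k hk)
    refine mul_le_mul_of_nonneg_left ?_ (by positivity)
    unfold Nsx
    have h1 : t * ((k : ℝ) / N / (1 - X * ((k : ℝ) / N))) - t' * ((k : ℝ) / N / (1 - X' * ((k : ℝ) / N))) =
        (t - t') * ((k : ℝ) / N / (1 - X' * ((k : ℝ) / N))) +
          t * ((k : ℝ) / N / (1 - X * ((k : ℝ) / N)) - (k : ℝ) / N / (1 - X' * ((k : ℝ) / N))) := by ring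
    rw [h1]
    refine (abs_add_le _ _).trans ?_
    rw [abs_mul, abs_mul]
    have h2 := mul_le_mul_of_nonneg_left (NLP_s hu hX') (abs_nonneg (t - t'))
    have h3 := mul_le_mul_of_nonneg_left (NLP_ds hu hX hX') (abs_nonneg t)
    linarith
  · unfold NE NS
    rw [← Finset.sum_sub_distrib]
    refine (norm_sum_le _ _).trans ?_
    have h0 : (1207 : ℝ) * U.card * |t| * (X' - X) ^ 2 = U.card • (1207 * |t| * (X' - X) ^ 2) := by
      rw [nsmul_eq_mul]
      ring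
    rw [h0]
    refine Finset.sum_le_card_nsmul _ _ _ fun k hk => ?_
    refine (NLP_lip _ _).trans ?_
    have hu := NLP_u hN (hU k hk)
    unfold Nsx
    have h1 : t * ((k : ℝ) / N / (1 - X' * ((k : ℝ) / N))) - (t * ((k : ℝ) / N / (1 - X * ((k : ℝ) / N))) +
        t * (X' - X) * ((k : ℝ) / N / (1 - X * ((k : ℝ) / N))) ^ 2) =
        t * ((k : ℝ) / N / (1 - X' * ((k : ℝ) / N)) - ((k : ℝ) / N / (1 - X * ((k : ℝ) / N)) +
          (X' - X) * ((k : ℝ) / N / (1 - X * ((k : ℝ) / N))) ^ 2)) := by ring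
    rw [h1, abs_mul]
    have h2 := mul_le_mul_of_nonneg_left (NLP_tay hu hX hX') (abs_nonneg t)
    have h3 : 0 ≤ |t| * (X' - X) ^ 2 := by positivity
    have h4 : Real.pi < 3.1416 := Real.pi_lt_d4
    have h5 : 2 * Real.pi * 192 ≤ 1207 := by linarith
    calc 2 * Real.pi * (|t| * |(k : ℝ) / N / (1 - X' * ((k : ℝ) / N)) - ((k : ℝ) / N / (1 - X * ((k : ℝ) / N)) +
          (X' - X) * ((k : ℝ) / N / (1 - X * ((k : ℝ) / N))) ^ 2)|) ≤ 2 * Real.pi * (|t| * (192 * (X' - X) ^ 2)) :=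
          mul_le_mul_of_nonneg_left h2 (by positivity)
      _ = (2 * Real.pi * 192) * (|t| * (X' - X) ^ 2) := by ring
      _ ≤ 1207 * (|t| * (X' - X) ^ 2) := mul_le_mul_of_nonneg_right h5 h3
      _ = 1207 * |t| * (X' - X) ^ 2 := by ring
  · have h1 : NE N U (-t) X = (starRingEnd ℂ) (NE N U t X) := by
      unfold NE
      rw [map_sum]
      refine Finset.sum_congr rfl fun k _ => ?_
      unfold Nex
      rw [← Complex.exp_conj, map_mul, Complex.conj_I, Complex.conj_ofReal]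
      congr 1
      push_cast
      ring
    rw [h1, Complex.norm_conj]

end

end Pool.Agent.T1
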