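import Pool.Agent.helper51.T1.Gap

/-!
# MP_c8d30a, T1, II.7: reversed core, at least four coloured letters, no contact
-/

set_option autoImplicit false

namespace Pool.Agent.helper51.T1

set_option linter.unusedSectionVars false

open NTH NA Equiv Equiv.Perm List Pool.Agent.helper32.ATT

variable {Ω : Type} [DecidableEq Ω] {p : Ω → Ω} {f : Ω} {s : NTH.St Ω}

/-- different letters. -/
def Ne2 (p : Ω → Ω) (x y : Ω) : Prop := y ≠ x ∧ y ≠ p x

theorem Ne2.symm (hw : WF p s) {x y : Ω} (h : Ne2 p x y) : Ne2 p y x :=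
  ⟨fun e => h.1 e.symm, fun e => h.2 (by rw [e, hw.inv])⟩

/-- the coupled start position. -/
def cpl (p : Ω → Ω) (s : NTH.St Ω) (a : Ω × Bool) : Ω × Bool :=
  bif a.2 then (p (NA.sc s a.1), false) else (NA.pd s (p a.1), true)

theorem cpl_cpl (hw : WF p s) (a : Ω × Bool) : cpl p s (cpl p s a) = a := by
  obtain ⟨t, k⟩ := a
  cases k
  · simp [cpl, hw.inv]
  · simp [cpl, hw.inv]

theorem NC.wall' (hw : WF p s) (hnc : NC p f s) {x : Ω} (hx : Cd p s x) {a b : Ω × Bool} {n : ℕ} (h1 : Stt p s x a)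
    (h2 : SS p f s n a b) (h3 : DD p s b) (h4 : own s b ≠ x) (h5 : own s b ≠ p x) :
    Stt p s x (cpl p s a) ∧ ∃ k w, SS p f s k (cpl p s a) w ∧ Wl p f w := by
  obtain ⟨a', k, w, k1, k2, k3, k4⟩ := hnc.wall hw hx h1 h2 h3 h4 h5
  have e : a' = cpl p s a := by
    rcases k4 with ⟨rfl, rfl⟩ | ⟨rfl, rfl⟩ | ⟨rfl, rfl⟩ | ⟨rfl, rfl⟩ <;> simp [cpl, hw.inv]
  subst e
  exact ⟨k1, k, w, k2, k3⟩

/-- a cross letter sees the wall only once. -/
theorem NC.wall_one (hw : WF p s) (hnc : NC p f s) {x : Ω} (hx : Cd p s x) (hN : ¬ NoX p f s x) {a b u v : Ω × Bool}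
    {n k : ℕ} (h1 : Stt p s x a) (h2 : SS p f s n a u) (h3 : Wl p f u) (h1' : Stt p s x b) (h2' : SS p f s k b v)
    (h3' : Wl p f v) : a = b := by
  obtain ⟨_, y, hy, n1, n2, _, c, l, w, c1, c2, c3⟩ := hnc.cross hw hx hN
  have hmm := NA.mu_mu hw.inv s
  have key : ∀ {a u : Ω × Bool} {n : ℕ}, Stt p s x a → SS p f s n a u → u ≠ w := by
    intro a u n h1 h2 e
    subst e
    have e := Sees.wall_uniq hw.inv hmm (h1.df hw hx) (c1.df hw hy) h2 c2
    subst e
    rcases h1.uniq hw c1 with h | h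
    · exact n1 h
    · exact n2 h
  have e1 := key h1 h2
  have e2 := key h1' h2'
  have e3 : u = v := by
    obtain ⟨u1, u2⟩ := u
    obtain ⟨v1, v2⟩ := v
    obtain ⟨w1, w2⟩ := w
    obtain ⟨rfl, a3⟩ := h3
    obtain ⟨rfl, b3⟩ := h3'
    obtain ⟨rfl, c3⟩ := c3
    simp only at a3 b3 c3
    rcases a3 with rfl | rfl <;> rcases b3 with rfl | rfl <;> rcases c3 with rfl | rfl <;> simp_all
  subst e3
  exact Sees.wall_uniq hw.inv hmm (h1.df hw hx) (h1'.df hw hx) h2 h2'

/-- a cross letter has only one cross ray. -/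
theorem NC.cross_one (hw : WF p s) (hnc : NC p f s) {x : Ω} (hx : Cd p s x) {a b u v : Ω × Bool}
    {n k : ℕ} (h1 : Stt p s x a) (h2 : SS p f s n a u) (h3 : DD p s u) (h4 : own s u ≠ x) (h5 : own s u ≠ p x)
    (h1' : Stt p s x b) (h2' : SS p f s k b v) (h3' : DD p s v) (h4' : own s v ≠ x) (h5' : own s v ≠ p x) : a = b := by
  have hN : ¬ NoX p f s x := fun hN => by
    rcases hN a h1 n u h2 h3 with h | h
    · exact h4 h
    · exact h5 h
  obtain ⟨q1, _, _, q2, q3⟩ := hnc.wall' hw hx h1 h2 h3 h4 h5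
  obtain ⟨r1, _, _, r2, r3⟩ := hnc.wall' hw hx h1' h2' h3' h4' h5'
  have := hnc.wall_one hw hx hN q1 q2 q3 r1 r2 r3
  rw [← cpl_cpl hw a, this, cpl_cpl hw b]

/-- an isolated leg at a bigon. -/
def G1 (p : Ω → Ω) (f : Ω) (s : NTH.St Ω) : Prop :=
  ∃ g t w, Mx p s g ∧ g ≠ f ∧ g ≠ p f ∧ Gap p s g [t] w ∧ Gap p s (p g) [] (p w)

/-- both legs at one bigon. -/
def G2 (p : Ω → Ω) (f : Ω) (s : NTH.St Ω) : Prop :=
  ∃ g t w, Mx p s g ∧ g ≠ f ∧ g ≠ p f ∧ Gap p s g [t, p t] w ∧ Gap p s (p g) [] (p w)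

/-- the exceptional state. -/
def G3 (p : Ω → Ω) (f : Ω) (s : NTH.St Ω) : Prop :=
  ∃ t y w, Gap p s (p f) [t, p t] w ∧ Gap p s f [y, p y] (p w)

theorem Gap.side (hw : WF p s) {g w : Ω} {l : List Ω} (h : Gap p s g l w) : ∀ t ∈ l, t ∈ s.1 ↔ g ∈ s.1 := by
  cases h with
  | E _ _ => intro t ht; simp at ht
  | S _ h0 h1 _ =>
    intro t ht
    rw [List.mem_singleton] at ht
    subst ht
    rw [← h1, NA.sc_mem_A hw.nd]
  | @D a w _ h0 h1 h2 _ =>
    intro t ht
    rcases List.mem_cons.1 ht with rfl | ht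
    · rw [← h1, NA.sc_mem_A hw.nd]
    · rw [List.mem_singleton] at ht
      subst ht
      rw [← h2, NA.sc_mem_A hw.nd, ← h1, NA.sc_mem_A hw.nd]

theorem Mx.side (hw : WF p s) {g : Ω} (h : Mx p s g) : p g ∈ s.1 ↔ ¬ g ∈ s.1 := by
  rcases h with h | h
  · exact ⟨fun h' => absurd h.2 (fun h'' => dj hw h' h''), fun h' => absurd h.1 h'⟩
  · exact ⟨fun _ h' => dj hw h' h.1, fun _ => h.2⟩

/-- the ground of a leg. -/
theorem exists_gr (hw : WF p s) (hadj : ¬ Adj p s) (hmx : ∃ m, Mx p s m ∧ ∀ t, Cd p s t → NA.sc s t = p t →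
    NA.sc s (p t) = t → False) {k : Ω} (hk : Cd p s k) : ∃ g, Mx p s g ∧ (NA.sc s g = k ∨ NA.sc s g = p k) := by
  obtain ⟨m, _, hm⟩ := hmx
  rcases Cd_or hw (Tk_pd hw hk.tk) with h1 | h1
  · have h2 : NA.sc s (NA.pd s k) = p (NA.pd s k) := by
      by_contra hne
      exact hadj ⟨_, h1, by rw [NA.sc_pd]; exact hk, hne⟩
    rw [NA.sc_pd] at h2
    have h3 : NA.pd s k = p k := by rw [h2, hw.inv, ← h2]
    rcases Cd_or hw (Tk_pd hw (hk.part hw).tk) with h4 | h4
    · exfalso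
      have h5 : NA.sc s (NA.pd s (p k)) = p (NA.pd s (p k)) := by
        by_contra hne
        exact hadj ⟨_, h4, by rw [NA.sc_pd]; exact hk.part hw, hne⟩
      rw [NA.sc_pd] at h5
      have h6 : NA.pd s (p k) = k := by
        have := congrArg p h5
        rw [hw.inv, hw.inv] at this
        exact this.symm
      refine hm k hk ?_ ?_
      · have := congrArg (NA.sc s) h6
        rw [NA.sc_pd] at this
        exact this.symm
      · have := congrArg (NA.sc s) h3
        rw [NA.sc_pd] at this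
        exact this.symm
    · exact ⟨_, h4, Or.inr (NA.sc_pd _ _)⟩
  · exact ⟨_, h1, Or.inl (NA.sc_pd _ _)⟩

/-- a word with a mixed token is not a circle of two coloured tokens. -/
theorem no_two (hg : GP p f s) {t : Ω} (ht : Cd p s t) (h1 : NA.sc s t = p t) (h2 : NA.sc s (p t) = t) : False := by
  have hw := hg.wf
  have hf2 : f ∈ s.2 := List.mem_of_getLast? hg.last
  have hgr : ∀ (W : List Ω) (g : Ω), (∀ x ∈ W, formPerm W x = NA.sc s x) → g ∈ W → p g ∉ W →
      (∀ x, x ∈ W → p x ∈ W ∨ True) → ∀ q, Gr p W g q → q ≠ t ∧ q ≠ p t ∨ ¬ (t ∈ W ∧ p t ∈ W) := by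
    intro W g hW hgW hgn _ q hq
    by_cases htW : t ∈ W ∧ p t ∈ W
    · left
      induction hq with
      | base =>
        refine ⟨?_, ?_⟩
        · rintro rfl; exact hgn htW.2
        · rintro rfl; rw [hw.inv] at hgn; exact hgn htW.1
      | step q h _ ih =>
        have hqW := h.mem hgW
        rw [hW q hqW]
        refine ⟨fun e => ih.2 ?_, fun e => ih.1 ?_⟩
        · have := congrArg (NA.pd s) e
          rw [NA.pd_sc, NA.pd_of_sc h2] at this
          exact this
        · have := congrArg (NA.pd s) e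
          rw [NA.pd_sc, NA.pd_of_sc h1] at this
          exact this
    · exact Or.inr htW
  rcases ht with ht | ht
  · obtain ⟨g, hg1, hg2, hg3⟩ := exists_ground (p := p) (W := s.1) (List.nodup_append.1 hw.nd).1 ht.1
      ⟨p f, hg.fA, fun h => dj hw (by rw [hw.inv] at h; exact h) hf2⟩
    rcases hgr s.1 g (fun x hx => (NA.sc_A hw.nd hx).symm) hg1 hg2 (fun _ _ => Or.inr trivial) t hg3 with h | h
    · exact h.1 rfl
    · exact h ht
  · obtain ⟨g, hg1, hg2, hg3⟩ := exists_ground (p := p) (W := s.2) (List.nodup_append.1 hw.nd).2.1 ht.1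
      ⟨f, hf2, fun h => dj hw hg.fA h⟩
    rcases hgr s.2 g (fun x hx => (NA.sc_B hw.nd hx).symm) hg1 hg2 (fun _ _ => Or.inr trivial) t hg3 with h | h
    · exact h.1 rfl
    · exact h ht

theorem gr_of (hg : GP p f s) (hadj : ¬ Adj p s) {k : Ω} (hk : Cd p s k) :
    ∃ g, Mx p s g ∧ (NA.sc s g = k ∨ NA.sc s g = p k) :=
  exists_gr hg.wf hadj ⟨p f, Or.inl ⟨hg.fA, by rw [hg.wf.inv]; exact List.mem_of_getLast? hg.last⟩,
    fun t ht h1 h2 => no_two hg ht h1 h2⟩ hk

theorem gr_eq (hw : WF p s) {k g : Ω} (hk : Cd p s k) (h : NA.sc s g = k ∨ NA.sc s g = p k) : EQ p s k g := by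
  rcases h with h | h
  · have := EQ_pd hk
    rwa [NA.pd_of_sc h] at this
  · have := EQ_pd (hk.part hw)
    rw [NA.pd_of_sc h] at this
    exact (EQ_p _).trans' this

/-- **a letter without cross rays.** -/
theorem nox_case (hg : GP p f s) (hadj : ¬ Adj p s) {k : Ω} (hk : Cd p s k) (hN : NoX p f s k) :
    G1 p f s ∨ G2 p f s ∨ EQ p s k f ∨ ∃ c, NA.MA p s c ∧ rhoc p s c ≠ c ∧ EQ p s k c := by
  have hw := hg.wf
  obtain ⟨g, hmg, hgk⟩ := gr_of hg hadj hk
  have hkg := gr_eq hw hk hgk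
  by_cases hfx : Fx p s g
  · by_cases hgf : g = f ∨ g = p f
    · right; right; left
      rcases hgf with rfl | rfl
      · exact hkg
      · exact hkg.trans' (EQ_p _).symm'
    · obtain ⟨l, w, hl⟩ := gap_exists hw hadj hmg
      obtain ⟨l', w', hl'⟩ := gap_exists hw hadj (hmg.part hw)
      have e := hfx.gap hw hmg hl hl'
      subst e
      have hl'0 : l' = [] := by
        by_contra hne
        obtain ⟨y, hy⟩ := List.exists_mem_of_ne_nil l' hne
        obtain ⟨y1, y2⟩ := hl'.eq hw y hy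
        have h3 : EQ p s k y := (hkg.trans' (EQ_p _)).trans' y2.symm'
        have h4 := hN.eq hw hk h3 y1
        have h5 := hl'.side hw y hy
        have h6 := hmg.side hw
        have h7 : y ∈ s.1 ↔ k ∈ s.1 := by
          rcases h4 with rfl | rfl
          · exact Iff.rfl
          · exact ((Cd_iff hw hk.tk).1 hk).symm
        have h8 : k ∈ s.1 ↔ g ∈ s.1 := by
          rcases hgk with h | h
          · rw [← h, NA.sc_mem_A hw.nd]
          · rw [(Cd_iff hw hk.tk).1 hk, ← h, NA.sc_mem_A hw.nd]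
        tauto
      subst hl'0
      push Not at hgf
      cases hl with
      | E hm h1 =>
        exfalso
        have h2 : Cd p s (NA.sc s g) := by
          rcases hgk with h | h <;> rw [h]
          · exact hk
          · exact hk.part hw
        rw [h1] at h2
        exact hm.ncd hw h2
      | S hm h0 h1 h2 => exact Or.inl ⟨g, _, _, hmg, hgf.1, hgf.2, .S hm h0 h1 h2, hl'⟩
      | D hm h0 h1 h2 h3 => exact Or.inr (Or.inl ⟨g, _, _, hmg, hgf.1, hgf.2, .D hm h0 h1 h2 h3, hl'⟩)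
  · right; right; right
    unfold Fx at hfx
    push Not at hfx
    obtain ⟨c, c1, c2, c3⟩ := hfx
    refine ⟨c, c1, c3, ?_⟩
    rcases c2 with rfl | rfl
    · exact hkg
    · exact hkg.trans' (EQ_p _)

/-! ### cross letters -/

theorem NoX_part (hw : WF p s) {x : Ω} : NoX p f s (p x) ↔ NoX p f s x := by
  have key : ∀ {x : Ω}, NoX p f s x → NoX p f s (p x) := by
    intro x h a ha n b h1 h2
    have ha' : Stt p s x a := by
      rcases ha with rfl | rfl | rfl | rfl
      · exact Or.inr (Or.inl rfl)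
      · rw [hw.inv]; exact Or.inl rfl
      · exact Or.inr (Or.inr (Or.inr rfl))
      · rw [hw.inv]; exact Or.inr (Or.inr (Or.inl rfl))
    rw [hw.inv]
    exact (h a ha' n b h1 h2).symm
  refine ⟨fun h => ?_, key⟩
  have := key h
  rwa [hw.inv] at this

/-- a ray over one mu-edge. -/
theorem sees_mu (hw : WF p s) {z y : Ω} (hz : Tk s z) (hy : NA.mu p s z = y) (hs : z ∈ s.1 ↔ ¬ y ∈ s.1)
    (hyc : Cd p s y) : SS p f s 1 (z, false) (y, true) ∧ DD p s (y, true) := by
  have h1 : DD p s (y, true) := Cd_DD hw hyc true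
  refine ⟨⟨?_, Or.inl h1⟩, h1⟩
  have e : nx p (NA.mu p s) (z, false) = (y, true) := by
    show (NA.mu p s z, true) = _
    rw [hy]
  rw [← e]
  refine .step ?_ (fun h => Bool.noConfusion h.1) (.refl _)
  intro h
  have h' : z ∈ s.1 ↔ NA.mu p s z ∈ s.1 := h
  rw [hy] at h'
  tauto

/-- a ray over one p-edge. -/
theorem sees_p (hw : WF p s) {g : Ω} (hg : Mx p s g) (h1 : g ≠ f) (h2 : g ≠ p f) (hc : Cd p s (NA.sc s (p g))) :
    SS p f s 1 (g, true) (p g, false) ∧ DD p s (p g, false) := by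
  have h3 : DD p s (p g, false) := (own_Cd hw (hg.part hw).tk).2 hc
  refine ⟨⟨?_, Or.inl h3⟩, h3⟩
  have e : nx p (NA.mu p s) (g, true) = (p g, false) := rfl
  rw [← e]
  refine .step ?_ ?_ (.refl _)
  · intro h
    have h' : g ∈ s.1 ↔ p g ∈ s.1 := h
    have := hg.side hw
    tauto
  · rintro ⟨_, h | h⟩
    · exact h1 h
    · exact h2 h

theorem oside (hw : WF p s) {x y g : Ω} (hx : Cd p s x) (hg : Mx p s g) (h1 : x ∈ s.1 ↔ g ∈ s.1)
    (h2 : y ∈ s.1 ↔ p g ∈ s.1) : y ≠ x ∧ y ≠ p x := by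
  have h3 := hg.side hw
  have h4 := (Cd_iff hw hx.tk).1 hx
  refine ⟨?_, ?_⟩
  · rintro rfl
    tauto
  · rintro rfl
    tauto

/-- a cross letter does not face coloured tokens on both sides of a bigon. -/
theorem no_face (hw : WF p s) (hnc : NC p f s) {x z g w : Ω} (hx : Cd p s x) (hz : z = x ∨ z = p x)
    (hg : Mx p s g) (h1 : g ≠ f) (h2 : g ≠ p f) (hgx : NA.sc s g = x) (hzw : NA.sc s z = w)
    (h3 : Cd p s (NA.sc s (p g))) (h4 : Cd p s (NA.pd s (p w))) (h5 : NA.pd s (p w) ∈ s.1 ↔ p g ∈ s.1) : False := by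
  have hxg : x ∈ s.1 ↔ g ∈ s.1 := by rw [← hgx, NA.sc_mem_A hw.nd]
  have hzc : Cd p s z := by
    rcases hz with rfl | rfl
    · exact hx
    · exact hx.part hw
  have hzx : z ∈ s.1 ↔ x ∈ s.1 := by
    rcases hz with rfl | rfl
    · exact Iff.rfl
    · exact ((Cd_iff hw hx.tk).1 hx).symm
  have hmu : NA.mu p s z = NA.pd s (p w) := by rw [NA.mu_eq_pd, hzw]
  obtain ⟨a1, a2⟩ := sees_mu (f := f) hw hzc.tk hmu (by rw [hzx, hxg, h5, hg.side hw]; tauto) h4
  obtain ⟨b1, b2⟩ := sees_p hw hg h1 h2 h3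
  obtain ⟨n1, n2⟩ := oside hw hx hg hxg h5
  obtain ⟨m1, m2⟩ := oside (y := NA.sc s (p g)) hw hx hg hxg (by rw [NA.sc_mem_A hw.nd])
  have hs1 : Stt p s x (z, false) := by
    rcases hz with rfl | rfl
    · exact Or.inl rfl
    · exact Or.inr (Or.inl rfl)
  have hs2 : Stt p s x (g, true) := by
    right; right; left
    rw [NA.pd_of_sc hgx]
  have := hnc.cross_one hw hx hs1 a1 a2 n1 n2 hs2 b1 b2 m1 m2
  exact Bool.noConfusion (congrArg Prod.snd this)

/-- the ends of a nonempty gap. -/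
theorem Gap.ends (hw : WF p s) {g w : Ω} {l : List Ω} (h : Gap p s g l w) (hl : l ≠ []) :
    Cd p s (NA.sc s g) ∧ Cd p s (NA.pd s w) ∧ (NA.pd s w ∈ s.1 ↔ g ∈ s.1) := by
  have hs := h.side hw
  cases h with
  | E _ _ => exact absurd rfl hl
  | @S t w _ h0 h1 h2 =>
    rw [h1, NA.pd_of_sc h2]
    exact ⟨h0, h0, hs t (by simp)⟩
  | @D t w _ h0 h1 h2 h3 =>
    rw [h1, NA.pd_of_sc h3]
    exact ⟨h0, h0.part hw, hs (p t) (by simp)⟩

/-- a single leg of a cross letter. -/
theorem handle_S (hg : GP p f s) (hadj : ¬ Adj p s) (hnc : NC p f s) (hFx : ∀ g, Mx p s g → EQ p s g f → Fx p s g)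
    {x g w : Ω} (hgap : Gap p s g [x] w) (hmg : Mx p s g) (hx : Cd p s x) (hxf : EQ p s x f) (h1 : g ≠ f) (h2 : g ≠ p f) :
    G1 p f s := by
  have hw := hg.wf
  have hgf : EQ p s g f := ((hgap.eq hw x (by simp)).2.symm').trans' hxf
  obtain ⟨l', w', hl'⟩ := gap_exists hw hadj (hmg.part hw)
  have e := (hFx g hmg hgf).gap hw hmg hgap hl'
  subst e
  by_cases hne : l' = []
  · subst hne
    exact ⟨g, x, w, hmg, h1, h2, hgap, hl'⟩
  · exfalso
    obtain ⟨e1, e2, e3⟩ := hl'.ends hw hne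
    cases hgap with
    | S _ _ k1 k2 => exact no_face hw hnc hx (Or.inl rfl) hmg h1 h2 k1 k2 e1 e2 e3

/-- both legs of a cross letter at one bigon. -/
theorem handle_D (hg : GP p f s) (hadj : ¬ Adj p s) (hnc : NC p f s) (hFx : ∀ g, Mx p s g → EQ p s g f → Fx p s g)
    {x g w : Ω} (hgap : Gap p s g [x, p x] w) (hmg : Mx p s g) (hx : Cd p s x) (hN : ¬ NoX p f s x) (hxf : EQ p s x f) :
    G2 p f s ∨ G3 p f s := by
  have hw := hg.wf
  have hmm := NA.mu_mu hw.inv s
  have hgf : EQ p s g f := ((hgap.eq hw x (by simp)).2.symm').trans' hxf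
  obtain ⟨l', w', hl'⟩ := gap_exists hw hadj (hmg.part hw)
  have e := (hFx g hmg hgf).gap hw hmg hgap hl'
  subst e
  obtain ⟨k0, k1, k2, k3⟩ : Mx p s w ∧ NA.sc s g = x ∧ NA.sc s x = p x ∧ NA.sc s (p x) = w := by
    cases hgap with
    | D a0 _ a1 a2 a3 => exact ⟨a0, a1, a2, a3⟩
  have hxg : x ∈ s.1 ↔ g ∈ s.1 := by rw [← k1, NA.sc_mem_A hw.nd]
  by_cases h12 : g = f ∨ g = p f
  · right
    have hwall : Wl p f (g, true) := ⟨rfl, h12⟩
    have hwall' : Wl p f (p g, true) := by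
      refine ⟨rfl, ?_⟩
      rcases h12 with rfl | rfl
      · exact Or.inr rfl
      · exact Or.inl (hw.inv _)
    cases hl' with
    | E _ a1 =>
      -- the letter sees the wall twice
      exfalso
      have hmu : NA.mu p s (p x) = p g := by rw [NA.mu_eq_pd, k3, NA.pd_of_sc a1]
      have hnd : ¬ DD p s (p x, false) := by
        intro h
        have h' : p x ∈ s.1 ↔ NA.mu p s (p x) ∈ s.1 := h
        rw [hmu, ← (Cd_iff hw hx.tk).1 hx, hxg] at h'
        have := hmg.side hw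
        tauto
      have hr : SS p f s 1 (p x, false) (p g, true) := by
        refine ⟨?_, Or.inr hwall'⟩
        have e : nx p (NA.mu p s) (p x, false) = (p g, true) := by
          show (NA.mu p s (p x), true) = _
          rw [hmu]
        rw [← e]
        exact .step hnd (fun h => Bool.noConfusion h.1) (.refl _)
      have hr2 : SS p f s 0 (g, true) (g, true) := ⟨.refl _, Or.inr hwall⟩
      have := hnc.wall_one hw hx hN (a := (p x, false)) (b := (g, true)) (Or.inr (Or.inl rfl)) hr hwall'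
        (Or.inr (Or.inr (Or.inl (by rw [NA.pd_of_sc k1])))) hr2 hwall
      exact Bool.noConfusion (congrArg Prod.snd this)
    | @S y _ _ hy a1 a2 =>
      -- the letter of `y` sees the wall twice
      exfalso
      have hyg : y ∈ s.1 ↔ p g ∈ s.1 := by rw [← a1, NA.sc_mem_A hw.nd]
      have hmu : NA.mu p s y = p x := by
        rw [NA.mu_eq_pd, a2, hw.inv, NA.pd_of_sc k3]
      obtain ⟨b1, b2⟩ := sees_mu (f := f) hw hy.tk hmu (by
        rw [hyg, hmg.side hw, ← (Cd_iff hw hx.tk).1 hx, hxg]) (hx.part hw)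
      obtain ⟨n1, n2⟩ := oside (p := p) hw hx hmg hxg hyg
      have c1 : own s (p x, true) ≠ y := fun h => n2 h.symm
      have c2 : own s (p x, true) ≠ p y := by
        intro h
        have h' : p x = p y := h
        apply n1
        rw [← hw.inv y, ← h', hw.inv]
      have hs1 : Stt p s y (y, false) := Or.inl rfl
      have hNy : ¬ NoX p f s y := fun hN' => by
        rcases hN' _ hs1 1 _ b1 b2 with h | h
        · exact c1 h
        · exact c2 h
      obtain ⟨d1, _, _, d2, d3⟩ := hnc.wall' hw hy hs1 b1 b2 c1 c2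
      have hr2 : SS p f s 0 (p g, true) (p g, true) := ⟨.refl _, Or.inr hwall'⟩
      have h3 := hnc.wall_one hw hy hNy (b := (p g, true)) d1 d2 d3
        (Or.inr (Or.inr (Or.inl (by rw [NA.pd_of_sc a1])))) hr2 hwall'
      have h4 : NA.pd s (p y) = p g := congrArg Prod.fst h3
      have h5 : NA.pd s (p y) = NA.pd s y := by rw [h4, NA.pd_of_sc a1]
      exact hw.ne y (NA.pd_inj s h5)
    | @D y _ a0 hy a1 a2 a3 =>
      rcases h12 with rfl | rfl
      · exact ⟨y, x, p w, .D a0 hy a1 a2 a3, by rw [hw.inv]; exact hgap⟩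
      · rw [hw.inv] at a1
        exact ⟨x, y, w, hgap, .D a0 hy a1 a2 a3⟩
  · push Not at h12
    left
    by_cases hne : l' = []
    · subst hne
      exact ⟨g, x, w, hmg, h12.1, h12.2, hgap, hl'⟩
    · exfalso
      obtain ⟨e1, e2, e3⟩ := hl'.ends hw hne
      exact no_face hw hnc hx (Or.inr rfl) hmg h12.1 h12.2 k1 k3 e1 e2 e3

/-- **a cross letter.** -/
theorem cross_case (hg : GP p f s) (hadj : ¬ Adj p s) (hnc : NC p f s) (hFx : ∀ g, Mx p s g → EQ p s g f → Fx p s g)
    {i : Ω} (hi : Cd p s i) (hN : ¬ NoX p f s i) : G1 p f s ∨ G2 p f s ∨ G3 p f s := by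
  have hw := hg.wf
  have hif : EQ p s i f := (hnc.cross hw hi hN).1.eq hw hi
  obtain ⟨g, hmg, hgi⟩ := gr_of hg hadj hi
  have hxi : ∀ x, (x = i ∨ x = p i) → Cd p s x ∧ ¬ NoX p f s x ∧ EQ p s x f := by
    rintro x (rfl | rfl)
    · exact ⟨hi, hN, hif⟩
    · exact ⟨hi.part hw, fun h => hN ((NoX_part hw).1 h), (EQ_p _).symm'.trans' hif⟩
  obtain ⟨l, w, hl⟩ := gap_exists hw hadj hmg
  cases hl with
  | E hm h1 =>
    exfalso
    have h2 := (hxi _ hgi).1
    rw [h1] at h2
    exact hm.ncd hw h2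
  | @S x _ hm h0 h1 h2 =>
    left
    have hx : x = i ∨ x = p i := by rw [← h1]; exact hgi
    obtain ⟨x1, x2, x3⟩ := hxi x hx
    have hx' : p x = i ∨ p x = p i := by
      rcases hx with rfl | rfl
      · exact Or.inr rfl
      · exact Or.inl (hw.inv _)
    obtain ⟨y1, y2, y3⟩ := hxi (p x) hx'
    by_cases hgf : g = f ∨ g = p f
    · -- the other leg
      have hm2 : Mx p s (NA.pd s (p x)) := by
        rcases Cd_or hw (Tk_pd hw y1.tk) with h4 | h4
        · exfalso
          have h5 : NA.sc s (NA.pd s (p x)) = p (NA.pd s (p x)) := by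
            by_contra hne
            exact hadj ⟨_, h4, by rw [NA.sc_pd]; exact y1, hne⟩
          rw [NA.sc_pd] at h5
          have h6 : NA.pd s (p x) = x := by
            have := congrArg p h5
            rw [hw.inv, hw.inv] at this
            exact this.symm
          have h7 : NA.sc s x = p x := by rw [← h6, NA.sc_pd, h6]
          rw [h2] at h7
          rw [h7] at hm
          exact hm.ncd hw y1
        · exact h4
      obtain ⟨l2, w2, hl2⟩ := gap_exists hw hadj hm2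
      have hne : NA.pd s (p x) ≠ g := by
        intro e
        have h5 : NA.sc s g = p x := by rw [← e, NA.sc_pd]
        rw [h1] at h5
        exact hw.ne x h5.symm
      have hsd : NA.pd s (p x) ∈ s.1 ↔ g ∈ s.1 := by
        rw [NA.pd_mem_A hw.nd, ← (Cd_iff hw x1.tk).1 x1, ← h1, NA.sc_mem_A hw.nd]
      have hf2 : ¬ f ∈ s.1 := fun h => dj hw h (List.mem_of_getLast? hg.last)
      have hnf : NA.pd s (p x) ≠ f ∧ NA.pd s (p x) ≠ p f := by
        rcases hgf with rfl | rfl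
        · refine ⟨hne, fun e => ?_⟩
          rw [e] at hsd
          exact hf2 (hsd.1 hg.fA)
        · refine ⟨fun e => ?_, hne⟩
          rw [e] at hsd
          exact hf2 (hsd.2 hg.fA)
      cases hl2 with
      | E a0 a1 =>
        exfalso
        rw [NA.sc_pd] at a1
        rw [← a1] at a0
        exact a0.ncd hw y1
      | S a0 a1 a2 a3 =>
        rw [NA.sc_pd] at a2
        subst a2
        exact handle_S hg hadj hnc hFx (.S a0 a1 (NA.sc_pd _ _) a3) hm2 y1 y3 hnf.1 hnf.2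
      | D a0 a1 a2 a3 a4 =>
        exfalso
        rw [NA.sc_pd] at a2
        subst a2
        rw [hw.inv] at a3
        have h8 : g = p x := by rw [← NA.pd_of_sc h1, NA.pd_of_sc a3]
        rw [h8] at hmg
        exact hmg.ncd hw y1
    · push Not at hgf
      exact handle_S hg hadj hnc hFx (.S hm h0 h1 h2) hmg x1 x3 hgf.1 hgf.2
  | @D x _ hm h0 h1 h2 h3 =>
    right
    have hx : x = i ∨ x = p i := by rw [← h1]; exact hgi
    obtain ⟨x1, x2, x3⟩ := hxi x hx
    exact handle_D hg hadj hnc hFx (.D hm h0 h1 h2 h3) hmg x1 x2 x3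

/-! ### the theorem -/

/-- two different letters without cross rays. -/
theorem NC.sep2 (hw : WF p s) (hnc : NC p f s) {x y z t : Ω} (hx : Cd p s x) (hy : Cd p s y) (hz : Cd p s z) (ht : Cd p s t)
    (hxy : Ne2 p x y) (hxz : Ne2 p x z) (hyz : Ne2 p y z) (hxt : Ne2 p x t) (hyt : Ne2 p y t) (hzt : Ne2 p z t) :
    ∃ a b, Cd p s a ∧ Cd p s b ∧ Ne2 p a b ∧ NoX p f s a ∧ NoX p f s b := by
  rcases hnc.three hw hx hy hz hxy hxz hyz with h | h | h
  · rcases hnc.three hw hy hz ht hyz hyt hzt with h' | h' | h'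
    · exact ⟨x, y, hx, hy, hxy, h, h'⟩
    · exact ⟨x, z, hx, hz, hxz, h, h'⟩
    · exact ⟨x, t, hx, ht, hxt, h, h'⟩
  · rcases hnc.three hw hx hz ht hxz hxt hzt with h' | h' | h'
    · exact ⟨y, x, hy, hx, hxy.symm hw, h, h'⟩
    · exact ⟨y, z, hy, hz, hyz, h, h'⟩
    · exact ⟨y, t, hy, ht, hyt, h, h'⟩
  · rcases hnc.three hw hx hy ht hxy hxt hyt with h' | h' | h'
    · exact ⟨z, x, hz, hx, hxz.symm hw, h, h'⟩
    · exact ⟨z, y, hz, hy, hyz.symm hw, h, h'⟩
    · exact ⟨z, t, hz, ht, hzt, h, h'⟩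

/-- **II.7**: reversed core, at least four coloured letters, no contact. -/
theorem big (hg : GP p f s) (hadj : ¬ Adj p s) (hnc : NC p f s) (hR : NA.RR (NA.cA p s) (NA.cB p s))
    {x y z t : Ω} (hx : Cd p s x) (hy : Cd p s y) (hz : Cd p s z) (ht : Cd p s t)
    (hxy : Ne2 p x y) (hxz : Ne2 p x z) (hyz : Ne2 p y z) (hxt : Ne2 p x t) (hyt : Ne2 p y t) (hzt : Ne2 p z t) :
    G1 p f s ∨ G2 p f s ∨ G3 p f s := by
  have hw := hg.wf
  by_contra hno
  push Not at hno
  obtain ⟨no1, no2, no3⟩ := hno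
  have hnox : ∀ {k}, Cd p s k → NoX p f s k → EQ p s k f ∨ ∃ c, NA.MA p s c ∧ rhoc p s c ≠ c ∧ EQ p s k c := by
    intro k hk hN
    rcases nox_case hg hadj hk hN with h | h | h
    · exact absurd h no1
    · exact absurd h no2
    · exact h
  by_cases hall : ∀ k, Cd p s k → NoX p f s k
  · -- no cross letter
    have sep : ∀ {a b : Ω}, Cd p s a → Cd p s b → Ne2 p a b → ¬ EQ p s a b := by
      intro a b ha hb hab h
      rcases (hall a ha).eq hw ha h hb with h1 | h1
      · exact hab.1 h1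
      · exact hab.2 h1
    have hP : ∀ {a b : Ω}, Cd p s a → Cd p s b → Ne2 p a b → EQ p s a f → EQ p s b f → False :=
      fun ha hb hab h1 h2 => sep ha hb hab (h1.trans' h2.symm')
    have hQ : ∀ {a b c : Ω}, Cd p s a → Cd p s b → Cd p s c → Ne2 p a b → Ne2 p a c → Ne2 p b c →
        (∃ d, NA.MA p s d ∧ rhoc p s d ≠ d ∧ EQ p s a d) → (∃ d, NA.MA p s d ∧ rhoc p s d ≠ d ∧ EQ p s b d) →
        (∃ d, NA.MA p s d ∧ rhoc p s d ≠ d ∧ EQ p s c d) → False := by
      rintro a b c ha hb hc hab hac hbc ⟨d1, _, a2, a3⟩ ⟨d2, _, b2, b3⟩ ⟨d3, _, c2, c3⟩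
      rcases EQ_two hw hR a2 b2 c2 with h | h | h
      · exact sep ha hb hab ((a3.trans' h).trans' b3.symm')
      · exact sep ha hc hac ((a3.trans' h).trans' c3.symm')
      · exact sep hb hc hbc ((b3.trans' h).trans' c3.symm')
    rcases hnox hx (hall x hx) with h1 | h1 <;> rcases hnox hy (hall y hy) with h2 | h2 <;>
      rcases hnox hz (hall z hz) with h3 | h3 <;> rcases hnox ht (hall t ht) with h4 | h4
    all_goals first
      | exact hP hx hy hxy h1 h2
      | exact hP hx hz hxz h1 h3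
      | exact hP hx ht hxt h1 h4
      | exact hP hy hz hyz h2 h3
      | exact hP hy ht hyt h2 h4
      | exact hP hz ht hzt h3 h4
      | exact hQ hx hy hz hxy hxz hyz h1 h2 h3
      | exact hQ hx hy ht hxy hxt hyt h1 h2 h4
      | exact hQ hx hz ht hxz hxt hzt h1 h3 h4
      | exact hQ hy hz ht hyz hyt hzt h2 h3 h4
  · push Not at hall
    obtain ⟨i, hi, hNi⟩ := hall
    have hif : EQ p s i f := (hnc.cross hw hi hNi).1.eq hw hi
    obtain ⟨a, b, ha, hb, hab, hNa, hNb⟩ := hnc.sep2 hw hx hy hz ht hxy hxz hyz hxt hyt hzt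
    have hfar : ∀ {k : Ω}, Cd p s k → NoX p f s k → ¬ EQ p s k f := by
      intro k hk hN h
      have h1 := hN.eq hw hk (h.trans' hif.symm') hi
      rcases h1 with rfl | rfl
      · exact hNi hN
      · exact hNi ((NoX_part hw).2 hN)
    have hab' : ¬ EQ p s a b := fun h => by
      rcases hNa.eq hw ha h hb with h1 | h1
      · exact hab.1 h1
      · exact hab.2 h1
    rcases hnox ha hNa with h | ⟨c1, _, a2, a3⟩
    · exact hfar ha hNa h
    rcases hnox hb hNb with h | ⟨c2, _, b2, b3⟩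
    · exact hfar hb hNb h
    have hFx : ∀ g, Mx p s g → EQ p s g f → Fx p s g := by
      intro g hgm hgf c hc hcg
      by_contra hne
      have hcf : EQ p s c f := by
        rcases hcg with rfl | rfl
        · exact hgf
        · exact (EQ_p _).symm'.trans' hgf
      rcases EQ_two hw hR hne a2 b2 with h | h | h
      · exact hfar ha hNa ((a3.trans' h.symm').trans' hcf)
      · exact hfar hb hNb ((b3.trans' h.symm').trans' hcf)
      · exact hab' ((a3.trans' h).trans' b3.symm')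
    rcases cross_case hg hadj hnc hFx hi hNi with h | h | h
    · exact no1 h
    · exact no2 h
    · exact no3 h

end Pool.Agent.helper51.T1
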