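import Pool.Agent.helper51.T1.Ray
import Pool.Agent.helper51.NF2.Core
import Pool.Agent.helper32.ATT.NA

/-!
# MP_c8d30a, T1, II.5: the equivalence relation `EQ`
-/

set_option autoImplicit false

namespace Pool.Agent.helper51.T1

set_option linter.unusedSectionVars false

open NTH NA Equiv Equiv.Perm List

variable {Ω : Type} [DecidableEq Ω] {p : Ω → Ω} {s : NTH.St Ω}

/-- coloured tokens. -/
def Cd (p : Ω → Ω) (s : NTH.St Ω) (t : Ω) : Prop := NA.Red p s t ∨ NA.Blu p s t

/-- mixed tokens. -/
def Mx (p : Ω → Ω) (s : NTH.St Ω) (t : Ω) : Prop := NA.MA p s t ∨ NA.MB p s t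

/-- the generators of `EQ`. -/
def ES (p : Ω → Ω) (s : NTH.St Ω) (t u : Ω) : Prop := u = p t ∨ u = NA.mu p s t ∨ (Cd p s t ∧ u = NA.pd s t)

/-- the equivalence relation generated by `t ~ p t`, `t ~ mu t` and `t ~ pd t` for coloured `t`. -/
def EQ (p : Ω → Ω) (s : NTH.St Ω) : Ω → Ω → Prop := Relation.EqvGen (ES p s)

theorem EQ_refl (t : Ω) : EQ p s t t := Relation.EqvGen.refl t

theorem EQ.symm' {t u : Ω} (h : EQ p s t u) : EQ p s u t := Relation.EqvGen.symm _ _ h

theorem EQ.trans' {t u v : Ω} (h : EQ p s t u) (h' : EQ p s u v) : EQ p s t v := Relation.EqvGen.trans _ _ _ h h'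

theorem EQ_p (t : Ω) : EQ p s t (p t) := Relation.EqvGen.rel _ _ (Or.inl rfl)

theorem EQ_mu (t : Ω) : EQ p s t (NA.mu p s t) := Relation.EqvGen.rel _ _ (Or.inr (Or.inl rfl))

theorem EQ_pd {t : Ω} (h : Cd p s t) : EQ p s t (NA.pd s t) := Relation.EqvGen.rel _ _ (Or.inr (Or.inr ⟨h, rfl⟩))

/-- a set closed under the generators contains the classes of its members. -/
theorem EQ_closed {G : Ω → Prop} (h1 : ∀ t, G t ↔ G (p t)) (h2 : ∀ t, G t ↔ G (NA.mu p s t))
    (h3 : ∀ t, Cd p s t → (G t ↔ G (NA.pd s t))) {t u : Ω} (h : EQ p s t u) : G t ↔ G u := by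
  induction h with
  | rel t u h =>
    rcases h with rfl | rfl | ⟨h, rfl⟩
    · exact h1 t
    · exact h2 t
    · exact h3 t h
  | refl t => exact Iff.rfl
  | symm t u _ ih => exact ih.symm
  | trans t u v _ _ ih1 ih2 => exact ih1.trans ih2

theorem EQ_gnd {t g : Ω} (h : NA.Gnd p s t g) : EQ p s t g := by
  induction h with
  | selfA t h => exact EQ_refl t
  | selfB t h => exact EQ_refl t
  | red t g h _ ih => exact (EQ_pd (Or.inl h)).trans' ih
  | blu t g h _ ih => exact (EQ_pd (Or.inr h)).trans' ih

/-- the successor in a filtered word. -/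
theorem filter_succ {R : Ω → Ω → Prop} (hr : ∀ t, R t t) (hs : ∀ t u, R t u → R u t) (ht : ∀ t u v, R t u → R u v → R t v) :
    ∀ (n : ℕ) (l : List Ω) (P : Ω → Bool), l.length ≤ n → l.Nodup →
      (∀ t ∈ l, P t = false → R t ((formPerm l).symm t)) → ∀ g ∈ l, P g = true →
      R ((formPerm l).symm (formPerm (l.filter P) g)) g := by
  intro n
  induction n with
  | zero =>
    intro l P hl _ _ g hg
    rw [List.length_eq_zero_iff.mp (by omega : l.length = 0)] at hg
    simp at hg
  | succ n ih =>
    intro l P hl hn hR g hg hPg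
    by_cases hall : ∀ t ∈ l, P t = true
    · rw [List.filter_eq_self.mpr hall, Equiv.symm_apply_apply]
      exact hr g
    · obtain ⟨f, hf, hPf⟩ : ∃ f, f ∈ l ∧ P f = false := by
        by_contra hno
        apply hall
        intro t ht'
        by_contra h
        exact hno ⟨t, ht', by simpa using h⟩
      set l' := l.filter (fun s => decide (s ≠ f)) with hl'
      have hff : l'.filter P = l.filter P := by
        rw [hl', List.filter_filter]
        apply List.filter_congr
        intro t _
        by_cases htf : t = f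
        · rw [htf, hPf]; simp
        · simp [htf]
      have hlen : l'.length ≤ n := by
        have h1 : l'.length < l.length := by
          rw [hl', List.length_filter_lt_length_iff_exists]
          exact ⟨f, hf, by simp⟩
        omega
      have hfp : formPerm l' = Equiv.swap f (formPerm l f) * formPerm l := (UG.del_fp hn hf).symm
      have hsym : ∀ t, t ≠ f → R ((formPerm l').symm t) ((formPerm l).symm t) := by
        intro t htf
        have h1 : (formPerm l').symm t = (formPerm l).symm (Equiv.swap f (formPerm l f) t) := by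
          rw [Equiv.symm_apply_eq, hfp, Perm.mul_apply, Equiv.apply_symm_apply, Equiv.swap_apply_self]
        rw [h1]
        by_cases h2 : t = formPerm l f
        · rw [h2, Equiv.swap_apply_right, Equiv.symm_apply_apply]
          exact hs _ _ (hR f hf hPf)
        · rw [Equiv.swap_apply_of_ne_of_ne htf h2]
          exact hr _
      have hmem : ∀ t, t ∈ l' ↔ t ∈ l ∧ t ≠ f := by
        intro t
        rw [hl', List.mem_filter, decide_eq_true_iff]
      have hgf : g ≠ f := by
        rintro rfl
        rw [hPf] at hPg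
        exact Bool.noConfusion hPg
      have h3 := ih l' P hlen (hn.filter _) (by
        intro t htl hPt
        obtain ⟨h4, h5⟩ := (hmem t).mp htl
        exact ht _ _ _ (hR t h4 hPt) (hs _ _ (hsym t h5))) g ((hmem g).mpr ⟨hg, hgf⟩) hPg
      rw [hff] at h3
      have h4 : formPerm (l.filter P) g ≠ f := by
        intro h5
        have h6 : formPerm (l.filter P) g ∈ l.filter P :=
          formPerm_apply_mem_of_mem (List.mem_filter.mpr ⟨hg, hPg⟩)
        rw [h5, List.mem_filter, hPf] at h6
        exact Bool.noConfusion h6.2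
      exact ht _ _ _ (hs _ _ (hsym _ h4)) h3

end Pool.Agent.helper51.T1
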