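import Pool.Agent.helper51.T1.Eq
import Pool.Agent.helper32.RH.Drop

/-!
# MP_c8d30a, T1, II.5: `EQ` of substates and of the core
-/

set_option autoImplicit false

namespace Pool.Agent.helper51.T1

set_option linter.unusedSectionVars false

open NTH NA Equiv Equiv.Perm List Pool.Agent.helper32.ATT

variable {Ω : Type} [DecidableEq Ω] {p : Ω → Ω} {s : NTH.St Ω}

theorem pd_fpA (hw : WF p s) {t : Ω} (ht : t ∈ s.1) : NA.pd s t = (formPerm s.1).symm t := by
  have h1 : (formPerm s.1).symm t ∈ s.1 := by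
    have h2 : formPerm s.1 ((formPerm s.1).symm t) ∈ s.1 := by rw [Equiv.apply_symm_apply]; exact ht
    exact (List.formPerm_mem_iff_mem).1 h2
  exact NA.pd_of_sc (by rw [NA.sc_A hw.nd h1, Equiv.apply_symm_apply])

theorem pd_fpB (hw : WF p s) {t : Ω} (ht : t ∈ s.2) : NA.pd s t = (formPerm s.2).symm t := by
  have h1 : (formPerm s.2).symm t ∈ s.2 := by
    have h2 : formPerm s.2 ((formPerm s.2).symm t) ∈ s.2 := by rw [Equiv.apply_symm_apply]; exact ht
    exact (List.formPerm_mem_iff_mem).1 h2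
  exact NA.pd_of_sc (by rw [NA.sc_B hw.nd h1, Equiv.apply_symm_apply])

/-- the successor in a filtered first word. -/
theorem EQ_filA (hw : WF p s) {q : Ω → Bool} (hq : ∀ t ∈ s.1, q t = false → Cd p s t) {g : Ω} (hg : g ∈ s.1)
    (hqg : q g = true) : EQ p s (NA.pd s (formPerm (s.1.filter q) g)) g := by
  have hn : s.1.Nodup := (List.nodup_append.1 hw.nd).1
  have h1 := filter_succ (R := EQ p s) EQ_refl (fun _ _ h => h.symm') (fun _ _ _ h h' => h.trans' h') _ s.1 q le_rfl hn
    (fun t ht hqt => by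
      rw [← pd_fpA hw ht]
      exact EQ_pd (hq t ht hqt)) g hg hqg
  have h2 : formPerm (s.1.filter q) g ∈ s.1.filter q := formPerm_apply_mem_of_mem (List.mem_filter.mpr ⟨hg, hqg⟩)
  rw [pd_fpA hw (List.mem_filter.mp h2).1]
  exact h1

/-- the successor in a filtered second word. -/
theorem EQ_filB (hw : WF p s) {q : Ω → Bool} (hq : ∀ t ∈ s.2, q t = false → Cd p s t) {g : Ω} (hg : g ∈ s.2)
    (hqg : q g = true) : EQ p s (NA.pd s (formPerm (s.2.filter q) g)) g := by
  have hn : s.2.Nodup := (List.nodup_append.1 hw.nd).2.1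
  have h1 := filter_succ (R := EQ p s) EQ_refl (fun _ _ h => h.symm') (fun _ _ _ h h' => h.trans' h') _ s.2 q le_rfl hn
    (fun t ht hqt => by
      rw [← pd_fpB hw ht]
      exact EQ_pd (hq t ht hqt)) g hg hqg
  have h2 : formPerm (s.2.filter q) g ∈ s.2.filter q := formPerm_apply_mem_of_mem (List.mem_filter.mpr ⟨hg, hqg⟩)
  rw [pd_fpB hw (List.mem_filter.mp h2).1]
  exact h1

/-- two tokens whose successors are partners. -/
theorem EQ_link {a b w : Ω} (h1 : EQ p s (NA.pd s w) a) (h2 : EQ p s (NA.pd s (p w)) b) : EQ p s a b := by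
  have h3 : EQ p s (NA.pd s w) (NA.pd s (p w)) := by
    rw [← NA.mu_pd]
    exact EQ_mu _
  exact (h1.symm'.trans' h3).trans' h2

/-- the core permutation. -/
noncomputable def rhoc (p : Ω → Ω) (s : NTH.St Ω) : Perm Ω := (formPerm (NA.cB p s))⁻¹ * formPerm (NA.cA p s)

theorem rhoc_eq : rhoc p s = rhos p s.1 s.2 := rfl

theorem mem_cA {t : Ω} : t ∈ NA.cA p s ↔ NA.MA p s t := by
  unfold NA.cA NA.MA
  rw [List.mem_filter, decide_eq_true_iff]

theorem St_c (hw : WF p s) : Pool.Agent.helper36.WE.St (NA.cA p s).toFinset (rhoc p s) (NA.cA p s) (NA.cB p s) :=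
  St_core (A := s.1) (B := s.2) hw

theorem mem_cB (hw : WF p s) {t : Ω} : t ∈ NA.cB p s ↔ NA.MA p s t := by
  rw [← (St_c hw).perm.mem_iff, mem_cA]

theorem cB_succ (hw : WF p s) {g : Ω} (hg : NA.MA p s g) :
    formPerm (NA.cB p s) g = p (formPerm (s.2.filter (fun t => decide (p t ∈ s.1))) (p g)) := by
  have hn : s.2.Nodup := (List.nodup_append.1 hw.nd).2.1
  have h1 : p g ∈ s.2.filter (fun t => decide (p t ∈ s.1)) := by
    rw [List.mem_filter, decide_eq_true_iff, hw.inv]
    exact ⟨hg.2, hg.1⟩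
  have h2 := formPerm_map_p hw.inv (hn.filter _) h1
  rw [hw.inv] at h2
  exact h2

/-- the core permutation stays in the class. -/
theorem EQ_rhoc (hw : WF p s) (g : Ω) : EQ p s g (rhoc p s g) := by
  by_cases hg : NA.MA p s g
  · have hS := St_c hw
    have hh : NA.MA p s (rhoc p s g) := by
      have := hS.rho_mem (p := g) (by rw [List.mem_toFinset, mem_cA]; exact hg)
      rwa [List.mem_toFinset, mem_cA] at this
    have e1 : formPerm (NA.cB p s) (rhoc p s g) = formPerm (NA.cA p s) g := by
      unfold rhoc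
      rw [Perm.mul_apply, ← Perm.mul_apply, mul_inv_cancel]
      rfl
    have hwm : NA.MA p s (formPerm (NA.cA p s) g) := by
      rw [← mem_cA]
      exact formPerm_apply_mem_of_mem (mem_cA.mpr hg)
    have h1 : EQ p s (NA.pd s (formPerm (NA.cA p s) g)) g :=
      EQ_filA hw (q := fun t => decide (p t ∈ s.2)) (by
        intro t ht h
        left
        refine ⟨ht, ?_⟩
        have h2 := hw.cl t (List.mem_append_left _ ht)
        rcases List.mem_append.1 h2 with h3 | h3
        · exact h3
        · simp [h3] at h) hg.1 (by simpa using hg.2)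
    have h2 : EQ p s (NA.pd s (p (formPerm (NA.cA p s) g))) (p (rhoc p s g)) := by
      rw [← e1, cB_succ hw hh, hw.inv]
      refine EQ_filB hw (q := fun t => decide (p t ∈ s.1)) (by
        intro t ht h
        right
        refine ⟨ht, ?_⟩
        have h2 := hw.cl t (List.mem_append_right _ ht)
        rcases List.mem_append.1 h2 with h3 | h3
        · simp [h3] at h
        · exact h3) hh.2 (by simpa [hw.inv] using hh.1)
    exact (EQ_link h1 h2).trans' (EQ_p _).symm'
  · have h1 : rhoc p s g = g := by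
      unfold rhoc
      rw [Perm.mul_apply, formPerm_apply_of_notMem (l := NA.cA p s) (fun h => hg (mem_cA.mp h)), Perm.inv_eq_iff_eq,
        formPerm_apply_of_notMem (fun h => hg ((mem_cB hw).mp h))]
    rw [h1]
    exact EQ_refl g

theorem EQ_same (hw : WF p s) {g h : Ω} (hs : (rhoc p s).SameCycle g h) : EQ p s g h := by
  obtain ⟨i, rfl⟩ := hs
  induction i using Int.induction_on with
  | zero => exact EQ_refl g
  | succ i ih =>
    rw [add_comm, zpow_add, zpow_one, Perm.mul_apply]
    exact ih.trans' (EQ_rhoc hw _)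
  | pred i ih =>
    refine ih.trans' ?_
    have h1 : (rhoc p s) (((rhoc p s) ^ (-(i : ℤ) - 1)) g) = ((rhoc p s) ^ (-(i : ℤ))) g := by
      rw [← Perm.mul_apply, ← zpow_one_add]
      congr 2
      ring
    rw [← h1]
    exact (EQ_rhoc hw _).symm'

end Pool.Agent.helper51.T1
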