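import Pool.Agent.helper51.T1.Eq2

/-!
# MP_c8d30a, T1, II.5 and II.7: `EQ` of substates; cycles of the core permutation of a reversed core
-/

set_option autoImplicit false

namespace Pool.Agent.helper51.T1

set_option linter.unusedSectionVars false

open NTH NA Equiv Equiv.Perm List Pool.Agent.helper32.ATT

variable {Ω : Type} [DecidableEq Ω] {p : Ω → Ω} {s : NTH.St Ω}

theorem sc_out (h1 : ∀ t, t ∈ s.1 → t ∉ s.2) {t : Ω} (ht : t ∉ s.1) (ht' : t ∉ s.2) : NA.sc s t = t := by
  show (formPerm s.1) ((formPerm s.2) t) = t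
  rw [formPerm_apply_of_notMem ht', formPerm_apply_of_notMem ht]

theorem pd_out {t : Ω} (ht : t ∉ s.1) (ht' : t ∉ s.2) : NA.pd s t = t := by
  apply NA.pd_of_sc
  show (formPerm s.1) ((formPerm s.2) t) = t
  rw [formPerm_apply_of_notMem ht', formPerm_apply_of_notMem ht]

theorem fil_wf (hw : WF p s) {q : Ω → Bool} (hq : ∀ t, q (p t) = q t) : WF p (NA.fil q s) := by
  refine ⟨?_, ?_, hw.inv, hw.ne⟩
  · show (s.1.filter q ++ s.2.filter q).Nodup
    rw [← List.filter_append]
    exact hw.nd.filter _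
  · intro t ht
    have h1 : t ∈ (s.1 ++ s.2).filter q := by
      rw [List.filter_append]; exact ht
    show p t ∈ s.1.filter q ++ s.2.filter q
    rw [← List.filter_append, List.mem_filter, hq]
    rw [List.mem_filter] at h1
    exact ⟨hw.cl t h1.1, h1.2⟩

theorem mem_fil1 {q : Ω → Bool} {t : Ω} : t ∈ (NA.fil q s).1 ↔ t ∈ s.1 ∧ q t = true := List.mem_filter

theorem mem_fil2 {q : Ω → Bool} {t : Ω} : t ∈ (NA.fil q s).2 ↔ t ∈ s.2 ∧ q t = true := List.mem_filter

theorem Cd_fil {q : Ω → Bool} (hq : ∀ t, q (p t) = q t) {t : Ω} : Cd p (NA.fil q s) t ↔ Cd p s t ∧ q t = true := by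
  unfold Cd NA.Red NA.Blu
  rw [mem_fil1, mem_fil1, mem_fil2, mem_fil2, hq]
  tauto

/-- the successor in a substate. -/
theorem EQ_filS (hw : WF p s) {q : Ω → Bool} (hd : ∀ t, (t ∈ s.1 ∨ t ∈ s.2) → q t = false → Cd p s t) {g : Ω}
    (hg : g ∈ s.1 ∨ g ∈ s.2) (hqg : q g = true) : EQ p s (NA.pd s (NA.sc (NA.fil q s) g)) g := by
  have hn : ((NA.fil q s).1 ++ (NA.fil q s).2).Nodup := by
    show (s.1.filter q ++ s.2.filter q).Nodup
    rw [← List.filter_append]
    exact hw.nd.filter _
  rcases hg with hg | hg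
  · rw [NA.sc_A hn (mem_fil1.mpr ⟨hg, hqg⟩)]
    exact EQ_filA hw (fun t ht h => hd t (Or.inl ht) h) hg hqg
  · rw [NA.sc_B hn (mem_fil2.mpr ⟨hg, hqg⟩)]
    exact EQ_filB hw (fun t ht h => hd t (Or.inr ht) h) hg hqg

/-- **`EQ` of a substate.** -/
theorem EQ_fil (hw : WF p s) {q : Ω → Bool} (hq : ∀ t, q (p t) = q t)
    (hd : ∀ t, (t ∈ s.1 ∨ t ∈ s.2) → q t = false → Cd p s t) {t u : Ω} (h : EQ p (NA.fil q s) t u) : EQ p s t u := by
  have hw' := fil_wf hw hq
  have mem_sc : ∀ {t}, (t ∈ (NA.fil q s).1 ∨ t ∈ (NA.fil q s).2) → (NA.sc (NA.fil q s) t ∈ (NA.fil q s).1 ∨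
      NA.sc (NA.fil q s) t ∈ (NA.fil q s).2) := by
    intro t ht
    rcases ht with ht | ht
    · exact Or.inl ((NA.sc_mem_A hw'.nd).2 ht)
    · exact Or.inr ((NA.sc_mem_B hw'.nd).2 ht)
  have mem_pd : ∀ {t}, (t ∈ (NA.fil q s).1 ∨ t ∈ (NA.fil q s).2) → (NA.pd (NA.fil q s) t ∈ (NA.fil q s).1 ∨
      NA.pd (NA.fil q s) t ∈ (NA.fil q s).2) := by
    intro t ht
    rcases ht with ht | ht
    · exact Or.inl ((NA.pd_mem_A hw'.nd).2 ht)
    · exact Or.inr ((NA.pd_mem_B hw'.nd).2 ht)
  have mem_p : ∀ {t}, (t ∈ (NA.fil q s).1 ∨ t ∈ (NA.fil q s).2) → (p t ∈ (NA.fil q s).1 ∨ p t ∈ (NA.fil q s).2) := by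
    intro t ht
    have := hw'.cl t (List.mem_append.2 ht)
    exact List.mem_append.1 this
  have hS : ∀ {g}, (g ∈ (NA.fil q s).1 ∨ g ∈ (NA.fil q s).2) → EQ p s (NA.pd s (NA.sc (NA.fil q s) g)) g := by
    intro g hg
    rcases hg with hg | hg
    · exact EQ_filS hw hd (Or.inl (mem_fil1.mp hg).1) (mem_fil1.mp hg).2
    · exact EQ_filS hw hd (Or.inr (mem_fil2.mp hg).1) (mem_fil2.mp hg).2
  induction h with
  | rel t u h =>
    rcases h with rfl | rfl | ⟨h, rfl⟩
    · exact EQ_p t
    · by_cases ht : t ∈ (NA.fil q s).1 ∨ t ∈ (NA.fil q s).2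
      · have h1 := hS ht
        have h2 := mem_pd (mem_p (mem_sc ht))
        have h3 := hS h2
        rw [NA.sc_pd] at h3
        exact EQ_link h1 h3
      · have ht' : t ∉ (NA.fil q s).1 ∧ t ∉ (NA.fil q s).2 := by tauto
        have hp' : p t ∉ (NA.fil q s).1 ∧ p t ∉ (NA.fil q s).2 := by
          by_contra hc
          apply ht
          have h1 : p t ∈ (NA.fil q s).1 ∨ p t ∈ (NA.fil q s).2 := by tauto
          have h2 := mem_p h1
          rwa [hw.inv] at h2
        have e1 : NA.sc (NA.fil q s) t = t := by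
          show (formPerm (NA.fil q s).1) ((formPerm (NA.fil q s).2) t) = t
          rw [formPerm_apply_of_notMem ht'.2, formPerm_apply_of_notMem ht'.1]
        have e2 : NA.mu p (NA.fil q s) t = p t := by
          rw [NA.mu_eq_pd, e1, pd_out hp'.1 hp'.2]
        rw [e2]
        exact EQ_p t
    · have hc := (Cd_fil hq).mp h
      have hm : t ∈ (NA.fil q s).1 ∨ t ∈ (NA.fil q s).2 := by
        rcases h with h | h
        · exact Or.inl h.1
        · exact Or.inr h.1
      have h3 := hS (mem_pd hm)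
      rw [NA.sc_pd] at h3
      exact (EQ_pd hc.1).trans' h3
  | refl t => exact EQ_refl t
  | symm t u _ ih => exact ih.symm'
  | trans t u v _ _ ih1 ih2 => exact ih1.trans' ih2

/-! ### reversed cores -/

section
open Pool.Agent.helper36.WE
variable {X : Type} [DecidableEq X]

/-- deletion of fixed letters does not change the invariant permutation. -/
theorem rho_filter : ∀ (n : ℕ) (a b : List X) (P : X → Bool), a.length ≤ n → a.Nodup → b.Nodup → a.Perm b →
    (∀ t ∈ a, P t = false → formPerm a t = formPerm b t) →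
    (formPerm (b.filter P))⁻¹ * formPerm (a.filter P) = (formPerm b)⁻¹ * formPerm a := by
  intro n
  induction n with
  | zero =>
    intro a b P hl _ _ hp _
    have h1 : a = [] := List.length_eq_zero_iff.mp (by omega)
    subst h1
    rw [List.nil_perm.mp hp]
    rfl
  | succ n ih =>
    intro a b P hl ha hb hp hP
    by_cases hall : ∀ t ∈ a, P t = true
    · rw [List.filter_eq_self.mpr hall, List.filter_eq_self.mpr (fun t ht => hall t (hp.symm.subset ht))]
    · obtain ⟨f, hf, hPf⟩ : ∃ f, f ∈ a ∧ P f = false := by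
        by_contra hno
        apply hall
        intro t ht'
        by_contra h
        exact hno ⟨t, ht', by simpa using h⟩
      have hfb := hp.subset hf
      have hff : ∀ L : List X, (L.filter (fun s => decide (s ≠ f))).filter P = L.filter P := by
        intro L
        rw [List.filter_filter]
        apply List.filter_congr
        intro t _
        by_cases htf : t = f
        · rw [htf, hPf]; simp
        · simp [htf]
      have hlen : (a.filter (fun s => decide (s ≠ f))).length ≤ n := by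
        have h1 : (a.filter (fun s => decide (s ≠ f))).length < a.length := by
          rw [List.length_filter_lt_length_iff_exists]
          exact ⟨f, hf, by simp⟩
        omega
      have e1 := UG.del_fp ha hf
      have e2 := UG.del_fp hb hfb
      have e3 := hP f hf hPf
      have h1 := ih (a.filter (fun s => decide (s ≠ f))) (b.filter (fun s => decide (s ≠ f))) P hlen (ha.filter _)
        (hb.filter _) (hp.filter _) (by
          intro t ht hPt
          rw [← e1, ← e2, ← e3, Perm.mul_apply, Perm.mul_apply, hP t (List.mem_filter.mp ht).1 hPt])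
      rw [hff, hff] at h1
      rw [h1, ← e1, ← e2, ← e3]
      simp only [mul_inv_rev, Equiv.swap_inv, mul_assoc]
      rw [← mul_assoc (Equiv.swap f _), Equiv.swap_mul_self, one_mul]

theorem RRf_sq {T : Finset X} {ρ : Perm X} {a b : List X} (h : St T ρ a b) (hR : RRf ρ a b) :
    ρ = formPerm (a.filter (fun s => decide (ρ s ≠ s))) * formPerm (a.filter (fun s => decide (ρ s ≠ s))) := by
  have h1 := rho_filter _ a b (fun s => decide (ρ s ≠ s)) le_rfl h.nodup h.nodupB h.perm (by
    intro t _ ht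
    have h2 : ρ t = t := by simpa using ht
    rw [← h.rho, Perm.mul_apply, Perm.inv_eq_iff_eq] at h2
    exact h2)
  rw [h.rho] at h1
  have h3 : b.filter (fun s => decide (ρ s ≠ s)) ~r (a.filter (fun s => decide (ρ s ≠ s))).reverse := hR
  rw [formPerm_eq_of_isRotated (h.nodupB.filter _) h3, formPerm_reverse, inv_inv] at h1
  exact h1.symm

/-- among three letters which are not fixed two are in the same cycle. -/
theorem RRf_two {T : Finset X} {ρ : Perm X} {a b : List X} (h : St T ρ a b) (hR : RRf ρ a b) {t1 t2 t3 : X}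
    (h1 : ρ t1 ≠ t1) (h2 : ρ t2 ≠ t2) (h3 : ρ t3 ≠ t3) : ρ.SameCycle t1 t2 ∨ ρ.SameCycle t1 t3 ∨ ρ.SameCycle t2 t3 := by
  have hsq := RRf_sq h hR
  set l := a.filter (fun s => decide (ρ s ≠ s)) with hl
  have hln : l.Nodup := h.nodup.filter _
  have hmem : ∀ t, ρ t ≠ t → t ∈ l := by
    intro t ht
    rw [hl, List.mem_filter, decide_eq_true_iff]
    refine ⟨?_, ht⟩
    by_contra hta
    apply ht
    rw [← h.rho, Perm.mul_apply, Perm.inv_eq_iff_eq, formPerm_apply_of_notMem hta,
      formPerm_apply_of_notMem (fun hb => hta (h.perm.symm.subset hb))]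
  have key : ∀ t u, ρ t ≠ t → ρ u ≠ u → ∃ i : ℕ, ((formPerm l) ^ i) t = u := by
    intro t u ht hu
    obtain ⟨M, hM⟩ := exists_rot_cons (hmem t ht)
    have hMn : (t :: M).Nodup := hM.nodup_iff.mp hln
    have huM : u ∈ t :: M := hM.mem_iff.mp (hmem u hu)
    obtain ⟨i, hi, hiu⟩ := List.getElem_of_mem huM
    refine ⟨i, ?_⟩
    rw [formPerm_eq_of_isRotated hln hM, formPerm_pow_apply_head t M hMn i]
    simp only [Nat.mod_eq_of_lt hi]
    exact hiu
  have heven : ∀ t u (i : ℕ), Even i → ((formPerm l) ^ i) t = u → ρ.SameCycle t u := by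
    intro t u i hi hu
    obtain ⟨k, rfl⟩ := hi
    refine ⟨(k : ℤ), ?_⟩
    rw [zpow_natCast]
    have e : ρ ^ k = (formPerm l) ^ (k + k) := by
      rw [← two_mul, pow_mul, pow_two, ← hsq]
    rw [e]
    exact hu
  obtain ⟨i, hi⟩ := key t1 t2 h1 h2
  obtain ⟨j, hj⟩ := key t1 t3 h1 h3
  rcases Nat.even_or_odd i with hie | hio
  · exact Or.inl (heven _ _ _ hie hi)
  rcases Nat.even_or_odd j with hje | hjo
  · exact Or.inr (Or.inl (heven _ _ _ hje hj))
  right; right
  rcases le_total i j with hij | hij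
  · refine heven t2 t3 (j - i) (by
      rw [Nat.even_sub' hij]; exact ⟨fun _ => hio, fun _ => hjo⟩) ?_
    rw [← hi, ← Perm.mul_apply, ← pow_add, show j - i + i = j by omega]
    exact hj
  · refine (heven t3 t2 (i - j) (by
      rw [Nat.even_sub' hij]; exact ⟨fun _ => hjo, fun _ => hio⟩) ?_).symm
    rw [← hj, ← Perm.mul_apply, ← pow_add, show i - j + j = i by omega]
    exact hi

end

/-- **reversed core**: among three letters of the core which are not fixed two are in the same class. -/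
theorem EQ_two (hw : WF p s) (hR : NA.RR (NA.cA p s) (NA.cB p s)) {t1 t2 t3 : Ω} (h1 : rhoc p s t1 ≠ t1)
    (h2 : rhoc p s t2 ≠ t2) (h3 : rhoc p s t3 ≠ t3) : EQ p s t1 t2 ∨ EQ p s t1 t3 ∨ EQ p s t2 t3 := by
  have hS := St_c hw
  have hR' : RRf (rhoc p s) (NA.cA p s) (NA.cB p s) := (RR_iff hS).mp (RR.ofNa hR)
  rcases RRf_two hS hR' h1 h2 h3 with h | h | h
  · exact Or.inl (EQ_same hw h)
  · exact Or.inr (Or.inl (EQ_same hw h))
  · exact Or.inr (Or.inr (EQ_same hw h))

end Pool.Agent.helper51.T1
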