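import Pool.Agent.helper51.T1.Link2

/-!
# MP_c8d30a, T1, II.7: the gaps of a core circle which is a bigon
-/

set_option autoImplicit false

namespace Pool.Agent.helper51.T1

set_option linter.unusedSectionVars false

open NTH NA Equiv Equiv.Perm List Pool.Agent.helper32.ATT

variable {Ω : Type} [DecidableEq Ω] {p : Ω → Ω} {f : Ω} {s : NTH.St Ω}

theorem dj (hw : WF p s) {a : Ω} (ha : a ∈ s.1) (hb : a ∈ s.2) : False :=
  (List.nodup_append.1 hw.nd).2.2 _ ha _ hb rfl

theorem Mx.tk {t : Ω} (h : Mx p s t) : Tk s t := by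
  rcases h with h | h
  · exact Or.inl h.1
  · exact Or.inr h.1

theorem Mx.part (hw : WF p s) {t : Ω} (h : Mx p s t) : Mx p s (p t) := by
  rcases h with h | h
  · exact Or.inr ⟨h.2, by rw [hw.inv]; exact h.1⟩
  · exact Or.inl ⟨h.2, by rw [hw.inv]; exact h.1⟩

theorem Mx_part (hw : WF p s) {t : Ω} : Mx p s (p t) ↔ Mx p s t := by
  refine ⟨fun h => ?_, fun h => h.part hw⟩
  have := h.part hw
  rwa [hw.inv] at this

theorem Cd_part (hw : WF p s) {t : Ω} : Cd p s (p t) ↔ Cd p s t := by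
  refine ⟨fun h => ?_, fun h => h.part hw⟩
  have := h.part hw
  rwa [hw.inv] at this

theorem Cd_or (hw : WF p s) {t : Ω} (h : Tk s t) : Cd p s t ∨ Mx p s t := by
  have h1 := Tk_p hw h
  rcases h with h | h <;> rcases h1 with h1 | h1
  · exact Or.inl (Or.inl ⟨h, h1⟩)
  · exact Or.inr (Or.inl ⟨h, h1⟩)
  · exact Or.inr (Or.inr ⟨h, h1⟩)
  · exact Or.inl (Or.inr ⟨h, h1⟩)

theorem Mx.ncd (hw : WF p s) {t : Ω} (h : Mx p s t) : ¬ Cd p s t := by
  rintro (h' | h') <;> rcases h with h | h
  · exact dj hw h'.2 h.2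
  · exact dj hw h'.1 h.1
  · exact dj hw h.1 h'.1
  · exact dj hw h.2 h'.2

theorem ncd_mx (hw : WF p s) {t : Ω} (h : Tk s t) (h' : ¬ Cd p s t) : Mx p s t := by
  rcases Cd_or hw h with h1 | h1
  · exact absurd h1 h'
  · exact h1

/-- the gap behind the mixed token `g`: the coloured tokens `l` between `g` and the next mixed token `w`. -/
inductive Gap (p : Ω → Ω) (s : NTH.St Ω) (g : Ω) : List Ω → Ω → Prop
  | E {w : Ω} (hw : Mx p s w) (h : NA.sc s g = w) : Gap p s g [] w
  | S {t w : Ω} (hw : Mx p s w) (ht : Cd p s t) (h1 : NA.sc s g = t) (h2 : NA.sc s t = w) : Gap p s g [t] w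
  | D {t w : Ω} (hw : Mx p s w) (ht : Cd p s t) (h1 : NA.sc s g = t) (h2 : NA.sc s t = p t)
      (h3 : NA.sc s (p t) = w) : Gap p s g [t, p t] w

theorem Gap.mx {g w : Ω} {l : List Ω} (h : Gap p s g l w) : Mx p s w := by
  cases h <;> assumption

/-- every mixed token has a gap. -/
theorem gap_exists (hw : WF p s) (hadj : ¬ Adj p s) {g : Ω} (hg : Mx p s g) : ∃ l w, Gap p s g l w := by
  rcases Cd_or hw (Tk_sc hw hg.tk) with h1 | h1
  · rcases Cd_or hw (Tk_sc hw h1.tk) with h2 | h2
    · have h3 : NA.sc s (NA.sc s g) = p (NA.sc s g) := by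
        by_contra hne
        exact hadj ⟨_, h1, h2, hne⟩
      have h4 : Cd p s (p (NA.sc s g)) := h1.part hw
      rcases Cd_or hw (Tk_sc hw h4.tk) with h5 | h5
      · exfalso
        have h6 : NA.sc s (p (NA.sc s g)) = p (p (NA.sc s g)) := by
          by_contra hne
          exact hadj ⟨_, h4, h5, hne⟩
        rw [hw.inv] at h6
        have h7 : p (NA.sc s g) = g := by
          have := congrArg (NA.pd s) h6
          rwa [NA.pd_sc, NA.pd_sc] at this
        rw [h7] at h4
        exact hg.ncd hw h4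
      · exact ⟨_, _, .D h5 h1 rfl h3 rfl⟩
    · exact ⟨_, _, .S h2 h1 rfl rfl⟩
  · exact ⟨_, _, .E h1 rfl⟩

/-- the coloured tokens of a gap are in the class of `g`. -/
theorem Gap.eq (hw : WF p s) {g w : Ω} {l : List Ω} (h : Gap p s g l w) : ∀ t ∈ l, Cd p s t ∧ EQ p s t g := by
  cases h with
  | E _ _ => intro t ht; simp at ht
  | S _ h0 h1 _ =>
    intro t ht
    rw [List.mem_singleton] at ht
    subst ht
    refine ⟨h0, ?_⟩
    have := EQ_pd h0
    rwa [NA.pd_of_sc h1] at this
  | @D a w _ h0 h1 h2 _ =>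
    have e1 : EQ p s a g := by
      have := EQ_pd h0
      rwa [NA.pd_of_sc h1] at this
    intro t ht
    rcases List.mem_cons.1 ht with rfl | ht
    · exact ⟨h0, e1⟩
    · rw [List.mem_singleton] at ht
      subst ht
      exact ⟨h0.part hw, (EQ_p _).symm'.trans' e1⟩

/-- the next token of `cA`. -/
theorem Gap.cA (hw : WF p s) {g w : Ω} {l : List Ω} (h : Gap p s g l w) (hg : NA.MA p s g) :
    formPerm (NA.cA p s) g = w := by
  have hn : s.1.Nodup := (List.nodup_append.1 hw.nd).1
  have hm : ∀ t ∈ s.1, (fun t => decide (p t ∈ s.2)) t = true ↔ p t ∉ s.1 := by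
    intro t ht
    simp only [decide_eq_true_iff]
    constructor
    · intro h h'
      exact dj hw h' h
    · intro h'
      rcases Tk_p hw (Or.inl ht) with h1 | h1
      · exact absurd h1 h'
      · exact h1
  have hgm : p g ∉ s.1 := fun h => dj hw h hg.2
  have side : ∀ {t : Ω}, t ∈ s.1 → NA.sc s t ∈ s.1 := fun ht => (NA.sc_mem_A hw.nd).2 ht
  have hsc : ∀ {t : Ω}, t ∈ s.1 → formPerm s.1 t = NA.sc s t := fun ht => (NA.sc_A hw.nd ht).symm
  have hwm : w ∈ s.1 → p w ∉ s.1 := by
    intro hw1 h1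
    exact h.mx.ncd hw (Or.inl ⟨hw1, h1⟩)
  have hcd : ∀ {t : Ω}, Cd p s t → t ∈ s.1 → p t ∈ s.1 := by
    rintro t (h1 | h1) ht
    · exact h1.2
    · exact absurd h1.1 (fun h => dj hw ht h)
  cases h with
  | E hmx h1 =>
    subst h1
    have := core_succ (W := s.1) (g := g) (q := g) hn .base hg.1 hgm (by rw [hsc hg.1]; exact hwm (side hg.1)) hm
    rw [hsc hg.1] at this
    exact this
  | @S t w hmx h0 h1 h2 =>
    subst h1
    subst h2
    have e1 := side hg.1
    have g1 : Gr p s.1 g (NA.sc s g) := by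
      rw [← hsc hg.1]
      refine .step g .base ?_
      rw [hsc hg.1]
      exact hcd h0 e1
    have := core_succ (W := s.1) (g := g) hn g1 hg.1 hgm (by rw [hsc e1]; exact hwm (side e1)) hm
    rw [hsc e1] at this
    exact this
  | @D t w hmx h0 h1 h2 h3 =>
    subst h1
    subst h3
    have e1 := side hg.1
    have e2 : p (NA.sc s g) ∈ s.1 := hcd h0 e1
    have g1 : Gr p s.1 g (NA.sc s g) := by
      rw [← hsc hg.1]
      refine .step g .base ?_
      rw [hsc hg.1]
      exact e2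
    have g2 : Gr p s.1 g (p (NA.sc s g)) := by
      have h5 : p (NA.sc s g) = formPerm s.1 (NA.sc s g) := by rw [hsc e1, h2]
      rw [h5]
      refine .step _ g1 ?_
      rw [← h5, hw.inv]
      exact e1
    have := core_succ (W := s.1) (g := g) hn g2 hg.1 hgm (by rw [hsc e2]; exact hwm (side e2)) hm
    rw [hsc e2] at this
    exact this

/-- the next mixed token of `B`. -/
theorem Gap.cB (hw : WF p s) {g w : Ω} {l : List Ω} (h : Gap p s g l w) (hg : NA.MB p s g) :
    formPerm (s.2.filter (fun t => decide (p t ∈ s.1))) g = w := by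
  have hn : s.2.Nodup := (List.nodup_append.1 hw.nd).2.1
  have hm : ∀ t ∈ s.2, (fun t => decide (p t ∈ s.1)) t = true ↔ p t ∉ s.2 := by
    intro t ht
    simp only [decide_eq_true_iff]
    constructor
    · intro h h'
      exact dj hw h h'
    · intro h'
      rcases Tk_p hw (Or.inr ht) with h1 | h1
      · exact h1
      · exact absurd h1 h'
  have hgm : p g ∉ s.2 := fun h => dj hw hg.2 h
  have side : ∀ {t : Ω}, t ∈ s.2 → NA.sc s t ∈ s.2 := fun ht => (NA.sc_mem_B hw.nd).2 ht
  have hsc : ∀ {t : Ω}, t ∈ s.2 → formPerm s.2 t = NA.sc s t := fun ht => (NA.sc_B hw.nd ht).symm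
  have hwm : w ∈ s.2 → p w ∉ s.2 := by
    intro hw1 h1
    exact h.mx.ncd hw (Or.inr ⟨hw1, h1⟩)
  have hcd : ∀ {t : Ω}, Cd p s t → t ∈ s.2 → p t ∈ s.2 := by
    rintro t (h1 | h1) ht
    · exact absurd h1.1 (fun h => dj hw h ht)
    · exact h1.2
  cases h with
  | E hmx h1 =>
    subst h1
    have := core_succ (W := s.2) (g := g) (q := g) hn .base hg.1 hgm (by rw [hsc hg.1]; exact hwm (side hg.1)) hm
    rw [hsc hg.1] at this
    exact this
  | @S t w hmx h0 h1 h2 =>
    subst h1
    subst h2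
    have e1 := side hg.1
    have g1 : Gr p s.2 g (NA.sc s g) := by
      rw [← hsc hg.1]
      refine .step g .base ?_
      rw [hsc hg.1]
      exact hcd h0 e1
    have := core_succ (W := s.2) (g := g) hn g1 hg.1 hgm (by rw [hsc e1]; exact hwm (side e1)) hm
    rw [hsc e1] at this
    exact this
  | @D t w hmx h0 h1 h2 h3 =>
    subst h1
    subst h3
    have e1 := side hg.1
    have e2 : p (NA.sc s g) ∈ s.2 := hcd h0 e1
    have g1 : Gr p s.2 g (NA.sc s g) := by
      rw [← hsc hg.1]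
      refine .step g .base ?_
      rw [hsc hg.1]
      exact e2
    have g2 : Gr p s.2 g (p (NA.sc s g)) := by
      have h5 : p (NA.sc s g) = formPerm s.2 (NA.sc s g) := by rw [hsc e1, h2]
      rw [h5]
      refine .step _ g1 ?_
      rw [← h5, hw.inv]
      exact e1
    have := core_succ (W := s.2) (g := g) hn g2 hg.1 hgm (by rw [hsc e2]; exact hwm (side e2)) hm
    rw [hsc e2] at this
    exact this

/-- the core circle of the mixed token `g` is a bigon. -/
def Fx (p : Ω → Ω) (s : NTH.St Ω) (g : Ω) : Prop := ∀ c, NA.MA p s c → (c = g ∨ c = p g) → rhoc p s c = c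

theorem Fx.part (hw : WF p s) {g : Ω} (h : Fx p s g) : Fx p s (p g) := by
  intro c h1 h2
  apply h c h1
  rw [hw.inv] at h2
  tauto

/-- **a bigon.** -/
theorem Fx.gap (hw : WF p s) {g w w' : Ω} {l l' : List Ω} (h : Fx p s g) (hg : Mx p s g) (h1 : Gap p s g l w)
    (h2 : Gap p s (p g) l' w') : w' = p w := by
  have key : ∀ {g w w' : Ω} {l l' : List Ω}, Fx p s g → NA.MA p s g → Gap p s g l w → Gap p s (p g) l' w' → w' = p w := by
    intro g w w' l l' h hg h1 h2
    have e1 := h1.cA hw hg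
    have e2 := h2.cB hw ⟨hg.2, by rw [hw.inv]; exact hg.1⟩
    have e3 := cB_succ hw hg
    rw [e2] at e3
    have e4 := h g hg (Or.inl rfl)
    unfold rhoc at e4
    rw [Perm.mul_apply, Perm.inv_eq_iff_eq, e1, e3] at e4
    rw [e4, hw.inv]
  rcases hg with hg | hg
  · exact key h hg h1 h2
  · have h3 : NA.MA p s (p g) := ⟨hg.2, by rw [hw.inv]; exact hg.1⟩
    have h4 : w = p w' := key (h.part hw) h3 h2 (by rw [hw.inv]; exact h1)
    rw [h4, hw.inv]

end Pool.Agent.helper51.T1
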