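import Pool.Agent.helper51.T1.Two
import Pool.Agent.helper72.T1.CL

/-!
# MP_c8d30a, T1, Part II: from the tables to good drops in the full state
-/

set_option autoImplicit false

namespace Pool.Agent.helper51.T1

set_option linter.unusedSectionVars false

open NTH NA Equiv Equiv.Perm List Pool.Agent.helper32.ATT
open Pool.Agent.helper32.RH (RTs)

variable {Ω : Type} [DecidableEq Ω] {p : Ω → Ω} {f : Ω} {s : NTH.St Ω}

/-- successors in filtered words. -/
theorem fp_filter {W : List Ω} (hn : W.Nodup) {q : Ω → Bool} {a b : Ω} (haW : a ∈ W) (ha : q a = true) (hb : q b = true)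
    (h : formPerm W a = b) : formPerm (W.filter q) a = b := by
  obtain ⟨L, hL⟩ := Pool.Agent.helper36.WE.exists_rot_cons haW
  have hLn := hL.nodup_iff.mp hn
  rw [formPerm_eq_of_isRotated hn hL] at h
  have h1 := T1C.rot_filter hL q
  rw [formPerm_eq_of_isRotated (hn.filter _) h1, List.filter_cons_of_pos ha]
  cases L with
  | nil =>
    simp only [formPerm_singleton, Perm.one_apply] at h
    subst h
    simp
  | cons c L =>
    rw [formPerm_apply_head a c L hLn] at h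
    subst h
    rw [List.filter_cons_of_pos hb]
    have := (h1.nodup_iff.mp (hn.filter q))
    rw [List.filter_cons_of_pos ha, List.filter_cons_of_pos hb] at this
    exact formPerm_apply_head a c _ this

theorem sc_fil (hw : WF p s) {q : Ω → Bool} {a b : Ω} (ht : Tk s a) (ha : q a = true) (hb : q b = true)
    (h : NA.sc s a = b) : NA.sc (NA.fil q s) a = b := by
  have hn : ((NA.fil q s).1 ++ (NA.fil q s).2).Nodup := by
    show (s.1.filter q ++ s.2.filter q).Nodup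
    rw [← List.filter_append]
    exact hw.nd.filter _
  rcases ht with ht | ht
  · rw [NA.sc_A hn (mem_fil1.mpr ⟨ht, ha⟩)]
    rw [NA.sc_A hw.nd ht] at h
    exact fp_filter (List.nodup_append.1 hw.nd).1 ht ha hb h
  · rw [NA.sc_B hn (mem_fil2.mpr ⟨ht, ha⟩)]
    rw [NA.sc_B hw.nd ht] at h
    exact fp_filter (List.nodup_append.1 hw.nd).2.1 ht ha hb h

/-- table BIG1: an isolated leg at a bigon. -/
def BIG1_stmt (K : ℕ) : Prop := ∀ (Ω : Type) [DecidableEq Ω] (p : Ω → Ω) (f : Ω) (s : St Ω) (c d z g w : Ω),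
  T1C.Tri p f s c d z → T1C.Mx p s g → T1C.Mx p s w → g ≠ f → g ≠ p f → NA.sc s g = c → NA.sc s c = w →
  NA.sc s (p g) = p w → T1C.DG p K f s

/-- table BIG2: both legs at a bigon. -/
def BIG2_stmt (K : ℕ) : Prop := ∀ (Ω : Type) [DecidableEq Ω] (p : Ω → Ω) (f : Ω) (s : St Ω) (c d z g w : Ω),
  T1C.Tri p f s c d z → T1C.Mx p s g → T1C.Mx p s w → g ≠ f → g ≠ p f → NA.sc s g = c → NA.sc s c = p c →
  NA.sc s (p c) = w → NA.sc s (p g) = p w → T1C.DG p K f s

/-- three letters: the letter of `t`, one more of the same colour, one of the other colour. -/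
theorem ex_tri (hg : GP p f s) (h2 : NTH.Two p s) {t : Ω} (ht : Cd p s t) :
    ∃ d z, T1C.Cd p s d ∧ T1C.Cd p s z ∧ (d ∈ s.1 ↔ t ∈ s.1) ∧ (z ∈ s.1 ↔ t ∉ s.1) ∧ d ≠ t ∧ d ≠ p t := by
  have hw := hg.wf
  have hfr := Two.fr hw h2 t
  rcases ht with ht | ht
  · obtain ⟨d, hd, d1, d2⟩ := hfr.1
    obtain ⟨z, hz⟩ := hg.blu
    exact ⟨d, z, Or.inl hd, Or.inr hz, iff_of_true hd.1 ht.1, ⟨fun h => absurd hz.1 (fun h' => dj hw h h'),
      fun h => absurd ht.1 h⟩, d1, d2⟩
  · obtain ⟨d, hd, d1, d2⟩ := hfr.2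
    obtain ⟨z, hz⟩ := hg.red
    exact ⟨d, z, Or.inr hd, Or.inl hz, iff_of_false (fun h => dj hw h hd.1) (fun h => dj hw h ht.1),
      ⟨fun _ h => dj hw h ht.1, fun _ => hz.1⟩, d1, d2⟩

/-- the passage to the substate. -/
theorem DG_of (hg : GP p f s) {c d z : Ω} {K : ℕ} (hc : Cd p s c) (hd : Cd p s d) (hz : Cd p s z) (sd : d ∈ s.1 ↔ c ∈ s.1)
    (sz : z ∈ s.1 ↔ c ∉ s.1) (ne : d ≠ c) (ne' : d ≠ p c)
    (h : ∀ s' : St Ω, s' = NA.fil (T1C.kp p s (T1C.tri p c d z)) s → T1C.Tri p f s' c d z → (∀ t, Mx p s' t ↔ Mx p s t) →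
      (∀ a b, Tk s a → (Mx p s a ∨ a ∈ T1C.tri p c d z) → (Mx p s b ∨ b ∈ T1C.tri p c d z) → NA.sc s a = b →
        NA.sc s' a = b) → T1C.DG p K f s') : T1C.DG p K f s := by
  have hw := hg.wf
  have hq := T1C.kp_p (p := p) (s := s) hw (c := c) (d := d) (z := z)
  have hm : ∀ t, T1C.Mx p s t → T1C.kp p s (T1C.tri p c d z) t = true := fun t ht => T1C.kp_iff.mpr (Or.inl ht)
  refine T1C.DG.fil hg hq hm (h _ rfl (T1C.Tri.fil hg hc hd hz sd sz ne ne') (fun t => T1C.mx_fil hq hm) ?_)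
  intro a b ht ha hb hab
  exact sc_fil hw ht (T1C.kp_iff.mpr ha) (T1C.kp_iff.mpr hb) hab

theorem G1_DG {K : ℕ} (hT : BIG1_stmt K) (hg : GP p f s) (h2 : NTH.Two p s) (h : G1 p f s) : T1C.DG p K f s := by
  have hw := hg.wf
  obtain ⟨g, t, w, hmg, n1, n2, hl, hl'⟩ := h
  cases hl with
  | S hmw ht a1 a2 =>
    cases hl' with
    | E hmw' b1 =>
      obtain ⟨d, z, hd, hz, sd, sz, ne, ne'⟩ := ex_tri hg h2 ht
      refine DG_of hg ht hd hz sd sz ne ne' fun s' _ hTri hM hS => ?_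
      have e1 := hS g t hmg.tk (Or.inl hmg) (Or.inr (by simp [T1C.tri])) a1
      have e2 := hS t w ht.tk (Or.inr (by simp [T1C.tri])) (Or.inl hmw) a2
      have e3 := hS (p g) (p w) (hmg.part hw).tk (Or.inl (hmg.part hw)) (Or.inl hmw') b1
      exact hT Ω p f s' t d z g w hTri ((hM g).2 hmg) ((hM w).2 hmw) n1 n2 e1 e2 e3

theorem G2_DG {K : ℕ} (hT : BIG2_stmt K) (hg : GP p f s) (h2 : NTH.Two p s) (h : G2 p f s) : T1C.DG p K f s := by
  have hw := hg.wf
  obtain ⟨g, t, w, hmg, n1, n2, hl, hl'⟩ := h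
  cases hl with
  | D hmw ht a1 a2 a3 =>
    cases hl' with
    | E hmw' b1 =>
      obtain ⟨d, z, hd, hz, sd, sz, ne, ne'⟩ := ex_tri hg h2 ht
      refine DG_of hg ht hd hz sd sz ne ne' fun s' _ hTri hM hS => ?_
      have e1 := hS g t hmg.tk (Or.inl hmg) (Or.inr (by simp [T1C.tri])) a1
      have e2 := hS t (p t) ht.tk (Or.inr (by simp [T1C.tri])) (Or.inr (by simp [T1C.tri])) a2
      have e4 := hS (p t) w (ht.part hw).tk (Or.inr (by simp [T1C.tri])) (Or.inl hmw) a3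
      have e3 := hS (p g) (p w) (hmg.part hw).tk (Or.inl (hmg.part hw)) (Or.inl hmw') b1
      exact hT Ω p f s' t d z g w hTri ((hM g).2 hmg) ((hM w).2 hmw) n1 n2 e1 e2 e4 e3

/-- two successors behind the last token of `B`. -/
theorem lin_B (hg : GP p f s) {a b : Ω} (h1 : NA.sc s f = a) (h2 : NA.sc s a = b) (ha : a ≠ f) (hb : b ≠ f) :
    T1C.Lin p f s a b := by
  left
  have hw := hg.wf
  have hn := (List.nodup_append.1 hw.nd).2.1
  obtain ⟨Y, hY⟩ := List.getLast?_eq_some_iff.mp hg.last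
  have hf : f ∈ s.2 := List.mem_of_getLast? hg.last
  have hrot : s.2 ~r f :: Y := by
    rw [hY]
    exact ⟨Y.length, by simp⟩
  have hn' := hrot.nodup_iff.mp hn
  rw [NA.sc_B hw.nd hf, formPerm_eq_of_isRotated hn hrot] at h1
  cases Y with
  | nil => simp at h1; exact absurd h1.symm ha
  | cons c Y =>
    rw [formPerm_apply_head f c Y hn'] at h1
    subst h1
    have ha2 : c ∈ s.2 := by rw [hY]; simp
    have hrot2 : s.2 ~r c :: (Y ++ [f]) := by rw [hY]; exact List.IsRotated.refl _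
    rw [NA.sc_B hw.nd ha2, formPerm_eq_of_isRotated hn hrot2] at h2
    cases Y with
    | nil =>
      have h3 := formPerm_apply_head c f [] (by simpa using hrot2.nodup_iff.mp hn)
      simp only [List.nil_append] at h2
      rw [h3] at h2
      exact absurd h2.symm hb
    | cons e Y =>
      have h3 := formPerm_apply_head c e (Y ++ [f]) (by simpa using hrot2.nodup_iff.mp hn)
      simp only [List.cons_append] at h2
      rw [h3] at h2
      subst h2
      rw [hY]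
      simp

theorem G3_DG {K : ℕ} (hT : T1C.NEST_stmt K) (hg : GP p f s) (h2 : NTH.Two p s) (h : G3 p f s) : T1C.DG p K f s := by
  have hw := hg.wf
  obtain ⟨t, y, w, hl, hl'⟩ := h
  have hmf : Mx p s f := Or.inr ⟨List.mem_of_getLast? hg.last, hg.fA⟩
  have hmpf : Mx p s (p f) := hmf.part hw
  have hs1 := hl.side hw t (by simp)
  have hs2 := hl'.side hw y (by simp)
  have hmw := hl.mx
  have hmw' := hl'.mx
  obtain ⟨ht, a1, a2, a3⟩ : Cd p s t ∧ NA.sc s (p f) = t ∧ NA.sc s t = p t ∧ NA.sc s (p t) = w := by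
    cases hl with
    | D _ a0 a1 a2 a3 => exact ⟨a0, a1, a2, a3⟩
  obtain ⟨hy, b1, b2, b3⟩ : Cd p s y ∧ NA.sc s f = y ∧ NA.sc s y = p y ∧ NA.sc s (p y) = p w := by
    cases hl' with
    | D _ a0 a1 a2 a3 => exact ⟨a0, a1, a2, a3⟩
  obtain ⟨d, _, hd, _, sd, _, ne, ne'⟩ := ex_tri hg h2 ht
  have hff : ¬ f ∈ s.1 := fun h => dj hw h (List.mem_of_getLast? hg.last)
  have sz : y ∈ s.1 ↔ t ∉ s.1 := by
    rw [hs1, hs2]
    exact iff_of_false hff (fun h => h hg.fA)
  refine DG_of hg ht hd hy sd sz ne ne' fun s' _ hTri hM hS => ?_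
  have e1 := hS (p f) t hmpf.tk (Or.inl hmpf) (Or.inr (by simp [T1C.tri])) a1
  have e2 := hS t (p t) ht.tk (Or.inr (by simp [T1C.tri])) (Or.inr (by simp [T1C.tri])) a2
  have e3 := hS (p t) w (ht.part hw).tk (Or.inr (by simp [T1C.tri])) (Or.inl hmw) a3
  have f1 := hS f y hmf.tk (Or.inl hmf) (Or.inr (by simp [T1C.tri])) b1
  have f2 := hS y (p y) hy.tk (Or.inr (by simp [T1C.tri])) (Or.inr (by simp [T1C.tri])) b2
  have f3 := hS (p y) (p w) (hy.part hw).tk (Or.inr (by simp [T1C.tri])) (Or.inl hmw') b3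
  have g1 : NA.pd s' t = p f := NA.pd_of_sc e1
  have g2 : NA.pd s' y = f := NA.pd_of_sc f1
  have hwf' := hTri.gp.wf
  refine hT Ω p f s' t d y hTri e2 ?_ ?_ ?_ ?_ ?_
  · rw [g1]; exact (hM (p f)).2 hmpf
  · rw [e3]; exact (hM w).2 hmw
  · rw [g1, g2, hw.inv]
  · rw [e3, f3]
  · refine lin_B hTri.gp f1 f2 ?_ ?_
    · rintro rfl
      exact hmf.ncd hw hy
    · intro e
      have : Cd p s (p y) := hy.part hw
      rw [e] at this
      exact hmf.ncd hw this

end Pool.Agent.helper51.T1
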