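import Pool.Agent.helper51.T1.Match
import Pool.Agent.helper14.NTN.Asm

/-!
# MP_c8d30a, T1, II.5: from the walks to the rays
-/

set_option autoImplicit false

namespace Pool.Agent.helper51.T1

set_option linter.unusedSectionVars false

open NTH NA Equiv Equiv.Perm List

/-! ### rays and iterates -/

section

universe u
variable {Ω : Type u} {p m : Ω → Ω} {A : Ω → Prop} {f : Ω}

theorem Ray.iter {n : ℕ} {a b : Ω × Bool} (h : Ray p m A f n a b) :
    b = (nx p m)^[n] a ∧ ∀ k, k < n → ¬ Df p m A ((nx p m)^[k] a) ∧ ¬ Wl p f ((nx p m)^[k] a) := by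
  induction h with
  | refl a => exact ⟨rfl, fun k hk => by omega⟩
  | @step n a b h1 h2 _ ih =>
    refine ⟨by rw [Function.iterate_succ_apply]; exact ih.1, fun k hk => ?_⟩
    cases k with
    | zero => exact ⟨h1, h2⟩
    | succ k =>
      rw [Function.iterate_succ_apply]
      exact ih.2 k (by omega)

theorem Ray.of_iter {a : Ω × Bool} : ∀ {n : ℕ}, (∀ k, k < n → ¬ Df p m A ((nx p m)^[k] a) ∧ ¬ Wl p f ((nx p m)^[k] a)) →
    Ray p m A f n a ((nx p m)^[n] a) := by
  intro n
  induction n with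
  | zero => intro _; exact .refl _
  | succ n ih =>
    intro h
    rw [Function.iterate_succ_apply']
    exact (ih fun k hk => h k (by omega)).tail (h n (by omega)).1 (h n (by omega)).2

/-- no palindromes. -/
theorem nx_palin (hp : ∀ t, p (p t) = t) (hm : ∀ t, m (m t) = t) (hpf : ∀ t, p t ≠ t) (hmf : ∀ t, m t ≠ t) :
    ∀ (k : ℕ) (a : Ω × Bool), (nx p m)^[k] a ≠ rv a := by
  have key : ∀ k, (∀ a : Ω × Bool, (nx p m)^[k] a ≠ rv a) ∧ (∀ a : Ω × Bool, (nx p m)^[k + 1] a ≠ rv a) := by
    intro k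
    induction k with
    | zero =>
      refine ⟨fun a h => ?_, fun a h => ?_⟩
      · have := congrArg Prod.snd h
        simp [rv] at this
      · have := congrArg Prod.fst h
        obtain ⟨t, k⟩ := a
        cases k
        · exact hmf t this
        · exact hpf t this
    | succ k ih =>
      refine ⟨ih.2, fun a h => ?_⟩
      apply ih.1 (nx p m a)
      apply nx_inj hp hm
      rw [nx_rv_nx hp hm, ← h]
      rw [← Function.iterate_succ_apply' (nx p m), ← Function.iterate_succ_apply (nx p m)]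
  exact fun k => (key k).1

/-- the reversal of two tracks which meet. -/
theorem nx_meet (hp : ∀ t, p (p t) = t) (hm : ∀ t, m (m t) = t) {a b : Ω × Bool} {n : ℕ}
    (h : (nx p m)^[n] b = rv ((nx p m)^[n] a)) : ∀ j, j ≤ n → (nx p m)^[n - j] b = rv ((nx p m)^[n + j] a) := by
  intro j
  induction j with
  | zero => intro _; exact h
  | succ j ih =>
    intro hj
    apply nx_inj hp hm
    rw [← Function.iterate_succ_apply' (nx p m), show (n - (j + 1)).succ = n - j by omega, ih (by omega),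
      show n + (j + 1) = (n + j) + 1 by omega, Function.iterate_succ_apply', nx_rv_nx hp hm]

/-- the positions of a ray are different. -/
theorem Ray.inj (hp : ∀ t, p (p t) = t) (hm : ∀ t, m (m t) = t) {n : ℕ} {a b : Ω × Bool} (h : Ray p m A f n a b)
    (ha : Df p m A (rv a)) {i j : ℕ} (hij : i < j) (hj : j ≤ n) : (nx p m)^[i] a ≠ (nx p m)^[j] a := by
  intro he
  have hret : ∀ i j, i < j → (nx p m)^[i] a = (nx p m)^[j] a → a = (nx p m)^[j - i] a := by
    intro i
    induction i with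
    | zero => intro j _ h; simpa using h
    | succ i ih =>
      intro j hj h
      obtain ⟨j', rfl⟩ : ∃ j', j = j' + 1 := ⟨j - 1, by omega⟩
      rw [Function.iterate_succ_apply', Function.iterate_succ_apply'] at h
      have := ih j' (by omega) (nx_inj hp hm h)
      rwa [show j' + 1 - (i + 1) = j' - i by omega]
  have h1 := hret i j hij he
  obtain ⟨d, hd⟩ : ∃ d, j - i = d + 1 := ⟨j - i - 1, by omega⟩
  rw [hd, Function.iterate_succ_apply'] at h1
  have h2 : Df p m A ((nx p m)^[d] a) := by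
    rw [← Df_rv hp hm, ← h1]
    exact ha
  exact (h.iter.2 d (by omega)).1 h2

/-- the length of a ray. -/
theorem Ray.le [DecidableEq Ω] (hp : ∀ t, p (p t) = t) (hm : ∀ t, m (m t) = t) (L : List Ω)
    (hL : ∀ t ∈ L, p t ∈ L ∧ m t ∈ L) {n : ℕ} {a b : Ω × Bool} (h : Ray p m A f n a b)
    (ha : Df p m A (rv a)) (haL : a.1 ∈ L) : n + 1 ≤ 2 * L.length := by
  have hmem : ∀ n, ((nx p m)^[n] a).1 ∈ L := by
    intro n
    induction n with
    | zero => exact haL
    | succ n ih =>
      rw [Function.iterate_succ_apply']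
      show (bif ((nx p m)^[n] a).2 then p ((nx p m)^[n] a).1 else m ((nx p m)^[n] a).1) ∈ L
      cases ((nx p m)^[n] a).2
      · exact (hL _ ih).2
      · exact (hL _ ih).1
  have h1 : (Finset.range (n + 1)).card ≤ (L.toFinset ×ˢ (Finset.univ : Finset Bool)).card := by
    apply Finset.card_le_card_of_injOn (fun k => (nx p m)^[k] a)
    · intro k _
      simpa using hmem k
    · intro i hi j hj he
      simp only [Finset.coe_range, Set.mem_Iio] at hi hj
      by_contra hne
      rcases lt_or_gt_of_ne hne with h3 | h3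
      · exact h.inj hp hm ha h3 (by omega) he
      · exact h.inj hp hm ha h3 (by omega) he.symm
  rw [Finset.card_range, Finset.card_product] at h1
  have h2 := L.toFinset_card_le
  have h3 : (Finset.univ : Finset Bool).card = 2 := rfl
  rw [h3] at h1
  omega

end

section

variable {Ω : Type} [DecidableEq Ω] {p : Ω → Ω} {f : Ω} {s : NTH.St Ω}

/-- one step of the walk of a coupled pair. -/
def wS (p m : Ω → Ω) (a : Ω × Ω) : Ω × Ω := (p a.2, m a.1)

theorem wS_track (m : Ω → Ω) (u v : Ω) (n : ℕ) :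
    ((nx p m)^[n] (u, false) = (((wS p m)^[n] (u, v)).1, false) ∧
      (nx p m)^[n] (v, true) = (((wS p m)^[n] (u, v)).2, true)) ∨
    ((nx p m)^[n] (u, false) = (((wS p m)^[n] (u, v)).2, true) ∧
      (nx p m)^[n] (v, true) = (((wS p m)^[n] (u, v)).1, false)) := by
  induction n with
  | zero => exact Or.inl ⟨rfl, rfl⟩
  | succ n ih =>
    rw [Function.iterate_succ_apply', Function.iterate_succ_apply', Function.iterate_succ_apply']
    rcases ih with ⟨h1, h2⟩ | ⟨h1, h2⟩
    · right; rw [h1, h2]; exact ⟨rfl, rfl⟩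
    · left; rw [h1, h2]; exact ⟨rfl, rfl⟩

/-- the two start positions of a coupled pair, in one of the two orders. -/
def Cpl (p : Ω → Ω) (s : NTH.St Ω) (u : Ω) (a b : Ω × Bool) : Prop :=
  (a = (u, false) ∧ b = (NA.pd s (p u), true)) ∨ (a = (NA.pd s (p u), true) ∧ b = (u, false))

theorem own_rv (hw : WF p s) (c : Ω × Bool) : own s (rv (nx p (NA.mu p s) c)) = p (own s c) := by
  obtain ⟨t, k⟩ := c
  cases k
  · show NA.sc s (NA.mu p s t) = p (NA.sc s t)
    rw [NA.mu_eq_pd, NA.sc_pd]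
  · rfl

theorem Cpl.own (hw : WF p s) {u : Ω} {a b c : Ω × Bool} (h : Cpl p s u a b) (hc : own s c = u ∨ own s c = p u) :
    c = rv a ∨ c = rv b ∨ nx p (NA.mu p s) c = a ∨ nx p (NA.mu p s) c = b := by
  obtain ⟨t, k⟩ := c
  have key : (t, k) = (u, true) ∨ (t, k) = (p u, true) ∨ (t, k) = (NA.pd s u, false) ∨ (t, k) = (NA.pd s (p u), false) := by
    cases k
    · have hc' : NA.sc s t = u ∨ NA.sc s t = p u := hc
      rcases hc' with h1 | h1
      · right; right; left; rw [← h1, NA.pd_sc]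
      · right; right; right; rw [← h1, NA.pd_sc]
    · have hc' : t = u ∨ t = p u := hc
      rcases hc' with h1 | h1
      · left; rw [h1]
      · right; left; rw [h1]
  have e1 : nx p (NA.mu p s) (p u, true) = (u, false) := by simp [nx, hw.inv]
  have e2 : nx p (NA.mu p s) (NA.pd s u, false) = (NA.pd s (p u), true) := by
    show (NA.mu p s (NA.pd s u), true) = _
    rw [NA.mu_eq_pd, NA.sc_pd]
  rcases h with ⟨rfl, rfl⟩ | ⟨rfl, rfl⟩ <;> rcases key with h1 | h1 | h1 | h1 <;> rw [h1]
  · exact Or.inl rfl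
  · exact Or.inr (Or.inr (Or.inl e1))
  · exact Or.inr (Or.inr (Or.inr e2))
  · exact Or.inr (Or.inl rfl)
  · exact Or.inr (Or.inl rfl)
  · exact Or.inr (Or.inr (Or.inr e1))
  · exact Or.inr (Or.inr (Or.inl e2))
  · exact Or.inl rfl

theorem Cpl.stt {u : Ω} {a b : Ω × Bool} (h : Cpl p s u a b) : Stt p s u a ∧ Stt p s u b := by
  rcases h with ⟨rfl, rfl⟩ | ⟨rfl, rfl⟩
  · exact ⟨Or.inl rfl, Or.inr (Or.inr (Or.inr rfl))⟩
  · exact ⟨Or.inr (Or.inr (Or.inr rfl)), Or.inl rfl⟩

/-- **the combinatorial core of the walk**: `a` sees another letter, the pair `(a, b)` walks `n` steps. -/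
theorem link_core (hw : WF p s) (hf : ¬ Cd p s f) {u : Ω} (hu : Cd p s u) {a b c : Ω × Bool} (hab : Cpl p s u a b)
    {n0 n : ℕ} (h1 : SS p f s n0 a c) (h2 : DD p s c) (h3 : own s c ≠ u) (h4 : own s c ≠ p u)
    (P1 : ∀ k, k < n → (¬ Wl p f ((nx p (NA.mu p s))^[k] a) ∧ (DD p s ((nx p (NA.mu p s))^[k] a) →
        own s ((nx p (NA.mu p s))^[k] a) = u ∨ own s ((nx p (NA.mu p s))^[k] a) = p u)) ∧
      (¬ Wl p f ((nx p (NA.mu p s))^[k] b) ∧ (DD p s ((nx p (NA.mu p s))^[k] b) →
        own s ((nx p (NA.mu p s))^[k] b) = u ∨ own s ((nx p (NA.mu p s))^[k] b) = p u)))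
    (hn : n ≤ n0 + 1)
    (P2 : n = n0 + 1 ∨ (nx p (NA.mu p s))^[n] b = rv ((nx p (NA.mu p s))^[n] a) ∨
      Wl p f ((nx p (NA.mu p s))^[n] a) ∨ Wl p f ((nx p (NA.mu p s))^[n] b)) :
    ∃ k w, SS p f s k b w ∧ Wl p f w := by
  have hmm := NA.mu_mu hw.inv s
  obtain ⟨hc, hray⟩ := h1.1.iter
  have hsa := hab.stt.1
  have hsb := hab.stt.2
  -- n ≤ n0
  have hn0 : n ≤ n0 := by
    by_contra hlt
    have h5 := (P1 n0 (by omega)).1.2
    rw [← hc] at h5
    rcases h5 h2 with h6 | h6
    · exact h3 h6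
    · exact h4 h6
  rcases P2 with P2 | P2 | P2 | P2
  · omega
  · -- own contact
    exfalso
    have hm := nx_meet hw.inv hmm P2
    have hDb := hsb.df hw hu
    have hob := hsb.back hw
    by_cases h5 : n0 < 2 * n
    · obtain ⟨i, hi⟩ : ∃ i, 2 * n - n0 = i + 1 := ⟨2 * n - n0 - 1, by omega⟩
      have h6 := hm (n0 - n) (by omega)
      rw [show n - (n0 - n) = i + 1 by omega, show n + (n0 - n) = n0 by omega, ← hc,
        Function.iterate_succ_apply'] at h6
      have h7 : rv (nx p (NA.mu p s) ((nx p (NA.mu p s))^[i] b)) = c := by rw [h6, rv_rv]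
      have h8 : DD p s ((nx p (NA.mu p s))^[i] b) := by
        have := Df_rv (A := fun t => t ∈ s.1) hw.inv hmm ((nx p (NA.mu p s))^[i] b)
        rw [h7] at this
        exact this.1 h2
      have h9 := own_rv hw ((nx p (NA.mu p s))^[i] b)
      rw [h7] at h9
      rcases (P1 i (by omega)).2.2 h8 with h10 | h10
      · exact h4 (by rw [h9, h10])
      · exact h3 (by rw [h9, h10, hw.inv])
    · have h6 := hm n le_rfl
      rw [Nat.sub_self] at h6
      have h7 : rv b = (nx p (NA.mu p s))^[n + n] a := by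
        have : b = rv ((nx p (NA.mu p s))^[n + n] a) := h6
        rw [this, rv_rv]
      rcases Nat.lt_or_ge (n + n) n0 with h8 | h8
      · exact (hray _ h8).1 (by rw [← h7]; exact hDb)
      · have h9 : n + n = n0 := by omega
        rw [h9, ← hc] at h7
        rw [← h7] at h3 h4
        rcases hob with h10 | h10
        · exact h3 h10
        · exact h4 h10
  · -- wall on the first track
    exfalso
    rcases Nat.lt_or_ge n n0 with h5 | h5
    · exact (hray _ h5).2 P2
    · have h6 : n = n0 := by omega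
      rw [h6, ← hc] at P2
      obtain ⟨t, k⟩ := c
      obtain ⟨hk, ht⟩ := P2
      obtain rfl : k = true := hk
      have hcd : Cd p s t := (own_Cd hw (h1.1.tk hw (hsa.tk hw hu))).1 h2
      rcases ht with rfl | rfl
      · exact hf hcd
      · have := hcd.part hw
        rw [hw.inv] at this
        exact hf this
  · -- wall on the second track
    have hnd : ∀ k, k < n → ¬ DD p s ((nx p (NA.mu p s))^[k] b) := by
      intro k
      induction k using Nat.strong_induction_on with
      | _ k ih =>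
        intro hk hD
        have hray2 : Ray p (NA.mu p s) (fun t => t ∈ s.1) f k b ((nx p (NA.mu p s))^[k] b) :=
          Ray.of_iter fun j hj => ⟨ih j hj (by omega), (P1 j (by omega)).2.1⟩
        rcases hab.own hw ((P1 k hk).2.2 hD) with h5 | h5 | h5 | h5
        · -- reversal
          rw [h5] at hray2
          have h6 := hray2.rev hw.inv hmm
          rw [rv_rv] at h6
          have h7 := (h1.uniq ⟨h6, Or.inl (hsb.df hw hu)⟩).2
          rcases hsb.back hw with h8 | h8 <;> rw [← h7] at h8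
          · exact h3 h8
          · exact h4 h8
        · exact nx_palin hw.inv hmm hw.ne (mu_ne hw) k b h5
        · -- chase
          have h6 : (nx p (NA.mu p s))^[n] b = (nx p (NA.mu p s))^[n - (k + 1)] a := by
            rw [← h5, ← Function.iterate_succ_apply' (nx p (NA.mu p s)), ← Function.iterate_add_apply,
              show n - (k + 1) + (k + 1) = n by omega]
          rw [h6] at P2
          exact (hray _ (by omega)).2 P2
        · -- full circle
          have h6 : (nx p (NA.mu p s))^[n] b = (nx p (NA.mu p s))^[n - (k + 1)] b := by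
            conv_rhs => rw [← h5, ← Function.iterate_succ_apply' (nx p (NA.mu p s)), ← Function.iterate_add_apply,
              show n - (k + 1) + (k + 1) = n by omega]
          rw [h6] at P2
          exact (P1 _ (by omega)).2.1 P2
    exact ⟨n, _, ⟨Ray.of_iter fun k hk => ⟨hnd k hk, (P1 k hk).2.1⟩, Or.inr P2⟩, P2⟩

/-- two adjacent coloured tokens of different letters. -/
def Adj (p : Ω → Ω) (s : NTH.St Ω) : Prop := ∃ t, Cd p s t ∧ Cd p s (NA.sc s t) ∧ NA.sc s t ≠ p t

/-- the mu-edge at `t` is a defect. -/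
def MD (p : Ω → Ω) (s : NTH.St Ω) (t : Ω) : Prop :=
  (t ∈ s.1 ∧ NA.mu p s t ∈ s.1) ∨ (t ∈ s.2 ∧ NA.mu p s t ∈ s.2)

theorem MD_iff (hw : WF p s) (t : Ω) : MD p s t ↔ Cd p s (NA.sc s t) := by
  unfold MD Cd NA.Red NA.Blu
  rw [NA.mu_eq_pd, NA.pd_mem_A hw.nd, NA.pd_mem_B hw.nd, NA.sc_mem_A hw.nd, NA.sc_mem_B hw.nd]

/-- the walk stops. -/
def Stop (p : Ω → Ω) (f : Ω) (s : NTH.St Ω) (a b : Ω) : Prop := Cd p s (NA.sc s a) ∨ Cd p s b ∨ b = f ∨ b = p f

/-- the walk of the coupled pair `(u, pd (p u))` along at most `N` steps, without a contact. -/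
def Wlk (p : Ω → Ω) (f : Ω) (s : NTH.St Ω) (u : Ω) (N : ℕ) : Prop := ∃ n, n ≤ N ∧ ∃ s' : NTH.St Ω, ∃ a b : Ω,
  (a, b) = (wS p (NA.mu p s))^[n] (u, NA.pd s (p u)) ∧ NA.pd s' (p a) = b ∧ ¬ Adj p s' ∧
  (∀ k, k < n → ∀ x y, (x, y) = (wS p (NA.mu p s))^[k] (u, NA.pd s (p u)) →
    ¬ (MD p s x ∧ x ≠ NA.pd s (p u) ∧ x ≠ NA.mu p s (NA.pd s (p u))) ∧ ¬ (Cd p s y ∧ y ≠ u ∧ y ≠ p u) ∧ y ≠ f ∧ y ≠ p f) ∧
  (n = N ∨ (Stop p f s' a b ∧ Cd p s' a))

/-- **no contact.** -/
theorem nc_of (hw : WF p s) (hf : ¬ Cd p s f)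
    (h : ∀ u, Cd p s u → ∀ N, N ≤ 2 * (s.1 ++ s.2).length → Wlk p f s u N) : NC p f s := by
  have hmm := NA.mu_mu hw.inv s
  have hL : ∀ t ∈ s.1 ++ s.2, p t ∈ s.1 ++ s.2 ∧ NA.mu p s t ∈ s.1 ++ s.2 := by
    intro t ht
    exact ⟨hw.cl t ht, List.mem_append.2 (Tk_mu hw (List.mem_append.1 ht))⟩
  intro u hu
  have main : ∀ a b, Cpl p s u a b → ∀ n0 c, SS p f s n0 a c → DD p s c → own s c ≠ u → own s c ≠ p u →
      ∃ k w, SS p f s k b w ∧ Wl p f w := by
    intro a b hab n0 c h1 h2 h3 h4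
    have hsa := hab.stt.1
    have hlen : n0 + 1 ≤ 2 * (s.1 ++ s.2).length :=
      h1.1.le hw.inv hmm _ hL (hsa.df hw hu) (List.mem_append.2 (hsa.tk hw hu))
    obtain ⟨n, hn, s', x, y, hxy, hpd, hadj, P1, P2⟩ := h u hu (n0 + 1) hlen
    -- the tracks
    have htr : ∀ k x y, (x, y) = (wS p (NA.mu p s))^[k] (u, NA.pd s (p u)) →
        ((nx p (NA.mu p s))^[k] a = (x, false) ∧ (nx p (NA.mu p s))^[k] b = (y, true)) ∨
        ((nx p (NA.mu p s))^[k] a = (y, true) ∧ (nx p (NA.mu p s))^[k] b = (x, false)) := by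
      intro k x y hk
      have h5 := wS_track (p := p) (NA.mu p s) u (NA.pd s (p u)) k
      rw [← hk] at h5
      rcases hab with ⟨rfl, rfl⟩ | ⟨rfl, rfl⟩
      · exact h5
      · rcases h5 with ⟨h6, h7⟩ | ⟨h6, h7⟩
        · exact Or.inr ⟨h7, h6⟩
        · exact Or.inl ⟨h7, h6⟩
    have hA : ∀ x, ¬ (MD p s x ∧ x ≠ NA.pd s (p u) ∧ x ≠ NA.mu p s (NA.pd s (p u))) →
        ∀ (_ : Tk s x), (¬ Wl p f (x, false) ∧ (DD p s (x, false) → own s (x, false) = u ∨ own s (x, false) = p u)) := by
      intro x hx hxt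
      refine ⟨fun h => Bool.noConfusion h.1, fun h => ?_⟩
      have h5 : Cd p s (NA.sc s x) := (own_Cd hw hxt).1 h
      by_contra hno
      push Not at hno
      apply hx
      refine ⟨(MD_iff hw x).2 h5, ?_, ?_⟩
      · rintro rfl
        exact hno.2 (NA.sc_pd _ _)
      · rintro rfl
        apply hno.1
        show NA.sc s (NA.mu p s (NA.pd s (p u))) = u
        rw [NA.mu_eq_pd, NA.sc_pd, NA.sc_pd, hw.inv]
    have hB : ∀ y, ¬ (Cd p s y ∧ y ≠ u ∧ y ≠ p u) → y ≠ f → y ≠ p f → Tk s y →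
        (¬ Wl p f (y, true) ∧ (DD p s (y, true) → own s (y, true) = u ∨ own s (y, true) = p u)) := by
      intro y hy h6 h7 hyt
      refine ⟨fun h => ?_, fun h => ?_⟩
      · rcases h.2 with h8 | h8
        · exact h6 h8
        · exact h7 h8
      · have h5 : Cd p s y := (own_Cd hw hyt).1 h
        by_contra hno
        push Not at hno
        exact hy ⟨h5, hno.1, hno.2⟩
    have htk : ∀ (k : ℕ) (a : Ω × Bool), Tk s a.1 → Tk s ((nx p (NA.mu p s))^[k] a).1 := by
      intro k
      induction k with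
      | zero => intro a h; exact h
      | succ k ih =>
        intro a h
        rw [Function.iterate_succ_apply]
        exact ih _ (Tk_nx hw h)
    refine link_core hw hf hu hab h1 h2 h3 h4 (n := n) ?_ hn ?_
    · intro k hk
      obtain ⟨x, y, hk'⟩ : ∃ x y, (x, y) = (wS p (NA.mu p s))^[k] (u, NA.pd s (p u)) := ⟨_, _, rfl⟩
      obtain ⟨q1, q2, q3, q4⟩ := P1 k hk x y hk'
      have ta := htk k a (hsa.tk hw hu)
      have tb := htk k b (hab.stt.2.tk hw hu)
      rcases htr k x y hk' with ⟨e1, e2⟩ | ⟨e1, e2⟩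
      · rw [e1] at ta
        rw [e2] at tb
        rw [e1, e2]
        exact ⟨hA x q1 ta, hB y q2 q3 q4 tb⟩
      · rw [e1] at ta
        rw [e2] at tb
        rw [e1, e2]
        exact ⟨hB y q2 q3 q4 ta, hA x q1 tb⟩
    · rcases P2 with P2 | ⟨P2, hxc⟩
      · exact Or.inl P2
      · right
        by_cases hwl : y = f ∨ y = p f
        · right
          rcases htr n x y hxy with ⟨e1, e2⟩ | ⟨e1, e2⟩
          · right; rw [e2]; exact ⟨rfl, hwl⟩
          · left; rw [e1]; exact ⟨rfl, hwl⟩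
        · left
          by_cases hxy' : x = y
          · subst hxy'
            rcases htr n x x hxy with ⟨e1, e2⟩ | ⟨e1, e2⟩ <;> rw [e1, e2] <;> rfl
          · exfalso
            rcases P2 with P2 | P2 | P2 | P2
            · apply hadj
              refine ⟨x, hxc, P2, fun h => hxy' ?_⟩
              rw [← hpd, ← h, NA.pd_sc]
            · apply hadj
              have e : NA.sc s' y = p x := by rw [← hpd, NA.sc_pd]
              refine ⟨y, P2, ?_, ?_⟩
              · rw [e]
                rcases hxc with h | h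
                · exact Or.inl ⟨h.2, by rw [hw.inv]; exact h.1⟩
                · exact Or.inr ⟨h.2, by rw [hw.inv]; exact h.1⟩
              · rw [e]
                intro h
                apply hxy'
                rw [← hw.inv x, h, hw.inv]
            · exact hwl (Or.inl P2)
            · exact hwl (Or.inr P2)
  refine ⟨fun n b h1 h2 h3 h4 => main _ _ (Or.inl ⟨rfl, rfl⟩) n b h1 h2 h3 h4, fun n b h1 h2 h3 h4 =>
    main _ _ (Or.inr ⟨rfl, rfl⟩) n b h1 h2 h3 h4⟩

end

end Pool.Agent.helper51.T1
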