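import Pool.Agent.helper51.T1.Link
import Pool.Agent.helper3.NP.Walk

/-!
# MP_c8d30a, T1, II.5: no contact reachable by walks ⇒ `NC`
-/

set_option autoImplicit false

namespace Pool.Agent.helper51.T1

set_option linter.unusedSectionVars false

open NTH NA Equiv Equiv.Perm List
open Pool.Agent.helper32.RH (RTs)

variable {Ω : Type} [DecidableEq Ω] {p : Ω → Ω} {f : Ω} {s : NTH.St Ω}

/-- reachable by one walk. -/
def Reach (p : Ω → Ω) (f : Ω) (s s' : NTH.St Ω) : Prop := ∃ n, n ≤ 2 * (s.1 ++ s.2).length ∧ RTs p (6 * n) s s' ∧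
  GP p f s' ∧ (s'.1 ++ s'.2).Perm (s.1 ++ s.2) ∧ NTS.D2 p s' = NTS.D2 p s ∧ NA.mu p s' = NA.mu p s

/-- a contact of different letters is reachable by one walk. -/
def AdjR (p : Ω → Ω) (f : Ω) (s : NTH.St Ω) : Prop := ∃ s', Reach p f s s' ∧ Adj p s'

theorem wk_eq (m : Ω → Ω) : ∀ (n : ℕ) (a : Ω × Ω), NP.wk p m n a = (wS p m)^[n] a := by
  intro n
  induction n with
  | zero => intro a; rfl
  | succ n ih =>
    intro a
    rw [Function.iterate_succ_apply]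
    exact ih _

theorem GP.fnc (hg : GP p f s) : ¬ Cd p s f := by
  have hf : f ∈ s.2 := List.mem_of_getLast? hg.last
  have hd := (List.nodup_append.1 hg.wf.nd).2.2
  rintro (h | h)
  · exact hd f h.1 f hf rfl
  · exact hd (p f) hg.fA (p f) h.2 rfl

theorem GP.Tk_f (hg : GP p f s) : Tk s f := Or.inr (List.mem_of_getLast? hg.last)

/-- **II.5, the link**: a contact is reachable, or `NC`. -/
theorem NC_or (hg : GP p f s) (hfr : ∀ u, Cd p s u → NP.Fr p s u) : AdjR p f s ∨ NC p f s := by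
  by_cases hA : AdjR p f s
  · exact Or.inl hA
  right
  refine nc_of hg.wf (GP.fnc hg) fun u hu N hN => ?_
  obtain ⟨n, hn, s', w, w1, w2⟩ := NP.walk hg (u := u) (v := NA.pd s (p u)) ⟨hu, rfl⟩ (hfr u hu) N
  refine ⟨n, hn, s', (NP.wk p (NA.mu p s) n (u, NA.pd s (p u))).1, (NP.wk p (NA.mu p s) n (u, NA.pd s (p u))).2, ?_, w.cp.2, ?_, ?_, ?_⟩
  · rw [wk_eq]
  · intro hadj
    exact hA ⟨s', ⟨n, by omega, w.rts, w.gp, w.perm, w.d2, w.mu⟩, hadj⟩
  · intro k hk x y hxy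
    have h := w1 k hk
    rw [wk_eq, ← hxy] at h
    exact ⟨h.md, h.cd, h.bf, h.bf'⟩
  · rcases w2 with w2 | w2
    · exact Or.inl w2
    · exact Or.inr ⟨w2, w.cp.1⟩

/-- three coloured tokens of pairwise different classes. -/
theorem NC.sep (hw : WF p s) (hnc : NC p f s) {x y z t : Ω} (hx : Cd p s x) (hy : Cd p s y) (hz : Cd p s z) (ht : Cd p s t)
    (hxy : y ≠ x ∧ y ≠ p x) (hxz : z ≠ x ∧ z ≠ p x) (hyz : z ≠ y ∧ z ≠ p y) (htx : t ≠ x ∧ t ≠ p x) (hty : t ≠ y ∧ t ≠ p y)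
    (htz : t ≠ z ∧ t ≠ p z) :
    ∃ a b, (a = x ∨ a = y ∨ a = z ∨ a = t) ∧ (b = x ∨ b = y ∨ b = z ∨ b = t) ∧ a ≠ b ∧ NoX p f s a ∧ NoX p f s b := by
  have hne : x ≠ y ∧ x ≠ z ∧ y ≠ z ∧ x ≠ t ∧ y ≠ t ∧ z ≠ t :=
    ⟨fun h => hxy.1 h.symm, fun h => hxz.1 h.symm, fun h => hyz.1 h.symm, fun h => htx.1 h.symm, fun h => hty.1 h.symm,
      fun h => htz.1 h.symm⟩
  rcases hnc.three hw hx hy hz hxy hxz hyz with h | h | h
  · rcases hnc.three hw hy hz ht hyz hty htz with h' | h' | h'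
    · exact ⟨x, y, by simp, by simp, hne.1, h, h'⟩
    · exact ⟨x, z, by simp, by simp, hne.2.1, h, h'⟩
    · exact ⟨x, t, by simp, by simp, hne.2.2.2.1, h, h'⟩
  · rcases hnc.three hw hx hz ht hxz htx htz with h' | h' | h'
    · exact ⟨y, x, by simp, by simp, hne.1.symm, h, h'⟩
    · exact ⟨y, z, by simp, by simp, hne.2.2.1, h, h'⟩
    · exact ⟨y, t, by simp, by simp, hne.2.2.2.2.1, h, h'⟩
  · rcases hnc.three hw hx hy ht hxy htx hty with h' | h' | h'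
    · exact ⟨z, x, by simp, by simp, hne.2.1.symm, h, h'⟩
    · exact ⟨z, y, by simp, by simp, hne.2.2.1.symm, h, h'⟩
    · exact ⟨z, t, by simp, by simp, hne.2.2.2.2.2, h, h'⟩

end Pool.Agent.helper51.T1
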