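import Pool.Agent.helper51.T1.Eq3

/-!
# MP_c8d30a, T1, II.5: the matching of the rays
-/

set_option autoImplicit false

namespace Pool.Agent.helper51.T1

set_option linter.unusedSectionVars false

open NTH NA Equiv Equiv.Perm List

variable {Ω : Type} [DecidableEq Ω] {p : Ω → Ω} {f : Ω} {s : NTH.St Ω}

/-- the ray from `a` ends at `b`. -/
def SS (p : Ω → Ω) (f : Ω) (s : NTH.St Ω) (n : ℕ) (a b : Ω × Bool) : Prop :=
  Sees p (NA.mu p s) (fun t => t ∈ s.1) f n a b

/-- a defect in front. -/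
def DD (p : Ω → Ω) (s : NTH.St Ω) (a : Ω × Bool) : Prop := Df p (NA.mu p s) (fun t => t ∈ s.1) a

/-- the token of the coloured letter which owns the defect in front. -/
def own (s : NTH.St Ω) (a : Ω × Bool) : Ω := bif a.2 then a.1 else NA.sc s a.1

/-- the four start positions of the letter of `x`. -/
def Stt (p : Ω → Ω) (s : NTH.St Ω) (x : Ω) (a : Ω × Bool) : Prop :=
  a = (x, false) ∨ a = (p x, false) ∨ a = (NA.pd s x, true) ∨ a = (NA.pd s (p x), true)

/-- the rays of the letter of `x` do not end at other letters. -/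
def NoX (p : Ω → Ω) (f : Ω) (s : NTH.St Ω) (x : Ω) : Prop :=
  ∀ a, Stt p s x a → ∀ n b, SS p f s n a b → DD p s b → own s b = x ∨ own s b = p x

/-- **NO CONTACT**: if a ray of a letter ends at another letter, the coupled ray ends at the wall. -/
def NC (p : Ω → Ω) (f : Ω) (s : NTH.St Ω) : Prop := ∀ t, Cd p s t →
  (∀ n b, SS p f s n (t, false) b → DD p s b → own s b ≠ t → own s b ≠ p t →
    ∃ k w, SS p f s k (NA.pd s (p t), true) w ∧ Wl p f w) ∧
  (∀ n b, SS p f s n (NA.pd s (p t), true) b → DD p s b → own s b ≠ t → own s b ≠ p t →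
    ∃ k w, SS p f s k (t, false) w ∧ Wl p f w)

/-- tokens of the state. -/
def Tk (s : NTH.St Ω) (t : Ω) : Prop := t ∈ s.1 ∨ t ∈ s.2

theorem Tk_p (hw : WF p s) {t : Ω} (h : Tk s t) : Tk s (p t) :=
  List.mem_append.1 (hw.cl t (List.mem_append.2 h))

theorem Tk_sc (hw : WF p s) {t : Ω} (h : Tk s t) : Tk s (NA.sc s t) := by
  rcases h with h | h
  · exact Or.inl ((NA.sc_mem_A hw.nd).2 h)
  · exact Or.inr ((NA.sc_mem_B hw.nd).2 h)

theorem Tk_pd (hw : WF p s) {t : Ω} (h : Tk s t) : Tk s (NA.pd s t) := by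
  rcases h with h | h
  · exact Or.inl ((NA.pd_mem_A hw.nd).2 h)
  · exact Or.inr ((NA.pd_mem_B hw.nd).2 h)

theorem Tk_mu (hw : WF p s) {t : Ω} (h : Tk s t) : Tk s (NA.mu p s t) := by
  rw [NA.mu_eq_pd]
  exact Tk_pd hw (Tk_p hw (Tk_sc hw h))

theorem Cd.tk {t : Ω} (h : Cd p s t) : Tk s t := by
  rcases h with h | h
  · exact Or.inl h.1
  · exact Or.inr h.1

theorem Cd.part (hw : WF p s) {t : Ω} (h : Cd p s t) : Cd p s (p t) := by
  rcases h with h | h
  · exact Or.inl ⟨h.2, by rw [hw.inv]; exact h.1⟩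
  · exact Or.inr ⟨h.2, by rw [hw.inv]; exact h.1⟩

theorem Cd_iff (hw : WF p s) {t : Ω} (ht : Tk s t) : Cd p s t ↔ (t ∈ s.1 ↔ p t ∈ s.1) := by
  have hd : ∀ v, v ∈ s.1 → v ∉ s.2 := fun v h1 h2 => (List.nodup_append.1 hw.nd).2.2 v h1 v h2 rfl
  constructor
  · rintro (h | h)
    · exact ⟨fun _ => h.2, fun _ => h.1⟩
    · exact ⟨fun h' => absurd h.1 (hd _ h'), fun h' => absurd h.2 (hd _ h')⟩
  · intro h
    rcases ht with ht | ht
    · exact Or.inl ⟨ht, h.1 ht⟩
    · right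
      refine ⟨ht, ?_⟩
      rcases Tk_p hw (Or.inr ht) with h1 | h1
      · exact absurd ht (hd _ (h.2 h1))
      · exact h1

theorem Tk_nx (hw : WF p s) {a : Ω × Bool} (h : Tk s a.1) : Tk s (nx p (NA.mu p s) a).1 := by
  obtain ⟨t, k⟩ := a
  cases k
  · exact Tk_mu hw h
  · exact Tk_p hw h

theorem Ray.tk (hw : WF p s) {n : ℕ} {a b : Ω × Bool} (h : Ray p (NA.mu p s) (fun t => t ∈ s.1) f n a b)
    (ha : Tk s a.1) : Tk s b.1 := by
  induction h with
  | refl a => exact ha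
  | step _ _ _ ih => exact ih (Tk_nx hw ha)

theorem own_Cd (hw : WF p s) {b : Ω × Bool} (hb : Tk s b.1) : DD p s b ↔ Cd p s (own s b) := by
  obtain ⟨t, k⟩ := b
  cases k
  · show (t ∈ s.1 ↔ NA.mu p s t ∈ s.1) ↔ Cd p s (NA.sc s t)
    rw [Cd_iff hw (Tk_sc hw hb), NA.mu_eq_pd, NA.pd_mem_A hw.nd, NA.sc_mem_A hw.nd]
  · show (t ∈ s.1 ↔ p t ∈ s.1) ↔ Cd p s t
    rw [Cd_iff hw hb]

theorem own_Stt {b : Ω × Bool} : Stt p s (own s b) (rv b) := by
  obtain ⟨t, k⟩ := b
  cases k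
  · right; right; left
    show (t, true) = (NA.pd s (NA.sc s t), true)
    rw [NA.pd_sc]
  · left; rfl

theorem Stt.back (hw : WF p s) {x : Ω} {a : Ω × Bool} (h : Stt p s x a) : own s (rv a) = x ∨ own s (rv a) = p x := by
  rcases h with rfl | rfl | rfl | rfl
  · exact Or.inl rfl
  · exact Or.inr rfl
  · left; show NA.sc s (NA.pd s x) = x; exact NA.sc_pd _ _
  · right; show NA.sc s (NA.pd s (p x)) = p x; exact NA.sc_pd _ _

theorem Stt.tk (hw : WF p s) {x : Ω} (hx : Cd p s x) {a : Ω × Bool} (h : Stt p s x a) : Tk s a.1 := by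
  rcases h with rfl | rfl | rfl | rfl
  · exact hx.tk
  · exact (hx.part hw).tk
  · exact Tk_pd hw hx.tk
  · exact Tk_pd hw (hx.part hw).tk

theorem Stt.df (hw : WF p s) {x : Ω} (hx : Cd p s x) {a : Ω × Bool} (h : Stt p s x a) : DD p s (rv a) := by
  rw [own_Cd hw (show Tk s (rv a).1 from h.tk hw hx)]
  rcases h.back hw with h1 | h1 <;> rw [h1]
  · exact hx
  · exact hx.part hw

/-- the other end of an own defect. -/
theorem Stt.cross (hw : WF p s) {x : Ω} {b : Ω × Bool} (h : own s b = x ∨ own s b = p x) :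
    Stt p s x (nx p (NA.mu p s) b) := by
  obtain ⟨t, k⟩ := b
  cases k
  · have h' : NA.sc s t = x ∨ NA.sc s t = p x := h
    have e : nx p (NA.mu p s) (t, false) = (NA.pd s (p (NA.sc s t)), true) := rfl
    rw [e]
    rcases h' with h1 | h1 <;> rw [h1]
    · exact Or.inr (Or.inr (Or.inr rfl))
    · rw [hw.inv]; exact Or.inr (Or.inr (Or.inl rfl))
  · have h' : t = x ∨ t = p x := h
    have e : nx p (NA.mu p s) (t, true) = (p t, false) := rfl
    rw [e]
    rcases h' with h1 | h1 <;> rw [h1]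
    · exact Or.inr (Or.inl rfl)
    · rw [hw.inv]; exact Or.inl rfl

theorem mu_ne (hw : WF p s) (t : Ω) : NA.mu p s t ≠ t := by
  intro h
  apply hw.ne (NA.sc s t)
  have h1 := congrArg (NA.sc s) h
  rw [NA.mu_eq_pd, NA.sc_pd] at h1
  exact h1

/-- the territory of a letter. -/
def Ter (p : Ω → Ω) (f : Ω) (s : NTH.St Ω) (x t : Ω) : Prop :=
  ∃ a n b, Stt p s x a ∧ Ray p (NA.mu p s) (fun t => t ∈ s.1) f n a b ∧ b.1 = t

theorem Ter.step (hw : WF p s) {x : Ω} (hN : NoX p f s x) {t : Ω} (h : Ter p f s x t) (k : Bool)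
    (hk : ¬ (k = true ∧ (t = f ∨ t = p f))) : Ter p f s x (nx p (NA.mu p s) (t, k)).1 := by
  obtain ⟨a, n, b, h1, h2, rfl⟩ := h
  by_cases hkb : k = b.2
  · subst hkb
    by_cases hD : DD p s b
    · exact ⟨_, 0, _, Stt.cross hw (hN a h1 n b ⟨h2, Or.inl hD⟩ hD), .refl _, rfl⟩
    · exact ⟨a, n + 1, _, h1, h2.tail hD hk, rfl⟩
  · have hkb' : k = !b.2 := by
      cases k <;> cases hb : b.2 <;> simp_all
    subst hkb'
    cases n with
    | zero =>
      cases h2
      exact ⟨_, 0, _, Stt.cross (b := rv a) hw (h1.back hw), .refl _, rfl⟩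
    | succ n =>
      obtain ⟨c, h3, h4, h5, rfl⟩ := h2.last
      refine ⟨a, n, c, h1, h3, ?_⟩
      have h6 := nx_rv_nx hw.inv (NA.mu_mu hw.inv s) c
      have h7 : rv (nx p (NA.mu p s) c) = ((nx p (NA.mu p s) c).1, !(nx p (NA.mu p s) c).2) := rfl
      rw [← h7, h6]
      rfl

theorem Ter.tk (hw : WF p s) {x : Ω} (hx : Cd p s x) {t : Ω} (h : Ter p f s x t) : Tk s t := by
  obtain ⟨a, n, b, h1, h2, rfl⟩ := h
  exact h2.tk hw (h1.tk hw hx)

theorem Ter.mu (hw : WF p s) {x : Ω} (hN : NoX p f s x) {t : Ω} (h : Ter p f s x t) : Ter p f s x (NA.mu p s t) :=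
  h.step hw hN false (by simp)

theorem Ter_p (hw : WF p s) {x : Ω} (hx : Cd p s x) (hN : NoX p f s x) {t : Ω} (h : Ter p f s x t) :
    Ter p f s x (p t) := by
  have hL : ∀ t ∈ s.1 ++ s.2, p t ∈ s.1 ++ s.2 ∧ NA.mu p s t ∈ s.1 ++ s.2 := by
    intro t ht
    exact ⟨hw.cl t ht, List.mem_append.2 (Tk_mu hw (List.mem_append.1 ht))⟩
  by_cases h1 : t = f ∨ t = p f
  · rcases h1 with h1 | h1
    · rw [h1] at h ⊢
      exact wall_closed (f := f) hw.inv (NA.mu_mu hw.inv s) hw.ne (mu_ne hw) (s.1 ++ s.2) hL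
        (G := Ter p f s x) (fun u hu => hu.mu hw hN) (fun u hu h2 h3 => hu.step hw hN true (by simp [h2, h3]))
        (List.mem_append.2 (h.tk hw hx)) h
    · rw [h1] at h ⊢
      exact wall_closed (f := p f) hw.inv (NA.mu_mu hw.inv s) hw.ne (mu_ne hw) (s.1 ++ s.2) hL
        (G := Ter p f s x) (fun u hu => hu.mu hw hN)
        (fun u hu h2 h3 => hu.step hw hN true (by rw [hw.inv] at h3; simp [h2, h3]))
        (List.mem_append.2 (h.tk hw hx)) h
  · exact h.step hw hN true (by simpa using h1)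

theorem Ter_start {x : Ω} {a : Ω × Bool} (h : Stt p s x a) : Ter p f s x a.1 := ⟨a, 0, a, h, .refl _, rfl⟩

theorem Cd_DD {y : Ω} (hw : WF p s) (hy : Cd p s y) (k : Bool) : DD p s (bif k then y else NA.pd s y, k) := by
  cases k
  · rw [own_Cd hw (Tk_pd hw hy.tk)]
    show Cd p s (NA.sc s (NA.pd s y))
    rw [NA.sc_pd]; exact hy
  · rw [own_Cd hw hy.tk]; exact hy

/-- a coloured token in the territory of a letter is a token of the letter. -/
theorem Ter_Cd (hw : WF p s) {x : Ω} (hN : NoX p f s x) {y : Ω} (hy : Cd p s y)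
    (h : Ter p f s x y ∨ Ter p f s x (NA.pd s y)) : y = x ∨ y = p x := by
  rcases h with ⟨a, n, b, h1, h2, h3⟩ | ⟨a, n, b, h1, h2, h3⟩
  · obtain ⟨t, k⟩ := b
    obtain rfl : t = y := h3
    cases k
    · cases n with
      | zero =>
        cases h2
        exact h1.back hw
      | succ n =>
        exfalso
        obtain ⟨⟨c, k⟩, c1, c2, c3, c4⟩ := h2.last
        cases k
        · simp [nx] at c4
        · have e : t = p c := congrArg Prod.fst c4
          apply c2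
          have := Cd_DD hw (hy.part hw) true
          rw [e, hw.inv] at this
          exact this
    · exact hN a h1 n _ ⟨h2, Or.inl (Cd_DD hw hy true)⟩ (Cd_DD hw hy true)
  · obtain ⟨t, k⟩ := b
    obtain rfl : t = NA.pd s y := h3
    cases k
    · have h4 := hN a h1 n _ ⟨h2, Or.inl (Cd_DD hw hy false)⟩ (Cd_DD hw hy false)
      have e : own s (NA.pd s y, false) = y := NA.sc_pd _ _
      rwa [e] at h4
    · cases n with
      | zero =>
        cases h2
        have h4 := h1.back hw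
        have e : own s (rv (NA.pd s y, true)) = y := NA.sc_pd _ _
        rwa [e] at h4
      | succ n =>
        exfalso
        obtain ⟨⟨c, k⟩, c1, c2, c3, c4⟩ := h2.last
        cases k
        · have e : NA.pd s y = NA.mu p s c := congrArg Prod.fst c4
          have e2 : c = NA.pd s (p y) := by
            rw [← NA.mu_mu hw.inv s c, ← e, NA.mu_eq_pd, NA.sc_pd]
          apply c2
          have := Cd_DD hw (hy.part hw) false
          rw [e2]
          exact this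
        · simp [nx] at c4

theorem EQ_nx (a : Ω × Bool) : EQ p s a.1 (nx p (NA.mu p s) a).1 := by
  obtain ⟨t, k⟩ := a
  cases k
  · exact EQ_mu t
  · exact EQ_p t

theorem Ray.eq {n : ℕ} {a b : Ω × Bool} (h : Ray p (NA.mu p s) (fun t => t ∈ s.1) f n a b) : EQ p s a.1 b.1 := by
  induction h with
  | refl a => exact EQ_refl _
  | step _ _ _ ih => exact (EQ_nx _).trans' ih

theorem Stt.eq (hw : WF p s) {x : Ω} (hx : Cd p s x) {a : Ω × Bool} (h : Stt p s x a) : EQ p s x a.1 := by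
  rcases h with rfl | rfl | rfl | rfl
  · exact EQ_refl _
  · exact EQ_p _
  · exact EQ_pd hx
  · exact (EQ_p _).trans' (EQ_pd (hx.part hw))

/-- **the class of a letter without cross rays contains no other coloured letter.** -/
theorem NoX.eq (hw : WF p s) {x y : Ω} (hx : Cd p s x) (hN : NoX p f s x) (h : EQ p s x y) (hy : Cd p s y) :
    y = x ∨ y = p x := by
  have h0 : Ter p f s x x := Ter_start (Or.inl rfl)
  have h1 : Ter p f s x x ↔ Ter p f s x y := by
    refine EQ_closed (G := Ter p f s x) ?_ ?_ ?_ h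
    · intro t
      refine ⟨fun h => Ter_p hw hx hN h, fun h => ?_⟩
      have := Ter_p hw hx hN h
      rwa [hw.inv] at this
    · intro t
      refine ⟨fun h => h.mu hw hN, fun h => ?_⟩
      have := h.mu hw hN
      rwa [NA.mu_mu hw.inv] at this
    · intro t ht
      constructor
      · intro h
        rcases Ter_Cd hw hN ht (Or.inl h) with h1 | h1
        · rw [h1]; exact Ter_start (Or.inr (Or.inr (Or.inl rfl)))
        · rw [h1]; exact Ter_start (Or.inr (Or.inr (Or.inr rfl)))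
      · intro h
        rcases Ter_Cd hw hN ht (Or.inr h) with h1 | h1
        · rw [h1]; exact Ter_start (Or.inl rfl)
        · rw [h1]; exact Ter_start (Or.inr (Or.inl rfl))
  exact Ter_Cd hw hN hy (Or.inl (h1.1 h0))

/-! ### cross letters -/

/-- a letter which is not `NoX` sees another letter. -/
theorem not_NoX {x : Ω} (h : ¬ NoX p f s x) :
    ∃ a n b, Stt p s x a ∧ SS p f s n a b ∧ DD p s b ∧ own s b ≠ x ∧ own s b ≠ p x := by
  unfold NoX at h
  push Not at h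
  obtain ⟨a, h1, n, b, h2, h3, h4, h5⟩ := h
  exact ⟨a, n, b, h1, h2, h3, h4, h5⟩

/-- the seen letter sees the letter. -/
theorem SS.back (hw : WF p s) {x : Ω} (hx : Cd p s x) {a b : Ω × Bool} {n : ℕ} (h1 : Stt p s x a) (h2 : SS p f s n a b) :
    SS p f s n (rv b) (rv a) :=
  h2.rev hw.inv (NA.mu_mu hw.inv s) (h1.df hw hx)

theorem own_ne (hw : WF p s) {x z : Ω} (h1 : z ≠ x) (h2 : z ≠ p x) : x ≠ z ∧ x ≠ p z ∧ p x ≠ z ∧ p x ≠ p z := by
  refine ⟨fun h => h1 h.symm, fun h => h2 (by rw [h, hw.inv]), fun h => h2 h.symm, fun h => h1 ?_⟩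
  have := congrArg p h
  rw [hw.inv, hw.inv] at this
  exact this.symm

/-- **the coupled ray of a cross ray sees the wall.** -/
theorem NC.wall (hw : WF p s) (hnc : NC p f s) {x : Ω} (hx : Cd p s x) {a b : Ω × Bool} {n : ℕ} (h1 : Stt p s x a)
    (h2 : SS p f s n a b) (h3 : DD p s b) (h4 : own s b ≠ x) (h5 : own s b ≠ p x) :
    ∃ a' k w, Stt p s x a' ∧ SS p f s k a' w ∧ Wl p f w ∧
      ((a = (x, false) ∧ a' = (NA.pd s (p x), true)) ∨ (a = (p x, false) ∧ a' = (NA.pd s x, true)) ∨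
        (a = (NA.pd s x, true) ∧ a' = (p x, false)) ∨ (a = (NA.pd s (p x), true) ∧ a' = (x, false))) := by
  rcases h1 with rfl | rfl | rfl | rfl
  · obtain ⟨k, w, k1, k2⟩ := (hnc x hx).1 n b h2 h3 h4 h5
    exact ⟨_, k, w, Or.inr (Or.inr (Or.inr rfl)), k1, k2, Or.inl ⟨rfl, rfl⟩⟩
  · obtain ⟨k, w, k1, k2⟩ := (hnc (p x) (hx.part hw)).1 n b h2 h3 h5 (by rw [hw.inv]; exact h4)
    rw [hw.inv] at k1
    exact ⟨_, k, w, Or.inr (Or.inr (Or.inl rfl)), k1, k2, Or.inr (Or.inl ⟨rfl, rfl⟩)⟩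
  · obtain ⟨k, w, k1, k2⟩ := (hnc (p x) (hx.part hw)).2 n b (by rw [hw.inv]; exact h2) h3 h5
      (by rw [hw.inv]; exact h4)
    exact ⟨_, k, w, Or.inr (Or.inl rfl), k1, k2, Or.inr (Or.inr (Or.inl ⟨rfl, rfl⟩))⟩
  · obtain ⟨k, w, k1, k2⟩ := (hnc x hx).2 n b h2 h3 h4 h5
    exact ⟨_, k, w, Or.inl rfl, k1, k2, Or.inr (Or.inr (Or.inr ⟨rfl, rfl⟩))⟩

/-- the letter sees the wall. -/
def SW (p : Ω → Ω) (f : Ω) (s : NTH.St Ω) (x : Ω) : Prop := ∃ a k w, Stt p s x a ∧ SS p f s k a w ∧ Wl p f w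

/-- a letter which sees a letter which sees the wall. -/
theorem NC.cross (hw : WF p s) (hnc : NC p f s) {x : Ω} (hx : Cd p s x) (h : ¬ NoX p f s x) :
    SW p f s x ∧ ∃ y, Cd p s y ∧ y ≠ x ∧ y ≠ p x ∧ ¬ NoX p f s y ∧ SW p f s y := by
  obtain ⟨a, n, b, h1, h2, h3, h4, h5⟩ := not_NoX h
  obtain ⟨a', k, w, w1, w2, w3, _⟩ := hnc.wall hw hx h1 h2 h3 h4 h5
  refine ⟨⟨a', k, w, w1, w2, w3⟩, own s b, ?_, h4, h5, ?_⟩
  · exact (own_Cd hw (h2.1.tk hw (h1.tk hw hx))).1 h3
  · have hy : Cd p s (own s b) := (own_Cd hw (h2.1.tk hw (h1.tk hw hx))).1 h3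
    have h6 := SS.back hw hx h1 h2
    have h7 : DD p s (rv a) := h1.df hw hx
    obtain ⟨n1, n2, n3, n4⟩ := own_ne hw h4 h5
    have h8 : own s (rv a) ≠ own s b ∧ own s (rv a) ≠ p (own s b) := by
      rcases h1.back hw with h9 | h9 <;> rw [h9]
      · exact ⟨n1, n2⟩
      · exact ⟨n3, n4⟩
    refine ⟨fun hN => ?_, ?_⟩
    · rcases hN (rv b) own_Stt n _ h6 h7 with h9 | h9
      · exact h8.1 h9
      · exact h8.2 h9
    · obtain ⟨a', k, w, w1, w2, w3, _⟩ := hnc.wall hw hy own_Stt h6 h7 h8.1 h8.2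
      exact ⟨a', k, w, w1, w2, w3⟩

/-- the letter of a start position is unique. -/
theorem Stt.uniq (hw : WF p s) {x y : Ω} {a : Ω × Bool} (h : Stt p s x a) (h' : Stt p s y a) : y = x ∨ y = p x := by
  rcases h.back hw with h1 | h1 <;> rcases h'.back hw with h2 | h2
  · exact Or.inl (h2.symm.trans h1)
  · have h3 : p y = x := h2.symm.trans h1
    exact Or.inr (by rw [← h3, hw.inv])
  · exact Or.inr (h2.symm.trans h1)
  · have h3 : p y = p x := h2.symm.trans h1
    exact Or.inl (by rw [← hw.inv y, h3, hw.inv])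

/-- at most two letters see the wall. -/
theorem SW.three (hw : WF p s) {x y z : Ω} (hx : Cd p s x) (hy : Cd p s y) (hz : Cd p s z)
    (h1 : SW p f s x) (h2 : SW p f s y) (h3 : SW p f s z)
    (hxy : y ≠ x ∧ y ≠ p x) (hxz : z ≠ x ∧ z ≠ p x) (hyz : z ≠ y ∧ z ≠ p y) : False := by
  obtain ⟨a, n, u, a1, a2, a3⟩ := h1
  obtain ⟨b, k, v, b1, b2, b3⟩ := h2
  obtain ⟨c, l, w, c1, c2, c3⟩ := h3
  have key : ∀ {x y : Ω} {a b : Ω × Bool} {n k : ℕ} {u v : Ω × Bool}, Cd p s x → Cd p s y → Stt p s x a →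
      Stt p s y b → SS p f s n a u → SS p f s k b v → u = v → y = x ∨ y = p x := by
    intro x y a b n k u v hx hy ha hb h1 h2 e
    subst e
    have e := Sees.wall_uniq hw.inv (NA.mu_mu hw.inv s) (ha.df hw hx) (hb.df hw hy) h1 h2
    subst e
    exact ha.uniq hw hb
  have e1 : u ≠ v := fun e => by
    rcases key hx hy a1 b1 a2 b2 e with h | h
    · exact hxy.1 h
    · exact hxy.2 h
  have e2 : u ≠ w := fun e => by
    rcases key hx hz a1 c1 a2 c2 e with h | h
    · exact hxz.1 h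
    · exact hxz.2 h
  have e3 : v ≠ w := fun e => by
    rcases key hy hz b1 c1 b2 c2 e with h | h
    · exact hyz.1 h
    · exact hyz.2 h
  obtain ⟨u1, u2⟩ := u
  obtain ⟨v1, v2⟩ := v
  obtain ⟨w1, w2⟩ := w
  obtain ⟨rfl, a3⟩ := a3
  obtain ⟨rfl, b3⟩ := b3
  obtain ⟨rfl, c3⟩ := c3
  simp only at a3 b3 c3
  rcases a3 with rfl | rfl <;> rcases b3 with rfl | rfl <;> rcases c3 with rfl | rfl <;> simp_all

/-- at most two letters are cross letters. -/
theorem NC.three (hw : WF p s) (hnc : NC p f s) {x y z : Ω} (hx : Cd p s x) (hy : Cd p s y) (hz : Cd p s z)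
    (hxy : y ≠ x ∧ y ≠ p x) (hxz : z ≠ x ∧ z ≠ p x) (hyz : z ≠ y ∧ z ≠ p y) :
    NoX p f s x ∨ NoX p f s y ∨ NoX p f s z := by
  by_contra hno
  push Not at hno
  exact SW.three hw hx hy hz (hnc.cross hw hx hno.1).1 (hnc.cross hw hy hno.2.1).1 (hnc.cross hw hz hno.2.2).1
    hxy hxz hyz

/-- a letter which sees the wall is in the class of `f`. -/
theorem SW.eq (hw : WF p s) {x : Ω} (hx : Cd p s x) (h : SW p f s x) : EQ p s x f := by
  obtain ⟨a, n, w, a1, a2, a3⟩ := h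
  have h1 : EQ p s x w.1 := (a1.eq hw hx).trans' a2.1.eq
  rcases a3.2 with h2 | h2
  · rwa [h2] at h1
  · rw [h2] at h1
    exact h1.trans' (EQ_p f).symm'

end Pool.Agent.helper51.T1
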