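import Pool.Agent.helper3.NA.StepH2

/-!
# MP_c8d30a, T1, II.5: rays on the cycles of `p` and `mu`

A position `(t, k)` is a token with the kind of the next edge: `true` = the edge `{t, p t}`, `false` = the edge `{t, m t}`.
-/

set_option autoImplicit false

namespace Pool.Agent.helper51.T1

universe u
variable {Ω : Type u}

/-- cross the next edge. -/
def nx (p m : Ω → Ω) (a : Ω × Bool) : Ω × Bool := (bif a.2 then p a.1 else m a.1, !a.2)

/-- turn around. -/
def rv (a : Ω × Bool) : Ω × Bool := (a.1, !a.2)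

/-- the next edge is a defect. -/
def Df (p m : Ω → Ω) (A : Ω → Prop) (a : Ω × Bool) : Prop := A a.1 ↔ A (nx p m a).1

/-- the next edge is the wall `{f, p f}`. -/
def Wl (p : Ω → Ω) (f : Ω) (a : Ω × Bool) : Prop := a.2 = true ∧ (a.1 = f ∨ a.1 = p f)

/-- a ray of length `n` from `a` to `b`. -/
inductive Ray (p m : Ω → Ω) (A : Ω → Prop) (f : Ω) : ℕ → Ω × Bool → Ω × Bool → Prop
  | refl (a : Ω × Bool) : Ray p m A f 0 a a
  | step {n : ℕ} {a b : Ω × Bool} (h1 : ¬ Df p m A a) (h2 : ¬ Wl p f a) (h : Ray p m A f n (nx p m a) b) :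
      Ray p m A f (n + 1) a b

/-- the ray from `a` ends at `b`, where the next edge is a defect or the wall. -/
def Sees (p m : Ω → Ω) (A : Ω → Prop) (f : Ω) (n : ℕ) (a b : Ω × Bool) : Prop :=
  Ray p m A f n a b ∧ (Df p m A b ∨ Wl p f b)

section

variable {p m : Ω → Ω} {A : Ω → Prop} {f : Ω}

@[simp] theorem rv_rv (a : Ω × Bool) : rv (rv a) = a := by simp [rv]

theorem nx_rv_nx (hp : ∀ t, p (p t) = t) (hm : ∀ t, m (m t) = t) (a : Ω × Bool) :
    nx p m (rv (nx p m a)) = rv a := by
  obtain ⟨t, k⟩ := a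
  cases k <;> simp [nx, rv, hp, hm]

theorem nx_inj (hp : ∀ t, p (p t) = t) (hm : ∀ t, m (m t) = t) {a b : Ω × Bool} (h : nx p m a = nx p m b) : a = b := by
  have h1 := nx_rv_nx hp hm a
  rw [h, nx_rv_nx hp hm b] at h1
  have h2 := congrArg rv h1
  simpa using h2.symm

theorem Df_rv (hp : ∀ t, p (p t) = t) (hm : ∀ t, m (m t) = t) (a : Ω × Bool) :
    Df p m A (rv (nx p m a)) ↔ Df p m A a := by
  unfold Df
  rw [nx_rv_nx hp hm]
  exact ⟨Iff.symm, Iff.symm⟩

theorem Wl_rv (hp : ∀ t, p (p t) = t) (a : Ω × Bool) : Wl p f (rv (nx p m a)) ↔ Wl p f a := by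
  obtain ⟨t, k⟩ := a
  cases k
  · simp [Wl, rv, nx]
  · simp only [Wl, rv, nx, Bool.not_true, Bool.not_false, true_and, cond_true]
    constructor
    · rintro (h | h)
      · right; rw [← h, hp]
      · left; rw [← hp t, h, hp]
    · rintro (h | h)
      · right; rw [h]
      · left; rw [h, hp]

theorem Ray.tail {n : ℕ} {a b : Ω × Bool} (h : Ray p m A f n a b) (h1 : ¬ Df p m A b) (h2 : ¬ Wl p f b) :
    Ray p m A f (n + 1) a (nx p m b) := by
  induction h with
  | refl a => exact .step h1 h2 (.refl _)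
  | step k1 k2 _ ih => exact .step k1 k2 (ih h1 h2)

theorem Ray.rev (hp : ∀ t, p (p t) = t) (hm : ∀ t, m (m t) = t) {n : ℕ} {a b : Ω × Bool} (h : Ray p m A f n a b) :
    Ray p m A f n (rv b) (rv a) := by
  induction h with
  | refl a => exact .refl _
  | @step n a b k1 k2 _ ih =>
    have h1 := ih.tail (by rw [Df_rv hp hm]; exact k1) (by rw [Wl_rv hp]; exact k2)
    rw [nx_rv_nx hp hm] at h1
    exact h1

/-- the last step of a ray. -/
theorem Ray.last {n : ℕ} {a b : Ω × Bool} (h : Ray p m A f (n + 1) a b) :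
    ∃ c, Ray p m A f n a c ∧ ¬ Df p m A c ∧ ¬ Wl p f c ∧ b = nx p m c := by
  generalize hk : n + 1 = k at h
  induction h generalizing n with
  | refl a => omega
  | @step k a b k1 k2 h ih =>
    cases n with
    | zero =>
      have : k = 0 := by omega
      subst this
      cases h
      exact ⟨a, .refl _, k1, k2, rfl⟩
    | succ n =>
      obtain ⟨c, c1, c2, c3, c4⟩ := ih (n := n) (by omega)
      exact ⟨c, .step k1 k2 c1, c2, c3, c4⟩

/-- the end of a ray is unique. -/
theorem Sees.uniq {n k : ℕ} {a b c : Ω × Bool} (h : Sees p m A f n a b) (h' : Sees p m A f k a c) : n = k ∧ b = c := by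
  obtain ⟨h, hb⟩ := h
  obtain ⟨h', hc⟩ := h'
  induction h generalizing k with
  | refl a =>
    cases h' with
    | refl _ => exact ⟨rfl, rfl⟩
    | step k1 k2 _ => exact absurd hb (by tauto)
  | step k1 k2 _ ih =>
    cases h' with
    | refl _ => exact absurd hc (by tauto)
    | step _ _ h' =>
      obtain ⟨e1, e2⟩ := ih hb h'
      exact ⟨by omega, e2⟩

/-- seeing is symmetric. -/
theorem Sees.rev (hp : ∀ t, p (p t) = t) (hm : ∀ t, m (m t) = t) {n : ℕ} {a b : Ω × Bool} (h : Sees p m A f n a b)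
    (ha : Df p m A (rv a)) : Sees p m A f n (rv b) (rv a) :=
  ⟨h.1.rev hp hm, Or.inl ha⟩

/-- the wall is seen from one side by at most one start position. -/
theorem Sees.wall_uniq (hp : ∀ t, p (p t) = t) (hm : ∀ t, m (m t) = t) {n k : ℕ} {a b w : Ω × Bool}
    (ha : Df p m A (rv a)) (hb : Df p m A (rv b)) (h : Sees p m A f n a w) (h' : Sees p m A f k b w) : a = b := by
  have h1 := (h.rev hp hm ha).uniq (h'.rev hp hm hb)
  have := congrArg rv h1.2
  simpa using this

/-- every start position sees something. -/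
theorem sees_exists (hp : ∀ t, p (p t) = t) (hm : ∀ t, m (m t) = t) (L : List Ω) (hL : ∀ t ∈ L, p t ∈ L ∧ m t ∈ L)
    {a : Ω × Bool} (haL : a.1 ∈ L) (ha : Df p m A (rv a)) : ∃ n b, Sees p m A f n a b := by
  by_contra hno
  push Not at hno
  have hunb : ∀ n, Ray p m A f n a ((nx p m)^[n] a) := by
    intro n
    induction n with
    | zero => exact .refl _
    | succ n ih =>
      have h1 := hno n ((nx p m)^[n] a)
      unfold Sees at h1
      rw [Function.iterate_succ_apply']
      exact ih.tail (fun h => h1 ⟨ih, Or.inl h⟩) (fun h => h1 ⟨ih, Or.inr h⟩)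
  have hmem : ∀ n, ((nx p m)^[n] a).1 ∈ L := by
    intro n
    induction n with
    | zero => exact haL
    | succ n ih =>
      rw [Function.iterate_succ_apply']
      show (bif ((nx p m)^[n] a).2 then p ((nx p m)^[n] a).1 else m ((nx p m)^[n] a).1) ∈ L
      cases ((nx p m)^[n] a).2
      · exact (hL _ ih).2
      · exact (hL _ ih).1
  -- two equal positions
  obtain ⟨i, j, hij, he⟩ : ∃ i j, i < j ∧ (nx p m)^[i] a = (nx p m)^[j] a := by
    classical
    have hfin : (Set.range (fun n : ℕ => (nx p m)^[n] a)).Finite := by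
      refine Set.Finite.subset (Finset.finite_toSet (L.toFinset ×ˢ Finset.univ)) ?_
      rintro _ ⟨n, rfl⟩
      simpa using hmem n
    have hni : ¬ Function.Injective (fun n : ℕ => (nx p m)^[n] a) := by
      intro hi
      exact Set.infinite_range_of_injective hi hfin
    rw [Function.not_injective_iff] at hni
    obtain ⟨i, j, h1, h2⟩ := hni
    rcases lt_or_gt_of_ne h2 with h3 | h3
    · exact ⟨i, j, h3, h1⟩
    · exact ⟨j, i, h3, h1.symm⟩
  have hret : ∀ i j, i < j → (nx p m)^[i] a = (nx p m)^[j] a → a = (nx p m)^[j - i] a := by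
    intro i
    induction i with
    | zero => intro j _ h; simpa using h
    | succ i ih =>
      intro j hj h
      obtain ⟨j', rfl⟩ : ∃ j', j = j' + 1 := ⟨j - 1, by omega⟩
      rw [Function.iterate_succ_apply', Function.iterate_succ_apply'] at h
      have := ih j' (by omega) (nx_inj hp hm h)
      rwa [show j' + 1 - (i + 1) = j' - i by omega]
  have h1 := hret i j hij he
  obtain ⟨d, hd⟩ : ∃ d, j - i = d + 1 := ⟨j - i - 1, by omega⟩
  rw [hd, Function.iterate_succ_apply'] at h1
  have h2 : Df p m A ((nx p m)^[d] a) := by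
    rw [← Df_rv hp hm, ← h1]
    exact ha
  exact hno d _ ⟨hunb d, Or.inl h2⟩

/-! ### removing the wall does not disconnect a cycle -/

theorem palin (hp : ∀ t, p (p t) = t) (hm : ∀ t, m (m t) = t) (hpf : ∀ t, p t ≠ t) (hmf : ∀ t, m t ≠ t) :
    ∀ (j : ℕ) (g : Ω), m ((fun t => p (m t))^[j] g) ≠ g := by
  have key : ∀ (j : ℕ), (∀ g : Ω, m ((fun t => p (m t))^[j] g) ≠ g) ∧
      (∀ g : Ω, m ((fun t => p (m t))^[j + 1] g) ≠ g) := by
    intro j
    induction j with
    | zero =>
      refine ⟨fun g => hmf g, fun g h => ?_⟩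
      have h1 : m (p (m g)) = g := h
      exact hpf (m g) (by rw [← hm (p (m g)), h1])
    | succ j ih =>
      refine ⟨ih.2, fun g h => ?_⟩
      apply ih.1 (p (m g))
      have h1 : (fun t => p (m t))^[j + 1 + 1] g = p (m ((fun t => p (m t))^[j] (p (m g)))) := by
        rw [Function.iterate_succ_apply', Function.iterate_succ_apply]
      rw [h1] at h
      rw [← hp (m ((fun t => p (m t))^[j] (p (m g)))), ← hm (p (m ((fun t => p (m t))^[j] (p (m g))))), h]
  exact fun j => (key j).1

/-- a set closed under `m`, and under `p` outside of the wall, is closed under `p`. -/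
theorem wall_closed (hp : ∀ t, p (p t) = t) (hm : ∀ t, m (m t) = t) (hpf : ∀ t, p t ≠ t) (hmf : ∀ t, m t ≠ t)
    (L : List Ω) (hL : ∀ t ∈ L, p t ∈ L ∧ m t ∈ L) {G : Ω → Prop} (hGm : ∀ t, G t → G (m t))
    (hGp : ∀ t, G t → t ≠ f → t ≠ p f → G (p t)) (hf : f ∈ L) (h : G f) : G (p f) := by
  have hmem : ∀ n, (fun t => p (m t))^[n] f ∈ L := by
    intro n
    induction n with
    | zero => exact hf
    | succ n ih =>
      rw [Function.iterate_succ_apply']
      exact (hL _ (hL _ ih).2).1
  have hVi : Function.Injective (fun t => p (m t)) := by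
    intro a b h
    have h1 : p (m a) = p (m b) := h
    have h2 : m a = m b := by rw [← hp (m a), h1, hp]
    rw [← hm a, h2, hm]
  obtain ⟨n, hn0, hn⟩ : ∃ n, 0 < n ∧ (fun t => p (m t))^[n] f = f := by
    classical
    have hfin : (Set.range (fun n : ℕ => (fun t => p (m t))^[n] f)).Finite := by
      refine Set.Finite.subset (Finset.finite_toSet L.toFinset) ?_
      rintro _ ⟨n, rfl⟩
      simpa using hmem n
    have hni : ¬ Function.Injective (fun n : ℕ => (fun t => p (m t))^[n] f) :=
      fun hi => Set.infinite_range_of_injective hi hfin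
    rw [Function.not_injective_iff] at hni
    obtain ⟨i, j, h1, h2⟩ := hni
    have key : ∀ i j : ℕ, i < j → (fun t => p (m t))^[i] f = (fun t => p (m t))^[j] f →
        ∃ n, 0 < n ∧ (fun t => p (m t))^[n] f = f := by
      intro i j hij he
      refine ⟨j - i, by omega, ?_⟩
      apply hVi.iterate i
      rw [← Function.iterate_add_apply, show i + (j - i) = j by omega, he]
    rcases lt_or_gt_of_ne h2 with h3 | h3
    · exact key i j h3 h1
    · exact key j i h3 h1.symm
  classical
  obtain ⟨n, ⟨hn0, hn⟩, hmin⟩ : ∃ n, (0 < n ∧ (fun t => p (m t))^[n] f = f) ∧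
      ∀ k, k < n → ¬ (0 < k ∧ (fun t => p (m t))^[k] f = f) :=
    ⟨Nat.find ⟨n, hn0, hn⟩, Nat.find_spec (p := fun n => 0 < n ∧ (fun t => p (m t))^[n] f = f) ⟨n, hn0, hn⟩,
      fun k hk => Nat.find_min _ hk⟩
  have hG : ∀ j, j < n → G ((fun t => p (m t))^[j] f) := by
    intro j
    induction j with
    | zero => intro _; exact h
    | succ j ih =>
      intro hj
      have h1 := hGm _ (ih (by omega))
      rw [Function.iterate_succ_apply']
      refine hGp _ h1 (palin hp hm hpf hmf j f) ?_
      intro h2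
      apply hmin (j + 1) hj
      refine ⟨by omega, ?_⟩
      rw [Function.iterate_succ_apply']
      show p (m ((fun t => p (m t))^[j] f)) = f
      rw [h2, hp]
  obtain ⟨k, rfl⟩ : ∃ k, n = k + 1 := ⟨n - 1, by omega⟩
  have h1 := hGm _ (hG k (by omega))
  rw [Function.iterate_succ_apply'] at hn
  have h2 : m ((fun t => p (m t))^[k] f) = p f := by
    rw [← hp (m ((fun t => p (m t))^[k] f))]
    exact congrArg p hn
  rwa [h2] at h1

end

end Pool.Agent.helper51.T1
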