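import Pool.Agent.helper51.T1.Big
import Pool.Agent.helper36.T1.II6
import Pool.Agent.helper14.NTN.Shift

/-!
# MP_c8d30a, T1, Part II: the case distinction for at least four coloured letters
-/

set_option autoImplicit false

namespace Pool.Agent.helper51.T1

set_option linter.unusedSectionVars false

open NTH NA Equiv Equiv.Perm List Pool.Agent.helper32.ATT
open Pool.Agent.helper32.RH (RTs)

variable {Ω : Type} [DecidableEq Ω] {p : Ω → Ω} {f : Ω} {s : NTH.St Ω}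

/-- four coloured letters. -/
theorem four_of (hw : WF p s) (hD : 8 ≤ NTS.D2 p s) : ∃ x y z t, Cd p s x ∧ Cd p s y ∧ Cd p s z ∧ Cd p s t ∧
    Ne2 p x y ∧ Ne2 p x z ∧ Ne2 p y z ∧ Ne2 p x t ∧ Ne2 p y t ∧ Ne2 p z t := by
  have h0 : 8 ≤ (NP.CS p s).card := by rw [← NP.D2_card hw]; exact hD
  have hcs : ∀ x, x ∈ NP.CS p s → Cd p s x := fun x hx => NP.mem_CS.1 hx
  obtain ⟨x, hx⟩ := Finset.card_pos.1 (show 0 < (NP.CS p s).card by omega)
  have c1 := Finset.pred_card_le_card_erase (s := NP.CS p s) (a := x)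
  have c2 := Finset.pred_card_le_card_erase (s := (NP.CS p s).erase x) (a := p x)
  obtain ⟨y, hy⟩ := Finset.card_pos.1 (show 0 < (((NP.CS p s).erase x).erase (p x)).card by omega)
  have c3 := Finset.pred_card_le_card_erase (s := ((NP.CS p s).erase x).erase (p x)) (a := y)
  have c4 := Finset.pred_card_le_card_erase (s := (((NP.CS p s).erase x).erase (p x)).erase y) (a := p y)
  obtain ⟨z, hz⟩ := Finset.card_pos.1 (show 0 < (((((NP.CS p s).erase x).erase (p x)).erase y).erase (p y)).card by omega)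
  have c5 := Finset.pred_card_le_card_erase (s := ((((NP.CS p s).erase x).erase (p x)).erase y).erase (p y)) (a := z)
  have c6 := Finset.pred_card_le_card_erase (s := (((((NP.CS p s).erase x).erase (p x)).erase y).erase (p y)).erase z)
    (a := p z)
  obtain ⟨t, ht⟩ := Finset.card_pos.1
    (show 0 < (((((((NP.CS p s).erase x).erase (p x)).erase y).erase (p y)).erase z).erase (p z)).card by omega)
  simp only [Finset.mem_erase] at hy hz ht
  exact ⟨x, y, z, t, hcs x hx, hcs y hy.2.2, hcs z hz.2.2.2.2, hcs t ht.2.2.2.2.2.2, ⟨hy.2.1, hy.1⟩, ⟨hz.2.2.2.1, hz.2.2.1⟩,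
    ⟨hz.2.1, hz.1⟩, ⟨ht.2.2.2.2.2.1, ht.2.2.2.2.1⟩, ⟨ht.2.2.2.1, ht.2.2.1⟩, ⟨ht.2.1, ht.1⟩⟩

theorem Two.fr (hw : WF p s) (h : NTH.Two p s) (u : Ω) : NP.Fr p s u := by
  have key : ∀ {P : Ω → Prop}, (∃ c d, P c ∧ P d ∧ d ≠ c ∧ d ≠ p c) → ∃ d, P d ∧ d ≠ u ∧ d ≠ p u := by
    rintro P ⟨c, d, hc, hd, n1, n2⟩
    by_cases h1 : c = u
    · exact ⟨d, hd, h1 ▸ n1, h1 ▸ n2⟩
    · by_cases h2 : c = p u
      · refine ⟨d, hd, ?_, h2 ▸ n1⟩
        have : p c = u := by rw [h2, hw.inv]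
        rwa [this] at n2
      · exact ⟨c, hc, h1, h2⟩
  exact ⟨key h.1, key h.2⟩

/-- a state with a contact is reachable. -/
def Con (p : Ω → Ω) (f : Ω) (s : NTH.St Ω) : Prop := ∃ n, n ≤ 2 * (s.1 ++ s.2).length + 1 ∧ ∃ s' : NTH.St Ω,
  RTs p (6 * n) s s' ∧ GP p f s' ∧ (s'.1 ++ s'.2).Perm (s.1 ++ s.2) ∧ NTS.D2 p s' = NTS.D2 p s ∧
    NA.mu p s' = NA.mu p s ∧ Adj p s'

theorem red_ne_blu (hw : WF p s) {x y : Ω} (hx : NA.Red p s x) (hy : NA.Blu p s y) : y ≠ x ∧ y ≠ p x := by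
  refine ⟨?_, ?_⟩
  · rintro rfl; exact dj hw hx.1 hy.1
  · rintro rfl; exact dj hw hx.2 hy.1

/-- **PART II, the case distinction.** -/
theorem PII_cases (hg : GP p f s) (hD : 8 ≤ NTS.D2 p s) (h2 : NTH.Two p s) :
    Con p f s ∨ G1 p f s ∨ G2 p f s ∨ G3 p f s := by
  have hw := hg.wf
  by_cases hA : Adj p s
  · left
    obtain ⟨r, hr⟩ := hg.red
    obtain ⟨b, hb⟩ := hg.blu
    exact ⟨0, Nat.zero_le _, s, Pool.Agent.helper32.RH.RTs.refl ⟨r, hr.1, hr.2⟩ ⟨b, hb.1, hb.2⟩, hg, List.Perm.refl _, rfl,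
      rfl, hA⟩
  rcases NC_or hg (fun u _ => Two.fr hw h2 u) with ⟨s', ⟨n, h1, h2, h3, h4, h5, h6⟩, h7⟩ | hnc
  · exact Or.inl ⟨n, by omega, s', h2, h3, h4, h5, h6, h7⟩
  obtain ⟨x, y, z, t, hx, hy, hz, ht, hxy, hxz, hyz, hxt, hyt, hzt⟩ := four_of hw hD
  by_cases hR : NA.RR (NA.cA p s) (NA.cB p s)
  · exact Or.inr (big hg hA hnc hR hx hy hz ht hxy hxz hyz hxt hyt hzt)
  · left
    obtain ⟨a, b, ha, _, _, hNa, _⟩ := hnc.sep2 hw hx hy hz ht hxy hxz hyz hxt hyt hzt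
    have hE : Equivalence (EQ p s) := ⟨EQ_refl, fun h => h.symm', fun h h' => h.trans' h'⟩
    have hfr := Two.fr hw h2 a
    rcases ha with ha | ha
    · obtain ⟨v, hv⟩ := hg.blu
      obtain ⟨d, hd, d1, d2⟩ := hfr.1
      obtain ⟨n1, n2⟩ := red_ne_blu hw ha hv
      obtain ⟨m1, m2⟩ := red_ne_blu hw hd hv
      refine Pool.Agent.helper36.T1.II6 hg ha hv (z := d) (Or.inl hd) d1 d2 (fun e => m1 e.symm) (fun e => m2 ?_) hE EQ_p EQ_mu
        (fun t ht => EQ_pd ht) (fun h => ?_) hR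
      · rw [e, hw.inv]
      · rcases hNa.eq hw (Or.inl ha) h (Or.inr hv) with h1 | h1
        · exact n1 h1
        · exact n2 h1
    · obtain ⟨v, hv⟩ := hg.red
      obtain ⟨d, hd, d1, d2⟩ := hfr.2
      obtain ⟨n1, n2⟩ := red_ne_blu hw hv ha
      obtain ⟨m1, m2⟩ := red_ne_blu hw hv hd
      refine Pool.Agent.helper36.T1.II6 hg hv ha (z := d) (Or.inr hd) m1 m2 d1 d2 hE EQ_p EQ_mu
        (fun t ht => EQ_pd ht) (fun h => ?_) hR
      rcases hNa.eq hw (Or.inr ha) h.symm' (Or.inl hv) with h1 | h1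
      · exact n1 h1.symm
      · exact n2 (by rw [h1, hw.inv])

end Pool.Agent.helper51.T1
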